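import Pool.Agent.Q235.FE.Two
import Pool.Agent.Q28.BP.ArtinE

/-!
# Artin twists of the curves whose coefficients are integers with few changed digits
-/

set_option autoImplicit false

namespace Pool.Agent.Q235.FE

open Finset Filter Topology NumberField
open Pool.Agent.Q235.FD (Setting exceptions change digit avg avg_equiv)
open Pool.Agent.Q28.BP (twf tau twf_congr FE FE_eq FE_mean twf_abs fs tau_loglog FrobAt mn mn_neg wt wt_nonneg sum32 rpow32 tendsto_loglog loglog_ge_one)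
open Pool.Agent.W263.BSD (pointCount GoodPrime)

variable {n : ℕ} (S : Finset ℕ) (M : ℕ → Matrix (Fin n) (Fin n) ℂ)
variable {m : ℕ} (hm : m ≠ 0) (hM : ∀ p, M p ^ m = 1) (hS : ∀ p < 25, p ∈ S)

/-- the mean over `B`, with a sign -/
lemma mean_sign (A t : ℤ) (ht : t = 1 ∨ t = -1) {p : ℕ} (hp : p.Prime) :
    (∑ j ∈ range p, twf S M A (t * (j : ℤ)) p) / p = mn (FE S M A) p := by
  rcases ht with rfl | rfl
  · unfold mn
    congr 1
    refine sum_congr rfl fun j _ => ?_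
    have := FE_eq S M A (j : ℤ) hp
    rw [Int.cast_natCast] at this
    rw [this, one_mul]
  · rw [← mn_neg (FE S M A) hp]
    unfold mn
    congr 1
    refine sum_congr rfl fun j _ => ?_
    have := FE_eq S M A (-(j : ℤ)) hp
    rw [Int.cast_neg, Int.cast_natCast] at this
    rw [neg_one_mul]
    exact this.symm

include hm hM hS in
/-- the mean over both coefficients -/
lemma art_mean_two (s t : ℤ) (ht : t = 1 ∨ t = -1) {p : ℕ} (hp : p.Prime) (hs : ¬ (p : ℤ) ∣ s) :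
    |avg p (fun n : Fin 2 → ℕ => twf S M (s * (n 0 : ℤ)) (t * (n 1 : ℤ)) p) - tau S M p / (2 * p)| ≤
      11 * n / (p * Real.sqrt p) := by
  have hp0 : (0 : ℝ) < p := by exact_mod_cast hp.pos
  have hp1 : (1 : ℝ) ≤ p := by exact_mod_cast hp.one_lt.le
  have hsq : 0 < Real.sqrt p := Real.sqrt_pos.2 hp0
  have hn : (0 : ℝ) ≤ n := Nat.cast_nonneg n
  have hpi : Prime (p : ℤ) := Nat.prime_iff_prime_int.1 hp
  rw [avg_two]
  have e1 : (∑ i ∈ range p, ∑ j ∈ range p, twf S M (s * ((![i, j] 0 : ℕ) : ℤ)) (t * ((![i, j] 1 : ℕ) : ℤ)) p) / (p : ℝ) ^ 2 =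
      (∑ i ∈ range p, mn (FE S M (s * (i : ℤ))) p) / p := by
    have e2 : ∀ i ∈ range p, mn (FE S M (s * (i : ℤ))) p = (∑ j ∈ range p, twf S M (s * (i : ℤ)) (t * (j : ℤ)) p) / p :=
      fun i _ => (mean_sign S M _ t ht hp).symm
    rw [sum_congr rfl e2, ← sum_div, div_div, sq]
    rfl
  rw [e1]
  have h1 : ∀ i ∈ range p, |mn (FE S M (s * (i : ℤ))) p - tau S M p / (2 * p)| ≤ 10 * n / (p * Real.sqrt p) +
      (if i = 0 then n * (1 / (p : ℝ)) else 0) := by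
    intro i hi
    have h2 := FE_mean S M hm hM hS (s * (i : ℤ)) hp
    refine h2.trans (add_le_add le_rfl ?_)
    by_cases h0 : i = 0
    · rw [if_pos h0]
      apply mul_le_mul_of_nonneg_left _ hn
      split_ifs
      · exact le_rfl
      · positivity
    · rw [if_neg h0, if_neg, mul_zero]
      intro h3
      rcases hpi.dvd_or_dvd h3 with h4 | h4
      · exact hs h4
      · have h5 : p ∣ i := by exact_mod_cast h4
        have := Nat.le_of_dvd (Nat.pos_of_ne_zero h0) h5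
        have := mem_range.1 hi
        omega
  have e2 : (∑ i ∈ range p, mn (FE S M (s * (i : ℤ))) p) / p - tau S M p / (2 * p) =
      (∑ i ∈ range p, (mn (FE S M (s * (i : ℤ))) p - tau S M p / (2 * p))) / p := by
    rw [sum_sub_distrib, sum_const, card_range, nsmul_eq_mul]
    field_simp
  rw [e2, abs_div, abs_of_pos hp0, div_le_iff₀ hp0]
  refine (abs_sum_le_sum_abs _ _).trans ((sum_le_sum h1).trans ?_)
  rw [sum_add_distrib, sum_const, card_range, nsmul_eq_mul, sum_ite_eq' (range p) 0, if_pos (mem_range.2 hp.pos)]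
  have h3 : (n : ℝ) * (1 / p) ≤ n / (p * Real.sqrt p) * p := by
    have hle : Real.sqrt p ≤ p := by
      have hss : Real.sqrt p * Real.sqrt p = p := Real.mul_self_sqrt hp0.le
      have hs1 : 1 ≤ Real.sqrt p := by rwa [Real.one_le_sqrt]
      nlinarith
    have e3 : (n : ℝ) / (p * Real.sqrt p) * p = n * (1 / Real.sqrt p) := by
      field_simp
    rw [e3]
    exact mul_le_mul_of_nonneg_left (one_div_le_one_div_of_le hsq hle) hn
  have e4 : (11 : ℝ) * n / (p * Real.sqrt p) * p = p * (10 * n / (p * Real.sqrt p)) + n / (p * Real.sqrt p) * p := by ring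
  rw [e4]
  linarith

include hm hM hS in
lemma sum_art_mean_two : ∃ Z : ℝ, 0 ≤ Z ∧ ∀ s t : ℤ, (s = 1 ∨ s = -1) → (t = 1 ∨ t = -1) → ∀ x : ℕ,
    |∑ p ∈ (range (x + 1)).filter Nat.Prime, avg p (fun n : Fin 2 → ℕ => twf S M (s * (n 0 : ℤ)) (t * (n 1 : ℤ)) p) -
      1 / 2 * ∑ p ∈ (range (x + 1)).filter Nat.Prime, tau S M p / p| ≤ Z := by
  have hn : (0 : ℝ) ≤ n := Nat.cast_nonneg n
  refine ⟨11 * n * ∑' k : ℕ, (k : ℝ) ^ (-(3 / 2) : ℝ), mul_nonneg (by positivity) (tsum_nonneg fun k => by positivity),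
    fun s t hs ht x => ?_⟩
  have h2 := sum32 (11 * n) (by positivity) (fun p => avg p (fun n : Fin 2 → ℕ => twf S M (s * (n 0 : ℤ)) (t * (n 1 : ℤ)) p) -
      tau S M p / (2 * p)) (fun p hp => by
    have hpi : Prime (p : ℤ) := Nat.prime_iff_prime_int.1 hp
    have hns : ¬ (p : ℤ) ∣ s := by
      intro h
      apply hpi.not_isUnit
      apply isUnit_of_dvd_unit h
      rcases hs with rfl | rfl
      · exact isUnit_one
      · exact isUnit_one.neg
    refine (art_mean_two S M hm hM hS s t ht hp hns).trans (le_of_eq ?_)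
    rw [rpow32 hp.pos, mul_one_div]) x
  have e1 : ∑ p ∈ (range (x + 1)).filter Nat.Prime, (avg p (fun n : Fin 2 → ℕ => twf S M (s * (n 0 : ℤ)) (t * (n 1 : ℤ)) p) -
      tau S M p / (2 * p)) =
      ∑ p ∈ (range (x + 1)).filter Nat.Prime, avg p (fun n : Fin 2 → ℕ => twf S M (s * (n 0 : ℤ)) (t * (n 1 : ℤ)) p) -
        1 / 2 * ∑ p ∈ (range (x + 1)).filter Nat.Prime, tau S M p / p := by
    rw [sum_sub_distrib, mul_sum]
    congr 1
    exact sum_congr rfl fun p _ => by ring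
  rwa [e1] at h2

include hm hM hS in
lemma sum_art_mean_one : ∃ Z : ℝ, 0 ≤ Z ∧ ∀ (A : ℤ) (x : ℕ),
    |∑ p ∈ (range (x + 1)).filter Nat.Prime, mn (FE S M A) p -
      1 / 2 * ∑ p ∈ (range (x + 1)).filter Nat.Prime, tau S M p / p| ≤ Z + n * wt A x := by
  have hn : (0 : ℝ) ≤ n := Nat.cast_nonneg n
  refine ⟨10 * n * ∑' k : ℕ, (k : ℝ) ^ (-(3 / 2) : ℝ), mul_nonneg (by positivity) (tsum_nonneg fun k => by positivity), fun A x => ?_⟩
  have h2 : |∑ p ∈ (range (x + 1)).filter Nat.Prime, (mn (FE S M A) p - tau S M p / (2 * p))| ≤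
      10 * n * ∑' k : ℕ, (k : ℝ) ^ (-(3 / 2) : ℝ) + n * wt A x := by
    refine (abs_sum_le_sum_abs _ _).trans ?_
    refine (sum_le_sum fun p hp => FE_mean S M hm hM hS A (mem_filter.1 hp).2).trans ?_
    rw [sum_add_distrib]
    refine add_le_add ?_ ?_
    · have h4 := sum32 (10 * n) (by positivity) (fun p => 10 * n / (p * Real.sqrt p)) (fun p hp => by
        have hp0 : (0 : ℝ) < p := by exact_mod_cast hp.pos
        have hs : 0 < Real.sqrt p := Real.sqrt_pos.2 hp0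
        rw [abs_of_nonneg (by positivity), rpow32 hp.pos, mul_one_div]) x
      exact (le_abs_self _).trans h4
    · unfold wt
      rw [mul_sum]
  have e1 : ∑ p ∈ (range (x + 1)).filter Nat.Prime, (mn (FE S M A) p - tau S M p / (2 * p)) =
      ∑ p ∈ (range (x + 1)).filter Nat.Prime, mn (FE S M A) p -
      1 / 2 * ∑ p ∈ (range (x + 1)).filter Nat.Prime, tau S M p / p := by
    rw [sum_sub_distrib, mul_sum]
    congr 1
    exact sum_congr rfl fun p _ => by ring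
  rwa [e1] at h2

section

variable {L : Type} [Field L] [NumberField L] [IsGalois ℚ L]

/-- `(log log x)^(5/6)` and constants are small compared with `log log x` -/
lemma small_both {ε : ℝ} (hε : 0 < ε) (Z : ℝ) : ∃ X₁ : ℕ, 16 ≤ X₁ ∧ ∀ x : ℕ, X₁ ≤ x →
    2 * Real.log (Real.log x) ^ (5 / 6 : ℝ) + Z ≤ ε * Real.log (Real.log x) := by
  obtain ⟨X₁, h1, H1⟩ := small_error hε
  obtain ⟨X₂, h2, H2⟩ := big_const Z
  refine ⟨max X₁ X₂, h1.trans (le_max_left _ _), fun x hx => ?_⟩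
  have h3 := H1 x ((le_max_left _ _).trans hx)
  have h4 := H2 x ((le_max_right _ _).trans hx)
  linarith

theorem artin_two (β : ℕ) (hβ : 2 ≤ β) : ∃ c : ℝ, 0 < c ∧
    ∀ (ρ : Gal(L/ℚ) →* Matrix (Fin n) (Fin n) ℂ) (σ : ℕ → Gal(L/ℚ)) (S : Finset ℕ),
    (∀ p : ℕ, p.Prime → p ∉ S → FrobAt L p (σ p)) → (∀ p < 25, p ∈ S) → ∀ ε η : ℝ, 0 < ε → 0 < η → ∃ X₀ : ℕ, 16 ≤ X₀ ∧
    ∀ s t : ℤ, (s = 1 ∨ s = -1) → (t = 1 ∨ t = -1) → ∀ (K r N : Fin 2 → ℕ) (f : Fin 2 → ℕ → ℕ), Setting β K r N f →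
      (exceptions β K r N f (fun m => ∀ x : ℕ, X₀ ≤ x → (∀ l, Real.log x ≤ c * Real.sqrt (r l)) →
        |∑ p ∈ (range (x + 1)).filter Nat.Prime, twf S (fun p => ρ (σ p)) (s * (m 0 : ℤ)) (t * (m 1 : ℤ)) p -
          fs ρ / 2 * Real.log (Real.log x)| ≤ ε * Real.log (Real.log x)) : ℝ) ≤ η * ∏ l, ((K l).choose (r l) : ℝ) := by
  obtain ⟨c, hc, H⟩ := means (Fin 2) β hβ
  refine ⟨c, hc, fun ρ σ S hσ hS ε η hε hη => ?_⟩
  have hm : Nat.card Gal(L/ℚ) ≠ 0 := Nat.card_pos.ne'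
  have hM : ∀ p, (fun p => ρ (σ p)) p ^ Nat.card Gal(L/ℚ) = 1 := fun p => by
    simp only
    rw [← map_pow, pow_card_eq_one', map_one]
  obtain ⟨Z, hZ0, hZ⟩ := sum_art_mean_two S (fun p => ρ (σ p)) hm hM hS
  have hn : (0 : ℝ) ≤ n := Nat.cast_nonneg n
  obtain ⟨X₀, hX₀, H⟩ := H (7 * n + 1) (by linarith) η hη
  obtain ⟨X₁, h16, hX₁⟩ := small_both (show 0 < ε / 2 by positivity) Z
  obtain ⟨X₂, hX₂⟩ := eventually_atTop.1 (tau_loglog ρ σ S hσ hε)
  refine ⟨max X₀ (max X₁ X₂), h16.trans ((le_max_left _ _).trans (le_max_right _ _)), fun s t hs ht K r N f hset => ?_⟩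
  refine le_trans (Nat.cast_le.2 (exceptions_mono β K r N f (fun m hm' x hx hxr => ?_)))
    (H (fun p n => twf S (fun p => ρ (σ p)) (s * (n 0 : ℤ)) (t * (n 1 : ℤ)) p)
      (fun p _ n => twf_congr S _ (compat_mul 0 s p n) (compat_mul 1 t p n))
      (fun p hp n => twf_abs S (fun p => ρ (σ p)) hm hM hS _ _ hp) K r N f hset)
  have h1 := hm' x ((le_max_left _ _).trans hx) hxr
  have h2 := hZ s t hs ht x
  have h3 := hX₁ x ((le_max_left _ _).trans ((le_max_right _ _).trans hx))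
  have h4 := hX₂ x ((le_max_right _ _).trans ((le_max_right _ _).trans hx))
  rw [abs_le] at h1 h2 h4 ⊢
  constructor <;> linarith [h1.1, h1.2, h2.1, h2.2, h4.1, h4.2]

theorem artin_fixed (β : ℕ) (hβ : 2 ≤ β) : ∃ c : ℝ, 0 < c ∧
    ∀ (ρ : Gal(L/ℚ) →* Matrix (Fin n) (Fin n) ℂ) (σ : ℕ → Gal(L/ℚ)) (S : Finset ℕ),
    (∀ p : ℕ, p.Prime → p ∉ S → FrobAt L p (σ p)) → (∀ p < 25, p ∈ S) → ∀ ε η : ℝ, 0 < ε → 0 < η → ∃ X₀ : ℕ, 16 ≤ X₀ ∧
    ∀ A t : ℤ, (t = 1 ∨ t = -1) → ∀ (K r N : ℕ) (f : ℕ → ℕ), 2 * r ≤ K → N < β ^ K → (∀ j, f j < β ∧ f j ≠ digit β j N) →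
      (bad β K r N f (fun m => ∀ x : ℕ, X₀ ≤ x → Real.log x ≤ c * Real.sqrt r →
        |∑ p ∈ (range (x + 1)).filter Nat.Prime, twf S (fun p => ρ (σ p)) A (t * (m : ℤ)) p -
          fs ρ / 2 * Real.log (Real.log x)| ≤ ε * Real.log (Real.log x) + n * wt A x) : ℝ) ≤ η * (K.choose r : ℝ) := by
  obtain ⟨c, hc, H⟩ := means Unit β hβ
  refine ⟨c, hc, fun ρ σ S hσ hS ε η hε hη => ?_⟩
  have hm : Nat.card Gal(L/ℚ) ≠ 0 := Nat.card_pos.ne'
  have hM : ∀ p, (fun p => ρ (σ p)) p ^ Nat.card Gal(L/ℚ) = 1 := fun p => by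
    simp only
    rw [← map_pow, pow_card_eq_one', map_one]
  obtain ⟨Z, hZ0, hZ⟩ := sum_art_mean_one S (fun p => ρ (σ p)) hm hM hS
  have hn : (0 : ℝ) ≤ n := Nat.cast_nonneg n
  obtain ⟨X₀, hX₀, H⟩ := H (7 * n + 1) (by linarith) η hη
  obtain ⟨X₁, h16, hX₁⟩ := small_both (show 0 < ε / 2 by positivity) Z
  obtain ⟨X₂, hX₂⟩ := eventually_atTop.1 (tau_loglog ρ σ S hσ hε)
  refine ⟨max X₀ (max X₁ X₂), h16.trans ((le_max_left _ _).trans (le_max_right _ _)), fun A t ht K r N f hrK hN hf => ?_⟩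
  have h0 := H (fun p n => twf S (fun p => ρ (σ p)) A (t * ((n ()) : ℤ)) p)
      (fun p _ n => twf_congr S _ rfl (compat_mul () t p n))
      (fun p hp n => twf_abs S (fun p => ρ (σ p)) hm hM hS _ _ hp) (fun _ => K) (fun _ => r) (fun _ => N) (fun _ => f)
    ⟨fun _ => hrK, fun _ => hN, fun _ j => hf j⟩
  have h5 : ∏ _l : Unit, (K.choose r : ℝ) = K.choose r := by simp
  rw [h5] at h0
  refine le_trans (Nat.cast_le.2 ((bad_le β K r N f _).trans (exceptions_mono β _ _ _ _ (fun m hm' x hx hxr => ?_)))) h0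
  have h1 := hm' x ((le_max_left _ _).trans hx) (fun _ => hxr)
  have h2 := hZ A x
  have h3 := hX₁ x ((le_max_left _ _).trans ((le_max_right _ _).trans hx))
  have h4 := hX₂ x ((le_max_right _ _).trans ((le_max_right _ _).trans hx))
  have e : ∀ p ∈ (range (x + 1)).filter Nat.Prime,
      avg p (fun n : Unit → ℕ => twf S (fun p => ρ (σ p)) A (t * ((n ()) : ℤ)) p) = mn (FE S (fun p => ρ (σ p)) A) p := by
    intro p hp
    rw [avg_unit]
    exact mean_sign S _ A t ht (mem_filter.1 hp).2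
  rw [sum_congr rfl e] at h1
  rw [abs_le] at h1 h2 h4 ⊢
  constructor <;> linarith [h1.1, h1.2, h2.1, h2.2, h4.1, h4.2]

end

end Pool.Agent.Q235.FE
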