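import Pool.Agent.Q28.BP.Blocks

/-! The fourth moment of sums over primes of functions with small correlations. -/

set_option autoImplicit false

open Finset Filter Topology

namespace Pool.Agent.Q235.FE

lemma fourth {ι : Type} (W : Finset ι) (X : ℕ → ι → ℝ) {C : ℝ} (hC : 1 ≤ C) {N : ℕ}
    (J : Finset ℕ) (hJ : ∀ p ∈ J, p.Prime ∧ p ≤ N) (hX : ∀ p ∈ J, ∀ w ∈ W, |X p w| ≤ C / Real.sqrt p) (E : ℝ)
    (hlone : ∀ q ∈ J, ∀ a ∈ J, ∀ b ∈ J, ∀ c ∈ J, q ≠ a → q ≠ b → q ≠ c →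
      |∑ w ∈ W, X q w * (X a w * X b w * X c w)| ≤ E) (hE0 : 0 ≤ E) (hE : (N : ℝ) ^ 6 * E ≤ 2 * C ^ 4 * W.card) :
    ∑ w ∈ W, (∑ p ∈ J, X p w) ^ 4 ≤ 5 * C ^ 4 * W.card * (∑ p ∈ J, 1 / (p : ℝ)) ^ 2 := by
  classical
  rcases J.eq_empty_or_nonempty with rfl | ⟨p₀, hp₀⟩
  · simp
  have hC0 : 0 < C := by linarith
  obtain ⟨B, hB⟩ : ∃ B : ℝ, B = W.card := ⟨_, rfl⟩
  have hB0 : (0 : ℝ) ≤ B := by rw [hB]; exact Nat.cast_nonneg _
  rw [← hB] at hE ⊢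
  have hf2 : ∀ p ∈ J, ∀ w ∈ W, X p w ^ 2 ≤ C ^ 2 / p := by
    intro p hp w hw
    have h1 := hX p hp w hw
    have h2 : X p w ^ 2 = |X p w| ^ 2 := (sq_abs _).symm
    rw [h2]
    refine (pow_le_pow_left₀ (abs_nonneg _) h1 2).trans (le_of_eq ?_)
    rw [div_pow, Real.sq_sqrt (Nat.cast_nonneg p)]
  -- expansion
  obtain ⟨T, hT⟩ : ∃ T : ℕ → ℕ → ℕ → ℕ → ℝ, T = fun p q r t =>
    ∑ w ∈ W, X p w * X q w * (X r w * X t w) := ⟨_, rfl⟩
  have hexp : ∑ w ∈ W, (∑ p ∈ J, X p w) ^ 4 =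
      ∑ p ∈ J, ∑ q ∈ J, ∑ r ∈ J, ∑ t ∈ J, T p q r t := by
    have h1 : ∀ w ∈ W, (∑ p ∈ J, X p w) ^ 4 =
        ∑ p ∈ J, ∑ q ∈ J, ∑ r ∈ J, ∑ t ∈ J, X p w * X q w * (X r w * X t w) := by
      intro w _
      rw [show (∑ p ∈ J, X p w) ^ 4 = ((∑ p ∈ J, X p w) * ∑ p ∈ J, X p w) *
        ((∑ p ∈ J, X p w) * ∑ p ∈ J, X p w) by ring, sum_mul_sum, sum_mul]
      refine sum_congr rfl fun p _ => ?_
      rw [sum_mul]
      refine sum_congr rfl fun q _ => ?_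
      rw [mul_sum]
      refine sum_congr rfl fun r _ => ?_
      rw [mul_sum]
    rw [hT, sum_congr rfl h1, sum_comm]
    refine sum_congr rfl fun p _ => ?_
    rw [sum_comm]
    refine sum_congr rfl fun q _ => ?_
    rw [sum_comm]
    refine sum_congr rfl fun r _ => ?_
    rw [sum_comm]
  -- diagonal weights
  obtain ⟨dd, hdd⟩ : ∃ dd : ℕ → ℕ → ℝ, dd = fun (p q : ℕ) => if p = q then C ^ 2 / (p : ℝ) else 0 := ⟨_, rfl⟩
  have hdd0 : ∀ p q, 0 ≤ dd p q := fun p q => by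
    rw [hdd]
    beta_reduce
    split_ifs <;> positivity
  have hpair : ∀ p ∈ J, ∀ r ∈ J, ∑ w ∈ W, X p w ^ 2 * X r w ^ 2 ≤ B * (C ^ 2 / p * (C ^ 2 / r)) := by
    intro p hp r hr
    refine (sum_le_sum fun w hw => mul_le_mul (hf2 p hp w hw) (hf2 r hr w hw) (sq_nonneg _)
      (by positivity)).trans (le_of_eq ?_)
    rw [sum_const, nsmul_eq_mul, hB]
  have hquad : ∀ p ∈ J, ∀ q ∈ J, ∀ r ∈ J, ∀ t ∈ J, T p q r t ≤
      E + B * (dd p q * dd r t + dd p r * dd q t + dd p t * dd q r) := by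
    intro p hp q hq r hr t ht
    have n1 := mul_nonneg hB0 (mul_nonneg (hdd0 p q) (hdd0 r t))
    have n2 := mul_nonneg hB0 (mul_nonneg (hdd0 p r) (hdd0 q t))
    have n3 := mul_nonneg hB0 (mul_nonneg (hdd0 p t) (hdd0 q r))
    have hddp : ∀ p, dd p p = C ^ 2 / p := fun p => by rw [hdd]; beta_reduce; rw [if_pos rfl]
    have e0 : B * (dd p q * dd r t + dd p r * dd q t + dd p t * dd q r) =
        B * (dd p q * dd r t) + B * (dd p r * dd q t) + B * (dd p t * dd q r) := by ring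
    rw [e0]
    by_cases c1 : p = q ∧ r = t
    · obtain ⟨rfl, rfl⟩ := c1
      have h1 := hpair p hp r hr
      have h2 : T p p r r = ∑ w ∈ W, X p w ^ 2 * X r w ^ 2 := by
        rw [hT]
        exact sum_congr rfl fun n _ => by ring
      rw [h2]
      rw [← hddp p, ← hddp r] at h1
      linarith
    by_cases c2 : p = r ∧ q = t
    · obtain ⟨rfl, rfl⟩ := c2
      have h1 := hpair p hp q hq
      have h2 : T p q p q = ∑ w ∈ W, X p w ^ 2 * X q w ^ 2 := by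
        rw [hT]
        exact sum_congr rfl fun n _ => by ring
      rw [h2]
      rw [← hddp p, ← hddp q] at h1
      linarith
    by_cases c3 : p = t ∧ q = r
    · obtain ⟨rfl, rfl⟩ := c3
      have h1 := hpair p hp q hq
      have h2 : T p q q p = ∑ w ∈ W, X p w ^ 2 * X q w ^ 2 := by
        rw [hT]
        exact sum_congr rfl fun n _ => by ring
      rw [h2]
      rw [← hddp p, ← hddp q] at h1
      linarith
    have hl : (p ≠ q ∧ p ≠ r ∧ p ≠ t) ∨ (q ≠ p ∧ q ≠ r ∧ q ≠ t) ∨ (r ≠ p ∧ r ≠ q ∧ r ≠ t) ∨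
        (t ≠ p ∧ t ≠ q ∧ t ≠ r) := by omega
    have hT1 : T p q r t ≤ E := by
      rw [hT]
      rcases hl with ⟨k1, k2, k3⟩ | ⟨k1, k2, k3⟩ | ⟨k1, k2, k3⟩ | ⟨k1, k2, k3⟩
      · have h := (le_abs_self _).trans (hlone p hp q hq r hr t ht k1 k2 k3)
        refine le_trans (le_of_eq (sum_congr rfl fun n _ => ?_)) h
        ring
      · have h := (le_abs_self _).trans (hlone q hq p hp r hr t ht k1 k2 k3)
        refine le_trans (le_of_eq (sum_congr rfl fun n _ => ?_)) h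
        ring
      · have h := (le_abs_self _).trans (hlone r hr p hp q hq t ht k1 k2 k3)
        refine le_trans (le_of_eq (sum_congr rfl fun n _ => ?_)) h
        ring
      · have h := (le_abs_self _).trans (hlone t ht p hp q hq r hr k1 k2 k3)
        refine le_trans (le_of_eq (sum_congr rfl fun n _ => ?_)) h
        ring
    linarith
  -- summation of the diagonal weights
  obtain ⟨G, hG⟩ : ∃ G : ℝ, G = ∑ p ∈ J, 1 / (p : ℝ) := ⟨_, rfl⟩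
  have hdsum : ∀ p ∈ J, ∑ q ∈ J, dd p q = C ^ 2 / (p : ℝ) := by
    intro p hp
    rw [hdd]
    beta_reduce
    rw [sum_ite_eq, if_pos hp]
  have hD : ∑ p ∈ J, ∑ q ∈ J, dd p q = C ^ 2 * G := by
    rw [sum_congr rfl hdsum, hG, mul_sum]
    exact sum_congr rfl fun p _ => by ring
  have s1 : ∑ p ∈ J, ∑ q ∈ J, ∑ r ∈ J, ∑ t ∈ J, dd p q * dd r t = (C ^ 2 * G) ^ 2 := by
    have : ∀ p ∈ J, ∀ q ∈ J, ∑ r ∈ J, ∑ t ∈ J, dd p q * dd r t = dd p q * (C ^ 2 * G) := by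
      intro p _ q _
      rw [← hD, mul_sum]
      exact sum_congr rfl fun r _ => by rw [mul_sum]
    rw [sum_congr rfl fun p hp => sum_congr rfl (this p hp)]
    have hh : ∑ p ∈ J, ∑ q ∈ J, dd p q * (C ^ 2 * G) = (∑ p ∈ J, ∑ q ∈ J, dd p q) * (C ^ 2 * G) := by
      rw [sum_mul]
      exact sum_congr rfl fun p _ => by rw [sum_mul]
    rw [hh, hD]
    ring
  have s2 : ∑ p ∈ J, ∑ q ∈ J, ∑ r ∈ J, ∑ t ∈ J, dd p r * dd q t = (C ^ 2 * G) ^ 2 := by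
    have h1 : ∑ p ∈ J, ∑ q ∈ J, ∑ r ∈ J, ∑ t ∈ J, dd p r * dd q t =
        ∑ p ∈ J, ∑ r ∈ J, ∑ q ∈ J, ∑ t ∈ J, dd p r * dd q t :=
      sum_congr rfl fun p _ => sum_comm
    rw [h1]
    exact s1
  have s3 : ∑ p ∈ J, ∑ q ∈ J, ∑ r ∈ J, ∑ t ∈ J, dd p t * dd q r = (C ^ 2 * G) ^ 2 := by
    have h1 : ∑ p ∈ J, ∑ q ∈ J, ∑ r ∈ J, ∑ t ∈ J, dd p t * dd q r =
        ∑ p ∈ J, ∑ t ∈ J, ∑ q ∈ J, ∑ r ∈ J, dd p t * dd q r := by
      refine sum_congr rfl fun p _ => ?_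
      have : ∀ q ∈ J, ∑ r ∈ J, ∑ t ∈ J, dd p t * dd q r = ∑ t ∈ J, ∑ r ∈ J, dd p t * dd q r :=
        fun q _ => sum_comm
      rw [sum_congr rfl this, sum_comm]
    rw [h1]
    exact s1
  have hmain : ∑ w ∈ W, (∑ p ∈ J, X p w) ^ 4 ≤
      (J.card : ℝ) ^ 4 * E + B * (3 * (C ^ 2 * G) ^ 2) := by
    rw [hexp]
    refine (sum_le_sum fun p hp => sum_le_sum fun q hq => sum_le_sum fun r hr =>
      sum_le_sum fun t ht => hquad p hp q hq r hr t ht).trans (le_of_eq ?_)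
    have e1 : ∑ p ∈ J, ∑ q ∈ J, ∑ r ∈ J, ∑ t ∈ J,
        (E + B * (dd p q * dd r t + dd p r * dd q t + dd p t * dd q r)) =
        ∑ _p ∈ J, ∑ _q ∈ J, ∑ _r ∈ J, ∑ _t ∈ J, E +
          B * (∑ p ∈ J, ∑ q ∈ J, ∑ r ∈ J, ∑ t ∈ J, dd p q * dd r t +
            ∑ p ∈ J, ∑ q ∈ J, ∑ r ∈ J, ∑ t ∈ J, dd p r * dd q t +
            ∑ p ∈ J, ∑ q ∈ J, ∑ r ∈ J, ∑ t ∈ J, dd p t * dd q r) := by
      simp only [sum_add_distrib, mul_add, mul_sum]
    have e2 : ∑ _p ∈ J, ∑ _q ∈ J, ∑ _r ∈ J, ∑ _t ∈ J, E = (J.card : ℝ) ^ 4 * E := by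
      simp only [sum_const, nsmul_eq_mul]
      ring
    rw [e1, e2, s1, s2, s3]
    ring
  have hcard : (J.card : ℝ) ≤ N := by
    have h1 : J ⊆ Icc 1 N := fun p hp => mem_Icc.2 ⟨(hJ p hp).1.one_lt.le, (hJ p hp).2⟩
    have h2 := card_le_card h1
    rw [Nat.card_Icc] at h2
    exact_mod_cast (by omega : J.card ≤ N)
  have hG0 : 0 ≤ G := by
    rw [hG]
    exact sum_nonneg fun p _ => by positivity
  have hGN : 1 ≤ N * G := by
    have hp := hJ p₀ hp₀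
    have hp0 : (0 : ℝ) < p₀ := by exact_mod_cast hp.1.pos
    have h1 : 1 / (p₀ : ℝ) ≤ G := by
      rw [hG]
      exact single_le_sum (f := fun p : ℕ => 1 / (p : ℝ)) (fun p _ => by positivity) hp₀
    have h2 : (p₀ : ℝ) ≤ N := by exact_mod_cast hp.2
    calc (1 : ℝ) = p₀ * (1 / p₀) := by field_simp
      _ ≤ N * G := mul_le_mul h2 h1 (by positivity) (by positivity)
  have h1 : (J.card : ℝ) ^ 4 * E ≤ 2 * C ^ 4 * B * G ^ 2 := by
    calc (J.card : ℝ) ^ 4 * E ≤ (N : ℝ) ^ 4 * E :=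
          mul_le_mul_of_nonneg_right (pow_le_pow_left₀ (by positivity) hcard 4) hE0
      _ = (N : ℝ) ^ 4 * E * 1 := by ring
      _ ≤ (N : ℝ) ^ 4 * E * (N * G) ^ 2 :=
          mul_le_mul_of_nonneg_left (one_le_pow₀ hGN) (by positivity)
      _ = ((N : ℝ) ^ 6 * E) * G ^ 2 := by ring
      _ ≤ 2 * C ^ 4 * B * G ^ 2 := mul_le_mul_of_nonneg_right hE (by positivity)
  rw [← hG]
  calc _ ≤ _ := hmain
    _ ≤ 2 * C ^ 4 * B * G ^ 2 + B * (3 * (C ^ 2 * G) ^ 2) := by linarith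
    _ = 5 * C ^ 4 * B * G ^ 2 := by ring

end Pool.Agent.Q235.FE
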