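import Pool.Agent.Q235.FE.Sum
import Pool.Agent.Q235.FE.Fourth

/-! Additive functions of mean zero at numbers with few changed digits, all lengths. -/

set_option autoImplicit false

namespace Pool.Agent.Q235.FE

open Finset Filter Topology
open Pool.Agent.TH894.ND
open Pool.Agent.TH894.NE
open Pool.Agent.TH894.SM (change change_eq)
open Pool.Agent.Q28.BP (SS gp all_lengths)

lemma Per.mul {d u v : ℕ} {F G : (Fin d → ℕ) → ℝ} (hF : Per u F) (hG : Per v G) : Per (u * v) (fun n => F n * G n) := by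
  intro n
  show F n * G n = F (fun i => n i % (u * v)) * G (fun i => n i % (u * v))
  rw [← (hF.of_dvd (Dvd.intro v rfl)) n, ← (hG.of_dvd (Dvd.intro_left u rfl)) n]

theorem central_fin (b d : ℕ) (hb : 2 ≤ b) (hd : 1 ≤ d) : ∃ c : ℝ, 0 < c ∧ ∀ C : ℝ, 1 ≤ C → ∀ η : ℝ, 0 < η → ∃ X₀ : ℕ, 3 ≤ X₀ ∧
    ∀ F : ℕ → (Fin d → ℕ) → ℝ, (∀ p : ℕ, p.Prime → Per p (F p)) → (∀ p : ℕ, p.Prime → ∀ n, |F p n| ≤ C / Real.sqrt p) →
      (∀ p : ℕ, p.Prime → ∑ n ∈ box d p, F p n = 0) →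
      ∀ (K r N : Fin d → ℕ) (f : Fin d → ℕ → ℕ), (∀ i, 2 * r i ≤ K i) → (∀ i, N i < b ^ K i) →
        (∀ i j, f i j < b ∧ f i j ≠ N i / b ^ j % b) →
        ∃ Ex ⊆ Fintype.piFinset (fun i => powersetCard (r i) (range (K i))), (Ex.card : ℝ) ≤ η * ∏ i, ((K i).choose (r i) : ℝ) ∧
          ∀ S ∈ Fintype.piFinset (fun i => powersetCard (r i) (range (K i))), S ∉ Ex →
            ∀ x : ℕ, X₀ ≤ x → (∀ i, Real.log x ≤ c * Real.sqrt (r i)) →
              |∑ p ∈ (range (x + 1)).filter Nat.Prime, F p (fun i => change b (K i) (N i) (f i) (S i))| ≤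
                2 * Real.log (Real.log x) ^ (5 / 6 : ℝ) := by
  classical
  obtain ⟨c, hc, hexp⟩ := expsum b hb ((4 * d + 6 : ℕ) : ℝ) (Nat.cast_nonneg _)
  refine ⟨c, hc, fun C hC η hη => ?_⟩
  have hC4 : 1 ≤ C ^ 4 := one_le_pow₀ hC
  obtain ⟨X₁, hX₁, hall⟩ := all_lengths (5 * C ^ 4) η (by linarith) hη
  have hLx : Tendsto (fun x : ℕ => Real.log (Real.log (x : ℝ)) ^ (5 / 6 : ℝ)) atTop atTop :=
    (tendsto_rpow_atTop (by norm_num)).comp (Real.tendsto_log_atTop.comp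
      (Real.tendsto_log_atTop.comp (tendsto_natCast_atTop_atTop (R := ℝ))))
  obtain ⟨X₂, hX₂⟩ := eventually_atTop.1 (hLx.eventually (eventually_ge_atTop (C * (b * b + 1 : ℕ))))
  refine ⟨max X₁ X₂, hX₁.trans (le_max_left _ _), fun F hper hbd hmean K r N f hrK hN hf => ?_⟩
  obtain ⟨W, hW⟩ : ∃ W, W = Fintype.piFinset (fun i => powersetCard (r i) (range (K i))) := ⟨_, rfl⟩
  have hWc : (W.card : ℝ) = ∏ i, ((K i).choose (r i) : ℝ) := by
    rw [hW, Fintype.card_piFinset]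
    push_cast
    exact prod_congr rfl fun i _ => by rw [card_powersetCard, card_range]
  rw [← hW, ← hWc]
  obtain ⟨i₀⟩ : Nonempty (Fin d) := ⟨⟨0, by omega⟩⟩
  obtain ⟨P, hP⟩ : ∃ P : ℕ → Prop, P = fun (x : ℕ) => ∀ i, Real.log x ≤ c * Real.sqrt (r i) := ⟨_, rfl⟩
  obtain ⟨M, hM⟩ : ∃ M, M = Nat.findGreatest P ⌊Real.exp (c * Real.sqrt (r i₀))⌋₊ := ⟨_, rfl⟩
  have hPM : P M := by
    rw [hM]
    refine Nat.findGreatest_spec (m := 0) (Nat.zero_le _) ?_
    rw [hP]
    intro i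
    rw [Nat.cast_zero, Real.log_zero]
    positivity
  have hle : ∀ x : ℕ, 1 ≤ x → P x → x ≤ M := by
    intro x hx1 hx
    rw [hM]
    refine Nat.le_findGreatest ?_ hx
    rw [hP] at hx
    have hx0 : (0 : ℝ) < x := by exact_mod_cast hx1
    exact Nat.le_floor ((Real.log_le_iff_le_exp hx0).1 (hx i₀))
  have hPM' : ∀ i, Real.log M ≤ c * Real.sqrt (r i) := by
    rw [hP] at hPM
    exact hPM
  rcases Nat.lt_or_ge M 3 with hM3 | hM3
  · refine ⟨∅, empty_subset _, by rw [card_empty, Nat.cast_zero]; positivity, fun S _ _ x hx hxr => ?_⟩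
    have h1 : X₁ ≤ x := (le_max_left _ _).trans hx
    have := hle x (by omega) (by rw [hP]; exact hxr)
    omega
  obtain ⟨m, hm⟩ : ∃ m : (Fin d → Finset ℕ) → Fin d → ℕ, m = fun S i => change b (K i) (N i) (f i) (S i) := ⟨_, rfl⟩
  have hMr : (3 : ℝ) ≤ M := by exact_mod_cast hM3
  have hM0 : (0 : ℝ) < M := by linarith
  have hC0 : 0 < C := by linarith
  have hbC : ∀ p : ℕ, p.Prime → ∀ n, |F p n| ≤ C := by
    intro p hp n
    refine (hbd p hp n).trans (div_le_self hC0.le ?_)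
    rw [Real.one_le_sqrt]
    exact_mod_cast hp.one_lt.le
  -- the lone primes
  have hlone : ∀ q a a' a'' : ℕ, (q.Prime ∧ b * b < q ∧ q ≤ M) → (a.Prime ∧ b * b < a ∧ a ≤ M) →
      (a'.Prime ∧ b * b < a' ∧ a' ≤ M) → (a''.Prime ∧ b * b < a'' ∧ a'' ≤ M) → q ≠ a → q ≠ a' → q ≠ a'' →
      |∑ S ∈ W, F q (m S) * (F a (m S) * F a' (m S) * F a'' (m S))| ≤ C ^ 4 * ((M : ℝ) ^ 6)⁻¹ * W.card := by
    intro q a a' a'' hq ha ha' ha'' h1 h2 h3
    obtain ⟨v, hv⟩ : ∃ v, v = a * a' * a'' := ⟨_, rfl⟩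
    have hPv : Per v (fun n => F a n * F a' n * F a'' n) := by
      rw [hv]
      exact Per.mul (Per.mul (hper a ha.1) (hper a' ha'.1)) (hper a'' ha''.1)
    have hv1 : 1 ≤ v := by
      rw [hv]
      exact Nat.mul_pos (Nat.mul_pos ha.1.pos ha'.1.pos) ha''.1.pos
    have hqv : Nat.Coprime q v := by
      rw [hv]
      exact Nat.Coprime.mul_right (Nat.Coprime.mul_right ((Nat.coprime_primes hq.1 ha.1).2 h1)
        ((Nat.coprime_primes hq.1 ha'.1).2 h2)) ((Nat.coprime_primes hq.1 ha''.1).2 h3)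
    have hcop1 : ∀ p : ℕ, p.Prime → b * b < p → Nat.Coprime p (b * b).factorial := by
      intro p hp hlt
      rw [Nat.Prime.coprime_iff_not_dvd hp, hp.dvd_factorial]
      omega
    have hcop : Nat.Coprime (q * v) (b * b).factorial := by
      rw [hv]
      exact Nat.Coprime.mul_left (hcop1 q hq.1 hq.2.1) (Nat.Coprime.mul_left (Nat.Coprime.mul_left (hcop1 a ha.1 ha.2.1)
        (hcop1 a' ha'.1 ha'.2.1)) (hcop1 a'' ha''.1 ha''.2.1))
    have hvM : q * v ≤ M ^ 4 := by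
      rw [hv]
      calc q * (a * a' * a'') ≤ M * (M * M * M) :=
            Nat.mul_le_mul hq.2.2 (Nat.mul_le_mul (Nat.mul_le_mul ha.2.2 ha'.2.2) ha''.2.2)
        _ = M ^ 4 := by ring
    have hbd4 : ∀ n, |F q n * (F a n * F a' n * F a'' n)| ≤ C ^ 4 := by
      intro n
      rw [abs_mul, abs_mul, abs_mul]
      have k1 := hbC q hq.1 n
      have k2 := hbC a ha.1 n
      have k3 := hbC a' ha'.1 n
      have k4 := hbC a'' ha''.1 n
      calc _ ≤ C * (C * C * C) := by gcongr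
        _ = C ^ 4 := by ring
    have hz : ∑ n ∈ box d (q * v), F q n * (F a n * F a' n * F a'' n) = 0 := by
      rw [two_mod q v hq.1.pos hv1 hqv (F q) (fun n => F a n * F a' n * F a'' n) (hper q hq.1) hPv, hmean q hq.1, zero_mul]
    have hqv1 : 1 ≤ q * v := Nat.mul_pos hq.1.pos hv1
    have h4 := equi (fun i => powersetCard (r i) (range (K i))) (fun i t => change b (K i) (N i) (f i) t) (q * v) hqv1
      (fun n => F q n * (F a n * F a' n * F a'' n)) (Per.mul (hper q hq.1) hPv) (C ^ 4) hbd4 hz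
      ((M : ℝ) ^ (-((4 * d + 6 : ℕ) : ℝ))) (by positivity) (fun i k hk => by
        have := hexp (r i) (K i) M (N i) (q * v) k (f i) (hrK i) hM3 (hPM' i) (hN i) (hf i) hqv1 hvM hcop hk
        rw [card_powersetCard, card_range]
        exact this)
    rw [← hW] at h4
    have e1 : ∑ S ∈ W, F q (m S) * (F a (m S) * F a' (m S) * F a'' (m S)) =
        ∑ S ∈ W, (fun n => F q n * (F a n * F a' n * F a'' n)) (fun i => change b (K i) (N i) (f i) (S i)) := by
      rw [hm]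
    have e2 : (∏ i, ((powersetCard (r i) (range (K i))).card : ℝ)) = W.card := by
      rw [hWc]
      exact prod_congr rfl fun i _ => by rw [card_powersetCard, card_range]
    rw [e1]
    refine h4.trans ?_
    rw [e2]
    apply mul_le_mul_of_nonneg_right _ (Nat.cast_nonneg _)
    have e3 : (M : ℝ) ^ (-((4 * d + 6 : ℕ) : ℝ)) = ((M : ℝ) ^ (4 * d + 6))⁻¹ := by
      rw [Real.rpow_neg hM0.le, Real.rpow_natCast]
    rw [e3]
    have e4 : (((q * v : ℕ) : ℝ)) ^ d ≤ ((M : ℝ) ^ 4) ^ d := by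
      apply pow_le_pow_left₀ (Nat.cast_nonneg _)
      exact_mod_cast hvM
    calc C ^ 4 * ((q * v : ℕ) : ℝ) ^ d * ((M : ℝ) ^ (4 * d + 6))⁻¹ ≤ C ^ 4 * ((M : ℝ) ^ 4) ^ d * ((M : ℝ) ^ (4 * d + 6))⁻¹ := by
          apply mul_le_mul_of_nonneg_right _ (by positivity)
          exact mul_le_mul_of_nonneg_left e4 (by positivity)
      _ = C ^ 4 * ((M : ℝ) ^ 6)⁻¹ := by
          rw [← pow_mul, pow_add]
          field_simp
  -- the random variables
  obtain ⟨X, hX⟩ : ∃ X : ℕ → (Fin d → Finset ℕ) → ℂ, X = fun p S => if p.Prime ∧ b * b < p then ((F p (m S) : ℝ) : ℂ) else 0 := ⟨_, rfl⟩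
  have hSS : ∀ (u v : ℕ) (S), SS X u v S = ((∑ p ∈ (Ico u v).filter (fun p => p.Prime ∧ b * b < p), F p (m S) : ℝ) : ℂ) := by
    intro u v S
    unfold SS
    rw [sum_filter, Complex.ofReal_sum]
    refine sum_congr rfl fun p _ => ?_
    rw [hX]
    beta_reduce
    split_ifs
    · rfl
    · simp
  obtain ⟨Ex, hEx, hEx1, hEx2⟩ := hall W M X (by
    intro p S _
    rw [hX]
    beta_reduce
    split_ifs with hp
    · rw [Complex.norm_real, Real.norm_eq_abs]
      have k1 := hbC p hp.1 (m S)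
      have k3 : C ≤ C ^ 4 := le_self_pow₀ hC (by norm_num)
      linarith
    · rw [norm_zero]
      positivity) (by
    intro u v huv hv
    have k1 := fourth W (fun p S => F p (m S)) hC (N := M) ((Ico u v).filter (fun p => p.Prime ∧ b * b < p))
      (fun p hp => by
        rw [mem_filter, mem_Ico] at hp
        exact ⟨hp.2.1, by omega⟩) (fun p hp S _ => by
        rw [mem_filter] at hp
        exact hbd p hp.2.1 (m S)) (C ^ 4 * ((M : ℝ) ^ 6)⁻¹ * W.card) (fun q hq a ha a' ha' a'' ha'' h1 h2 h3 => by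
        rw [mem_filter, mem_Ico] at hq ha ha' ha''
        exact hlone q a a' a'' ⟨hq.2.1, hq.2.2, by omega⟩ ⟨ha.2.1, ha.2.2, by omega⟩ ⟨ha'.2.1, ha'.2.2, by omega⟩
          ⟨ha''.2.1, ha''.2.2, by omega⟩ h1 h2 h3) (by positivity) (by
        have e : (M : ℝ) ^ 6 * (C ^ 4 * ((M : ℝ) ^ 6)⁻¹ * W.card) = C ^ 4 * W.card := by
          field_simp
        rw [e]
        have : 0 ≤ C ^ 4 * (W.card : ℝ) := by positivity
        linarith)
    have k2 : ∑ p ∈ (Ico u v).filter (fun p => p.Prime ∧ b * b < p), 1 / (p : ℝ) ≤ ∑ n ∈ Ico u v, gp n := by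
      rw [sum_filter]
      refine sum_le_sum fun p _ => ?_
      unfold gp
      split_ifs with h1 h2 h2
      · exact le_rfl
      · exact absurd h1.1 h2
      · positivity
      · exact le_rfl
    have k3 : 0 ≤ ∑ p ∈ (Ico u v).filter (fun p => p.Prime ∧ b * b < p), 1 / (p : ℝ) := sum_nonneg fun p _ => by positivity
    have k4 : ∑ w ∈ W, ‖SS X u v w‖ ^ 4 = ∑ w ∈ W, (∑ p ∈ (Ico u v).filter (fun p => p.Prime ∧ b * b < p), F p (m w)) ^ 4 := by
      refine sum_congr rfl fun S _ => ?_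
      rw [hSS, Complex.norm_real, Real.norm_eq_abs]
      have : ∀ t : ℝ, |t| ^ 4 = (|t| ^ 2) ^ 2 := fun t => by ring
      rw [this, sq_abs]
      ring
    rw [k4]
    refine k1.trans ?_
    apply mul_le_mul_of_nonneg_left _ (by positivity)
    exact pow_le_pow_left₀ k3 k2 2)
  refine ⟨Ex, hEx, hEx1, fun S hS hne x hx hxr => ?_⟩
  have hx1 : X₁ ≤ x := (le_max_left _ _).trans hx
  have hx2 : X₂ ≤ x := (le_max_right _ _).trans hx
  have hxM : x ≤ M := hle x (by omega) (by rw [hP]; exact hxr)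
  have h1 := hEx2 S hS hne x hx1 hxM
  rw [hSS, Complex.norm_real, Real.norm_eq_abs, ← range_eq_Ico] at h1
  have h2 : C * (b * b + 1 : ℕ) ≤ Real.log (Real.log x) ^ (5 / 6 : ℝ) := hX₂ x hx2
  have h3 : ∑ p ∈ (range (x + 1)).filter Nat.Prime, F p (fun i => change b (K i) (N i) (f i) (S i)) =
      ∑ p ∈ (range (x + 1)).filter (fun p => p.Prime ∧ b * b < p), F p (m S) +
      ∑ p ∈ (range (x + 1)).filter (fun p => p.Prime ∧ ¬ b * b < p), F p (m S) := by
    rw [← sum_filter_add_sum_filter_not ((range (x + 1)).filter Nat.Prime) (fun p => b * b < p), filter_filter, filter_filter, hm]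
  have h4 : |∑ p ∈ (range (x + 1)).filter (fun p => p.Prime ∧ ¬ b * b < p), F p (m S)| ≤ C * (b * b + 1 : ℕ) := by
    refine (abs_sum_le_sum_abs _ _).trans ?_
    have h5 : ∀ p ∈ (range (x + 1)).filter (fun p => p.Prime ∧ ¬ b * b < p), |F p (m S)| ≤ C := by
      intro p hp
      rw [mem_filter] at hp
      exact hbC p hp.2.1 _
    refine (sum_le_sum h5).trans ?_
    rw [sum_const, nsmul_eq_mul, mul_comm]
    apply mul_le_mul_of_nonneg_left _ hC0.le
    have h6 : (range (x + 1)).filter (fun p => p.Prime ∧ ¬ b * b < p) ⊆ range (b * b + 1) := by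
      intro p hp
      rw [mem_filter] at hp
      rw [mem_range]
      omega
    have := card_le_card h6
    rw [card_range] at this
    exact_mod_cast this
  rw [h3]
  refine (abs_add_le _ _).trans ?_
  linarith

end Pool.Agent.Q235.FE
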