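import Mathlib

/-! The local means of the powers of an Euler factor. -/

set_option autoImplicit false

namespace Pool.Agent.Q235.FE

/-- the expansion of one power -/
lemma pow_exp (κ u v s : ℝ) (hu : |u| ≤ 2) (hv0 : 0 ≤ v) (hv1 : v ≤ 1) (hs0 : 0 < s) (hs : s ≤ 1 / 4) :
    ∃ y ρ : ℝ, (1 - u * s + v * s ^ 2) ^ (-κ) = Real.exp y ∧ y = κ * (u * s + (u ^ 2 / 2 - v) * s ^ 2 + ρ) ∧
      |ρ| ≤ 30 * s ^ 3 := by
  obtain ⟨q, hq⟩ : ∃ q, q = u * s - v * s ^ 2 := ⟨_, rfl⟩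
  have hu' := abs_le.1 hu
  have hq1 : |q| ≤ 9 / 4 * s := by
    rw [hq]
    refine (abs_sub _ _).trans ?_
    rw [abs_mul, abs_mul, abs_of_pos hs0, abs_of_nonneg hv0, abs_of_nonneg (sq_nonneg s)]
    have h1 : |u| * s ≤ 2 * s := mul_le_mul_of_nonneg_right hu hs0.le
    have h2 : v * s ^ 2 ≤ 1 * s ^ 2 := mul_le_mul_of_nonneg_right hv1 (sq_nonneg s)
    nlinarith
  have hq2 : |q| ≤ 9 / 16 := by linarith
  have hlt : |q| < 1 := by linarith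
  have hpos : 0 < 1 - q := by linarith [le_abs_self q]
  have h3 := Real.abs_log_sub_add_sum_range_le hlt 2
  simp only [Finset.sum_range_succ, Finset.sum_range_zero] at h3
  norm_num at h3
  obtain ⟨δ, hδ⟩ : ∃ δ, δ = q + q ^ 2 / 2 + Real.log (1 - q) := ⟨_, rfl⟩
  rw [← hδ] at h3
  have hδ1 : |δ| ≤ 27 * s ^ 3 := by
    refine h3.trans ?_
    rw [div_le_iff₀ (by linarith)]
    have h4 : |q| ^ 3 ≤ (9 / 4 * s) ^ 3 := pow_le_pow_left₀ (abs_nonneg _) hq1 3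
    have h5 : 27 * s ^ 3 * (7 / 16) ≤ 27 * s ^ 3 * (1 - |q|) := by
      apply mul_le_mul_of_nonneg_left _ (by positivity)
      linarith
    nlinarith [pow_pos hs0 3]
  refine ⟨-κ * Real.log (1 - q), -Real.log (1 - q) - (u * s + (u ^ 2 / 2 - v) * s ^ 2), ?_, by ring, ?_⟩
  · have e : 1 - u * s + v * s ^ 2 = 1 - q := by rw [hq]; ring
    rw [e, Real.rpow_def_of_pos hpos]
    congr 1
    ring
  · have e : -Real.log (1 - q) - (u * s + (u ^ 2 / 2 - v) * s ^ 2) = -δ - u * v * s ^ 3 + v ^ 2 * s ^ 4 / 2 := by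
      rw [hδ, hq]
      ring
    rw [e]
    have h6 : |u * v * s ^ 3| ≤ 2 * s ^ 3 := by
      rw [abs_mul, abs_mul, abs_of_nonneg hv0, abs_of_pos (pow_pos hs0 3)]
      apply mul_le_mul_of_nonneg_right _ (pow_pos hs0 3).le
      nlinarith [abs_nonneg u]
    have h7 : |v ^ 2 * s ^ 4 / 2| ≤ s ^ 3 := by
      rw [abs_of_nonneg (by positivity)]
      have h8 : v ^ 2 ≤ 1 := by nlinarith
      have h9 : s ^ 4 = s * s ^ 3 := by ring
      have h10 : s * s ^ 3 ≤ 1 * s ^ 3 := mul_le_mul_of_nonneg_right (by linarith) (pow_pos hs0 3).le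
      have h11 : v ^ 2 * s ^ 4 ≤ 1 * s ^ 4 := mul_le_mul_of_nonneg_right h8 (by positivity)
      have h12 := pow_pos hs0 3
      linarith
    have := abs_le.1 h6
    have := abs_le.1 h7
    have := abs_le.1 hδ1
    rw [abs_le]
    constructor <;> linarith [this.1, this.2, (abs_le.1 h6).1, (abs_le.1 h6).2, (abs_le.1 h7).1, (abs_le.1 h7).2]

/-- the mean of the two signs -/
lemma mean_exp (κ : ℝ) : ∃ C : ℝ, 0 ≤ C ∧ ∀ u v s : ℝ, |u| ≤ 2 → 0 ≤ v → v ≤ 1 → 0 < s → s ≤ 1 / 2 →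
    1 / 4 ≤ 1 - u * s + v * s ^ 2 → 1 / 4 ≤ 1 + u * s + v * s ^ 2 →
    |1 / 2 * ((1 - u * s + v * s ^ 2) ^ (-κ) + (1 + u * s + v * s ^ 2) ^ (-κ)) - 1 -
      (κ * (κ + 1) * u ^ 2 / 2 - κ * v) * s ^ 2| ≤ C * s ^ 3 ∧
    (4 : ℝ) ^ (-|κ|) ≤ 1 / 2 * ((1 - u * s + v * s ^ 2) ^ (-κ) + (1 + u * s + v * s ^ 2) ^ (-κ)) ∧
    (1 - u * s + v * s ^ 2) ^ (-κ) ≤ (4 : ℝ) ^ |κ| ∧ (1 + u * s + v * s ^ 2) ^ (-κ) ≤ (4 : ℝ) ^ |κ| := by
  obtain ⟨C₁, hC₁⟩ : ∃ C₁, C₁ = 30 * |κ| + 35 * κ ^ 2 + (5 * |κ|) ^ 3 * Real.exp (5 * |κ|) := ⟨_, rfl⟩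
  obtain ⟨C₂, hC₂⟩ : ∃ C₂, C₂ = 64 * ((4 : ℝ) ^ |κ| + 1 + (2 * |κ| * (|κ| + 1) + |κ|)) := ⟨_, rfl⟩
  have hk := abs_nonneg κ
  have h1 : 0 ≤ C₁ := by rw [hC₁]; positivity
  have h2 : 0 ≤ C₂ := by rw [hC₂]; positivity
  refine ⟨C₁ + C₂, by linarith, fun u v s hu hv0 hv1 hs0 hs hp hm => ?_⟩
  have hu' := abs_le.1 hu
  have hu2 : u ^ 2 ≤ 4 := by nlinarith [sq_abs u, abs_nonneg u]
  have hs2 : s ^ 2 ≤ 1 / 4 := by nlinarith
  -- crude bounds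
  have crude : ∀ w : ℝ, 1 / 4 ≤ w → w ≤ 4 → w ^ (-κ) ≤ (4 : ℝ) ^ |κ| ∧ (4 : ℝ) ^ (-|κ|) ≤ w ^ (-κ) := by
    intro w hw1 hw2
    have hw0 : 0 < w := by linarith
    have hl : |Real.log w| ≤ Real.log 4 := by
      rw [abs_le]
      constructor
      · rw [← Real.log_inv]
        exact Real.log_le_log (by norm_num) (by norm_num; linarith)
      · exact Real.log_le_log hw0 hw2
    have h3 : |Real.log w * (-κ)| ≤ Real.log 4 * |κ| := by
      rw [abs_mul, abs_neg]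
      exact mul_le_mul_of_nonneg_right hl hk
    have h4 := abs_le.1 h3
    rw [Real.rpow_def_of_pos hw0, Real.rpow_def_of_pos (by norm_num), Real.rpow_def_of_pos (by norm_num)]
    constructor
    · exact Real.exp_le_exp.2 h4.2
    · apply Real.exp_le_exp.2
      linarith [h4.1]
  have hvs : v * s ^ 2 ≤ 1 / 4 := by nlinarith [sq_nonneg s]
  have hvs0 : 0 ≤ v * s ^ 2 := by positivity
  have hus : |u * s| ≤ 1 := by
    rw [abs_mul, abs_of_pos hs0]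
    nlinarith
  have hus' := abs_le.1 hus
  obtain ⟨p1, p2⟩ := crude _ hp (by linarith)
  obtain ⟨m1, m2⟩ := crude _ hm (by linarith)
  refine ⟨?_, by linarith, p1, m1⟩
  rcases le_or_gt s (1 / 4) with hs4 | hs4
  · obtain ⟨y, ρ, e1, e2, e3⟩ := pow_exp κ u v s hu hv0 hv1 hs0 hs4
    obtain ⟨y', ρ', e1', e2', e3'⟩ := pow_exp κ (-u) v s (by rwa [abs_neg]) hv0 hv1 hs0 hs4
    have e4 : 1 - -u * s + v * s ^ 2 = 1 + u * s + v * s ^ 2 := by ring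
    rw [e4] at e1'
    rw [e1, e1']
    have hexp : ∀ y : ℝ, |Real.exp y - (1 + y + y ^ 2 / 2)| ≤ |y| ^ 3 * Real.exp |y| := by
      intro y
      have h5 := Complex.norm_exp_sub_sum_le_norm_mul_exp (y : ℂ) 3
      have h6 : (Complex.exp (y : ℂ) - ∑ m ∈ Finset.range 3, (y : ℂ) ^ m / (m.factorial : ℂ)) =
          ((Real.exp y - (1 + y + y ^ 2 / 2) : ℝ) : ℂ) := by
        simp only [Finset.sum_range_succ, Finset.sum_range_zero, Nat.factorial]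
        push_cast
        norm_num
      rw [h6, Complex.norm_real, Complex.norm_real, Real.norm_eq_abs, Real.norm_eq_abs] at h5
      exact h5
    have hs3 := pow_pos hs0 3
    -- size of y
    have hsize : ∀ (w ρ : ℝ), |w| ≤ 2 → |ρ| ≤ 30 * s ^ 3 → |w * s + (w ^ 2 / 2 - v) * s ^ 2 + ρ| ≤ 5 * s ∧
        |(w * s + (w ^ 2 / 2 - v) * s ^ 2 + ρ) ^ 2 - w ^ 2 * s ^ 2| ≤ 70 * s ^ 3 := by
      intro w ρ hw hρ
      have hw2 : w ^ 2 ≤ 4 := by nlinarith [sq_abs w, abs_nonneg w]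
      have k1 : |(w ^ 2 / 2 - v) * s ^ 2| ≤ 2 * s ^ 2 := by
        rw [abs_mul, abs_of_nonneg (sq_nonneg s)]
        apply mul_le_mul_of_nonneg_right _ (sq_nonneg s)
        rw [abs_le]
        constructor <;> nlinarith [sq_nonneg w]
      have k2 : |w * s| ≤ 2 * s := by
        rw [abs_mul, abs_of_pos hs0]
        exact mul_le_mul_of_nonneg_right hw hs0.le
      have k3 : s ^ 3 ≤ s * (1 / 16) := by nlinarith
      have k4 : s ^ 2 ≤ s * (1 / 4) := by nlinarith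
      have k5 := abs_le.1 k1
      have k6 := abs_le.1 k2
      have k7 := abs_le.1 hρ
      constructor
      · rw [abs_le]
        constructor <;> linarith
      · obtain ⟨a, ha⟩ : ∃ a, a = (w ^ 2 / 2 - v) * s ^ 2 + ρ := ⟨_, rfl⟩
        obtain ⟨b, hb⟩ : ∃ b, b = 2 * (w * s) + a := ⟨_, rfl⟩
        have k8 : |a| ≤ 10 * s ^ 2 := by
          have : s ^ 3 = s ^ 2 * s := by ring
          have : s ^ 3 ≤ s ^ 2 * (1 / 4) := by rw [this]; exact mul_le_mul_of_nonneg_left hs4 (sq_nonneg s)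
          rw [ha, abs_le]
          constructor <;> linarith
        have k8' := abs_le.1 k8
        have k9 : |b| ≤ 7 * s := by
          rw [hb, abs_le]
          constructor <;> linarith
        have e5 : (w * s + (w ^ 2 / 2 - v) * s ^ 2 + ρ) ^ 2 - w ^ 2 * s ^ 2 = a * b := by rw [hb, ha]; ring
        rw [e5, abs_mul]
        calc |a| * |b| ≤ (10 * s ^ 2) * (7 * s) := mul_le_mul k8 k9 (abs_nonneg _) (by positivity)
          _ = 70 * s ^ 3 := by ring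
    obtain ⟨s1, s2⟩ := hsize u ρ hu e3
    obtain ⟨s1', s2'⟩ := hsize (-u) ρ' (by rwa [abs_neg]) e3'
    have hy : ∀ y w : ℝ, y = κ * w → |w| ≤ 5 * s → |y| ^ 3 * Real.exp |y| ≤ (5 * |κ|) ^ 3 * Real.exp (5 * |κ|) * s ^ 3 := by
      intro y w h3 h4
      have h5 : |y| ≤ 5 * |κ| * s := by
        rw [h3, abs_mul]
        nlinarith
      have h6 : |y| ≤ 5 * |κ| := by nlinarith
      calc |y| ^ 3 * Real.exp |y| ≤ (5 * |κ| * s) ^ 3 * Real.exp (5 * |κ|) := by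
            apply mul_le_mul (pow_le_pow_left₀ (abs_nonneg _) h5 3) (Real.exp_le_exp.2 h6) (Real.exp_pos _).le (by positivity)
        _ = _ := by ring
    have t1 := (hexp y).trans (hy y _ e2 s1)
    have t2 := (hexp y').trans (hy y' _ e2' s1')
    have r1 : |κ * ρ| ≤ 30 * |κ| * s ^ 3 := by
      rw [abs_mul]
      nlinarith
    have r2 : |κ * ρ'| ≤ 30 * |κ| * s ^ 3 := by
      rw [abs_mul]
      nlinarith
    have r3 : |κ ^ 2 * ((u * s + (u ^ 2 / 2 - v) * s ^ 2 + ρ) ^ 2 - u ^ 2 * s ^ 2)| ≤ κ ^ 2 * (70 * s ^ 3) := by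
      rw [abs_mul, abs_of_nonneg (sq_nonneg κ)]
      exact mul_le_mul_of_nonneg_left s2 (sq_nonneg κ)
    have r4 : |κ ^ 2 * ((-u * s + ((-u) ^ 2 / 2 - v) * s ^ 2 + ρ') ^ 2 - (-u) ^ 2 * s ^ 2)| ≤ κ ^ 2 * (70 * s ^ 3) := by
      rw [abs_mul, abs_of_nonneg (sq_nonneg κ)]
      exact mul_le_mul_of_nonneg_left s2' (sq_nonneg κ)
    have hfin : 1 / 2 * (Real.exp y + Real.exp y') - 1 - (κ * (κ + 1) * u ^ 2 / 2 - κ * v) * s ^ 2 =
        1 / 2 * (Real.exp y - (1 + y + y ^ 2 / 2)) + 1 / 2 * (Real.exp y' - (1 + y' + y' ^ 2 / 2)) +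
        1 / 2 * (κ * ρ) + 1 / 2 * (κ * ρ') +
        1 / 4 * (κ ^ 2 * ((u * s + (u ^ 2 / 2 - v) * s ^ 2 + ρ) ^ 2 - u ^ 2 * s ^ 2)) +
        1 / 4 * (κ ^ 2 * ((-u * s + ((-u) ^ 2 / 2 - v) * s ^ 2 + ρ') ^ 2 - (-u) ^ 2 * s ^ 2)) := by
      rw [show y ^ 2 = κ ^ 2 * (u * s + (u ^ 2 / 2 - v) * s ^ 2 + ρ) ^ 2 by rw [e2]; ring,
        show y' ^ 2 = κ ^ 2 * (-u * s + ((-u) ^ 2 / 2 - v) * s ^ 2 + ρ') ^ 2 by rw [e2']; ring]
      have e6 : y + y' = κ * (u ^ 2 - 2 * v) * s ^ 2 + κ * ρ + κ * ρ' := by rw [e2, e2']; ring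
      linear_combination (1 / 2 : ℝ) * e6
    rw [hfin]
    have w1 := abs_le.1 t1
    have w2 := abs_le.1 t2
    have w3 := abs_le.1 r1
    have w4 := abs_le.1 r2
    have w5 := abs_le.1 r3
    have w6 := abs_le.1 r4
    have hC : C₁ * s ^ 3 = 30 * |κ| * s ^ 3 + 35 * κ ^ 2 * s ^ 3 + (5 * |κ|) ^ 3 * Real.exp (5 * |κ|) * s ^ 3 := by
      rw [hC₁]
      ring
    have hC2 : 0 ≤ C₂ * s ^ 3 := by positivity
    rw [add_mul, hC, abs_le]
    constructor <;> linarith [w1.1, w1.2, w2.1, w2.2, w3.1, w3.2, w4.1, w4.2, w5.1, w5.2, w6.1, w6.2]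
  · have h64 : 1 ≤ 64 * s ^ 3 := by
      have h5 : (1 / 4 : ℝ) ^ 3 ≤ s ^ 3 := pow_le_pow_left₀ (by norm_num) hs4.le 3
      norm_num at h5
      linarith
    have h6 : |(κ * (κ + 1) * u ^ 2 / 2 - κ * v) * s ^ 2| ≤ 2 * |κ| * (|κ| + 1) + |κ| := by
      rw [abs_mul, abs_of_nonneg (sq_nonneg s)]
      have h7 : |κ * (κ + 1) * u ^ 2 / 2 - κ * v| ≤ 2 * |κ| * (|κ| + 1) + |κ| := by
        refine (abs_sub _ _).trans ?_
        rw [abs_div, abs_mul, abs_mul, abs_mul, abs_of_nonneg (sq_nonneg u), abs_of_nonneg hv0]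
        have h8 : |κ + 1| ≤ |κ| + 1 := (abs_add_le _ _).trans (by norm_num)
        have h9 : |κ| * |κ + 1| * u ^ 2 ≤ |κ| * (|κ| + 1) * 4 := by
          apply mul_le_mul _ hu2 (sq_nonneg u) (by positivity)
          exact mul_le_mul_of_nonneg_left h8 hk
        have h10 : |κ| * v ≤ |κ| := by nlinarith
        rw [abs_of_pos (show (0 : ℝ) < 2 by norm_num)]
        linarith
      have h8 : 0 ≤ 2 * |κ| * (|κ| + 1) + |κ| := by positivity
      nlinarith [sq_nonneg s]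
    have h7 : C₂ * s ^ 3 = ((4 : ℝ) ^ |κ| + 1 + (2 * |κ| * (|κ| + 1) + |κ|)) * (64 * s ^ 3) := by rw [hC₂]; ring
    have h8 : 0 ≤ (4 : ℝ) ^ |κ| + 1 + (2 * |κ| * (|κ| + 1) + |κ|) := by positivity
    have h9 : (4 : ℝ) ^ |κ| + 1 + (2 * |κ| * (|κ| + 1) + |κ|) ≤ C₂ * s ^ 3 := by
      rw [h7]
      nlinarith
    have h10 : 0 ≤ C₁ * s ^ 3 := by positivity
    have h11 := abs_le.1 h6
    have h12 : (0 : ℝ) < 4 ^ (-|κ|) := Real.rpow_pos_of_pos (by norm_num) _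
    rw [add_mul, abs_le]
    constructor <;> linarith [h11.1, h11.2]

/-- from the mean to its logarithm -/
lemma log_near {M m₀ θ s C : ℝ} (hm₀ : 0 < m₀) (hM : m₀ ≤ M) (hs0 : 0 < s) (hs1 : s ≤ 1) (hC : 0 ≤ C)
    (h : |M - 1 - θ * s ^ 2| ≤ C * s ^ 3) : |Real.log M - θ * s ^ 2| ≤ (C + (|θ| + C) ^ 2 / m₀) * s ^ 3 := by
  have hM0 : 0 < M := by linarith
  have h1 : |M - 1| ≤ (|θ| + C) * s ^ 2 := by
    have h2 : |θ * s ^ 2| = |θ| * s ^ 2 := by rw [abs_mul, abs_of_nonneg (sq_nonneg s)]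
    have h3 : C * s ^ 3 ≤ C * s ^ 2 := by
      apply mul_le_mul_of_nonneg_left _ hC
      nlinarith [sq_nonneg s]
    have h4 := abs_le.1 h
    have h5 := abs_le.1 h2.le
    rw [abs_le]
    constructor <;> nlinarith [h4.1, h4.2, h5.1, h5.2]
  have h2 : (M - 1) ^ 2 ≤ (|θ| + C) ^ 2 * s ^ 3 := by
    rw [← sq_abs]
    calc |M - 1| ^ 2 ≤ ((|θ| + C) * s ^ 2) ^ 2 := pow_le_pow_left₀ (abs_nonneg _) h1 2
      _ = (|θ| + C) ^ 2 * (s ^ 3 * s) := by ring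
      _ ≤ (|θ| + C) ^ 2 * (s ^ 3 * 1) := by
          apply mul_le_mul_of_nonneg_left _ (sq_nonneg _)
          exact mul_le_mul_of_nonneg_left hs1 (by positivity)
      _ = _ := by ring
  have h3 : |Real.log M - (M - 1)| ≤ (|θ| + C) ^ 2 / m₀ * s ^ 3 := by
    have h4 := Real.log_le_sub_one_of_pos hM0
    have h5 := Real.one_sub_inv_le_log_of_pos hM0
    have h6 : (M - 1) ^ 2 / M ≤ (M - 1) ^ 2 / m₀ := div_le_div_of_nonneg_left (sq_nonneg _) hm₀ hM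
    have h7 : (M - 1) ^ 2 / m₀ ≤ (|θ| + C) ^ 2 / m₀ * s ^ 3 := by
      rw [div_mul_eq_mul_div]
      exact div_le_div_of_nonneg_right h2 hm₀.le
    have h8 : (1 - M⁻¹) - (M - 1) = -((M - 1) ^ 2 / M) := by
      field_simp
      ring
    rw [abs_le]
    constructor
    · linarith
    · have : 0 ≤ (|θ| + C) ^ 2 / m₀ * s ^ 3 := by positivity
      linarith
  have e : Real.log M - θ * s ^ 2 = (Real.log M - (M - 1)) + (M - 1 - θ * s ^ 2) := by ring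
  rw [e]
  refine (abs_add_le _ _).trans ?_
  rw [add_mul]
  linarith

end Pool.Agent.Q235.FE
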