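import Pool.Agent.Q28.BP.Count
import Pool.Agent.Q235.FE.Loc

/-! The local mean of the powers of `N_p / p` over all the curves modulo `p`. -/

set_option autoImplicit false

namespace Pool.Agent.Q235.FE

open Finset
open Pool.Agent.Q28.BP (lg nuf nu cs PA lg_abs lg_nuf nuf_eq hh cs_sq PA_bound PA_zero cs_singular good_iff count_eq
  nu_curve sum_range_zmod rpow32)
open Pool.Agent.W263.BSD (pointCount GoodPrime)

lemma exp_three (y : ℝ) : |Real.exp y - (1 + y + y ^ 2 / 2)| ≤ |y| ^ 3 * Real.exp |y| := by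
  have h5 := Complex.norm_exp_sub_sum_le_norm_mul_exp (y : ℂ) 3
  have h6 : (Complex.exp (y : ℂ) - ∑ m ∈ Finset.range 3, (y : ℂ) ^ m / (m.factorial : ℂ)) =
      ((Real.exp y - (1 + y + y ^ 2 / 2) : ℝ) : ℂ) := by
    simp only [Finset.sum_range_succ, Finset.sum_range_zero, Nat.factorial]
    push_cast
    norm_num
  rw [h6, Complex.norm_real, Complex.norm_real, Real.norm_eq_abs, Real.norm_eq_abs] at h5
  exact h5

/-- the character sum is at most `2 √p` -/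
lemma cs_le {p : ℕ} [Fact p.Prime] (h5 : 5 ≤ p) (a b : ℤ) : |cs (a : ZMod p) (b : ZMod p)| ≤ 2 * Real.sqrt p := by
  have hp1 : (1 : ℝ) ≤ p := by exact_mod_cast (Fact.out : p.Prime).one_lt.le
  by_cases h : 4 * (a : ZMod p) ^ 3 + 27 * (b : ZMod p) ^ 2 = 0
  · have h1 := cs_singular (by omega) (by omega) h
    have h2 : 1 ≤ Real.sqrt p := by rwa [Real.one_le_sqrt]
    linarith
  · have hg : GoodPrime a b p := (good_iff (by omega)).2 h
    have h1 := Pool.Agent.W263.BSD.hasse hg h5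
    rw [count_eq (by omega)] at h1
    have e : (p : ℝ) - (p + cs (a : ZMod p) (b : ZMod p)) = -cs (a : ZMod p) (b : ZMod p) := by ring
    rwa [e, abs_neg] at h1

/-- the square of the logarithm -/
lemma lg_sq {p : ℕ} [Fact p.Prime] (h5 : 5 ≤ p) (a b : ℤ) :
    |lg a b p ^ 2 - cs (a : ZMod p) (b : ZMod p) ^ 2 * (1 / Real.sqrt p) ^ 4| ≤ 2300000 * (1 / Real.sqrt p) ^ 3 := by
  classical
  have hp : p.Prime := Fact.out
  have hp0 : (0 : ℝ) < p := by exact_mod_cast hp.pos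
  have hp1 : (1 : ℝ) ≤ p := by exact_mod_cast hp.one_lt.le
  have hs1 : 1 ≤ Real.sqrt p := by rwa [Real.one_le_sqrt]
  have hss : Real.sqrt p ^ 2 = p := Real.sq_sqrt hp0.le
  obtain ⟨s, hs⟩ : ∃ s, s = 1 / Real.sqrt p := ⟨_, rfl⟩
  have hs0 : 0 < s := by rw [hs]; positivity
  have hsl : s ≤ 1 := by rw [hs]; exact (div_le_one (by linarith)).2 hs1
  have hps : (p : ℝ) * s ^ 2 = 1 := by
    rw [hs, div_pow, hss]
    field_simp
  have hpinv : 1 / (p : ℝ) = s ^ 2 := by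
    rw [eq_comm, eq_div_iff hp0.ne']
    linarith
  rw [← hs]
  obtain ⟨c, hc⟩ : ∃ c, c = cs (a : ZMod p) (b : ZMod p) := ⟨_, rfl⟩
  have hcs := cs_le h5 a b
  rw [← hc] at hcs ⊢
  have hsq : Real.sqrt p * s = 1 := by rw [hs]; field_simp
  have hcs' : |c| * s ≤ 2 := by
    calc |c| * s ≤ 2 * Real.sqrt p * s := mul_le_mul_of_nonneg_right hcs hs0.le
      _ = 2 := by rw [mul_assoc, hsq, mul_one]
  by_cases h : 4 * (a : ZMod p) ^ 3 + 27 * (b : ZMod p) ^ 2 = 0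
  · have hg : ¬ GoodPrime a b p := fun hg => (good_iff (by omega)).1 hg h
    have h1 := cs_singular (by omega) (by omega) h
    rw [← hc] at h1
    have e : lg a b p = 0 := by unfold lg; rw [if_neg hg]
    rw [e]
    have h2 : c ^ 2 ≤ 1 := by rw [← sq_abs]; nlinarith [abs_nonneg c]
    have h3 : (0 : ℝ) ^ 2 - c ^ 2 * s ^ 4 = -(c ^ 2 * s ^ 4) := by ring
    rw [h3, abs_neg, abs_of_nonneg (by positivity)]
    have h4 : s ^ 4 ≤ s ^ 3 := by
      calc s ^ 4 = s * s ^ 3 := by ring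
        _ ≤ 1 * s ^ 3 := mul_le_mul_of_nonneg_right hsl (by positivity)
        _ = s ^ 3 := one_mul _
    have h5' : 0 ≤ s ^ 3 := by positivity
    have h6 : c ^ 2 * s ^ 4 ≤ 1 * s ^ 4 := mul_le_mul_of_nonneg_right h2 (by positivity)
    linarith
  · have h1 := lg_abs a b hp
    have e1 : (20 : ℝ) / Real.sqrt p = 20 * s := by rw [hs]; ring
    rw [e1] at h1
    have h2 := lg_nuf a b hp
    rw [rpow32 hp.pos] at h2
    have e2 : 1 / ((p : ℝ) * Real.sqrt p) = s ^ 3 := by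
      have : s ^ 3 = s ^ 2 * s := by ring
      rw [this, ← hpinv, hs]
      field_simp
    rw [e2] at h2
    have h3 : nuf a b p = hh p a b := by rw [nuf_eq (by omega), if_neg h]
    rw [h3] at h2
    have e3 : hh p (a : ZMod p) (b : ZMod p) = (1 + c) * s ^ 2 - c ^ 2 * s ^ 4 / 2 := by
      unfold hh
      rw [← hc]
      have : s ^ 4 = (1 / (p : ℝ)) ^ 2 := by rw [hpinv]; ring
      rw [this, ← hpinv]
      field_simp
    rw [e3] at h2
    obtain ⟨l, hl⟩ : ∃ l, l = lg a b p := ⟨_, rfl⟩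
    rw [← hl] at h1 h2 ⊢
    have h4 : c ^ 2 * s ^ 2 ≤ 4 := by
      have : c ^ 2 * s ^ 2 = (|c| * s) ^ 2 := by rw [mul_pow, sq_abs]
      rw [this]
      have : 0 ≤ |c| * s := by positivity
      nlinarith
    have h4' : 0 ≤ c ^ 2 * s ^ 2 := by positivity
    have h5' : |l - c * s ^ 2| ≤ 100003 * s ^ 2 := by
      have e4 : l - c * s ^ 2 = (l - ((1 + c) * s ^ 2 - c ^ 2 * s ^ 4 / 2)) + (s ^ 2 - (c ^ 2 * s ^ 2) * s ^ 2 / 2) := by ring
      rw [e4]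
      refine (abs_add_le _ _).trans ?_
      have k1 : |s ^ 2 - (c ^ 2 * s ^ 2) * s ^ 2 / 2| ≤ 3 * s ^ 2 := by
        rw [abs_le]
        constructor <;> nlinarith [sq_nonneg s]
      have k2 : s ^ 3 ≤ s ^ 2 := by
        calc s ^ 3 = s * s ^ 2 := by ring
          _ ≤ 1 * s ^ 2 := mul_le_mul_of_nonneg_right hsl (by positivity)
          _ = s ^ 2 := one_mul _
      linarith
    have h6 : |l + c * s ^ 2| ≤ 22 * s := by
      refine (abs_add_le _ _).trans ?_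
      have k1 : |c * s ^ 2| ≤ 2 * s := by
        rw [abs_mul, abs_of_nonneg (sq_nonneg s)]
        calc |c| * s ^ 2 = (|c| * s) * s := by ring
          _ ≤ 2 * s := mul_le_mul_of_nonneg_right hcs' hs0.le
      linarith
    have e5 : l ^ 2 - c ^ 2 * s ^ 4 = (l - c * s ^ 2) * (l + c * s ^ 2) := by ring
    rw [e5, abs_mul]
    calc |l - c * s ^ 2| * |l + c * s ^ 2| ≤ (100003 * s ^ 2) * (22 * s) := mul_le_mul h5' h6 (abs_nonneg _) (by positivity)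
      _ = 2200066 * s ^ 3 := by ring
      _ ≤ 2300000 * s ^ 3 := by
          apply mul_le_mul_of_nonneg_right (by norm_num) (by positivity)

/-- the local mean -/
noncomputable def locMean (κ : ℝ) (p : ℕ) : ℝ :=
  (∑ i ∈ range p, ∑ j ∈ range p, Real.exp (κ * lg (i : ℤ) (j : ℤ) p)) / (p : ℝ) ^ 2

lemma sum_nuf {p : ℕ} (hp : p.Prime) (h5 : 5 ≤ p) :
    |(∑ i ∈ range p, ∑ j ∈ range p, nuf (i : ℤ) (j : ℤ) p) / (p : ℝ) ^ 2 - 1 / 2 * (1 / Real.sqrt p) ^ 2| ≤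
      8 * (1 / Real.sqrt p) ^ 4 := by
  classical
  have hp0 : (0 : ℝ) < p := by exact_mod_cast hp.pos
  have hss : Real.sqrt p ^ 2 = p := Real.sq_sqrt hp0.le
  have e1 : (1 / Real.sqrt p) ^ 2 = 1 / (p : ℝ) := by rw [div_pow, hss, one_pow]
  have e2 : (1 / Real.sqrt p) ^ 4 = 1 / (p : ℝ) ^ 2 := by
    rw [show (1 / Real.sqrt p) ^ 4 = ((1 / Real.sqrt p) ^ 2) ^ 2 by ring, e1]
    ring
  rw [e1, e2]
  have h1 : ∀ i : ℕ, |(∑ j ∈ range p, nuf (i : ℤ) (j : ℤ) p) / p - 1 / (2 * p)| ≤ 7 / (p : ℝ) ^ 2 +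
      (if (p : ℤ) ∣ (i : ℤ) then 1 / (p : ℝ) else 0) := by
    intro i
    have h := nu_curve (i : ℤ) hp h5 Polynomial.X (Or.inl rfl)
    unfold nu at h
    simp only [Polynomial.eval_C, Polynomial.eval_X] at h
    exact h
  have h2 : (∑ i ∈ range p, ∑ j ∈ range p, nuf (i : ℤ) (j : ℤ) p) / (p : ℝ) ^ 2 - 1 / 2 * (1 / (p : ℝ)) =
      (∑ i ∈ range p, ((∑ j ∈ range p, nuf (i : ℤ) (j : ℤ) p) / p - 1 / (2 * p))) / p := by
    rw [sum_sub_distrib, sum_const, card_range, nsmul_eq_mul, ← sum_div]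
    field_simp
  rw [h2, abs_div, abs_of_pos hp0, div_le_iff₀ hp0]
  refine (abs_sum_le_sum_abs _ _).trans ((sum_le_sum fun i _ => h1 i).trans ?_)
  rw [sum_add_distrib, sum_const, card_range, nsmul_eq_mul]
  have h3 : ∑ i ∈ range p, (if (p : ℤ) ∣ (i : ℤ) then 1 / (p : ℝ) else 0) = 1 / (p : ℝ) := by
    rw [sum_eq_single 0]
    · simp
    · intro i hi h0
      rw [if_neg]
      intro h
      have h4 : p ∣ i := by exact_mod_cast h
      have := Nat.le_of_dvd (by omega) h4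
      have := mem_range.1 hi
      omega
    · intro h
      exact absurd (mem_range.2 hp.pos) h
  rw [h3]
  have e3 : (p : ℝ) * (7 / (p : ℝ) ^ 2) + 1 / (p : ℝ) = 8 * (1 / (p : ℝ) ^ 2) * p := by
    field_simp
    norm_num
  exact e3.le

lemma sum_cs {p : ℕ} [Fact p.Prime] (h5 : 5 ≤ p) :
    |(∑ i ∈ range p, ∑ j ∈ range p, cs ((i : ℤ) : ZMod p) ((j : ℤ) : ZMod p) ^ 2 * (1 / Real.sqrt p) ^ 4) / (p : ℝ) ^ 2 -
      (1 / Real.sqrt p) ^ 2| ≤ 6 * (1 / Real.sqrt p) ^ 4 := by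
  classical
  have hp : p.Prime := Fact.out
  have hp0 : (0 : ℝ) < p := by exact_mod_cast hp.pos
  have hss : Real.sqrt p ^ 2 = p := Real.sq_sqrt hp0.le
  have e1 : (1 / Real.sqrt p) ^ 2 = 1 / (p : ℝ) := by rw [div_pow, hss, one_pow]
  have e2 : (1 / Real.sqrt p) ^ 4 = 1 / (p : ℝ) ^ 2 := by
    rw [show (1 / Real.sqrt p) ^ 4 = ((1 / Real.sqrt p) ^ 2) ^ 2 by ring, e1]
    ring
  rw [e1, e2]
  have h1 : ∑ i ∈ range p, ∑ j ∈ range p, cs ((i : ℤ) : ZMod p) ((j : ℤ) : ZMod p) ^ 2 * (1 / (p : ℝ) ^ 2) =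
      (∑ A : ZMod p, (p * PA A - (p : ℝ) ^ 2)) * (1 / (p : ℝ) ^ 2) := by
    rw [sum_mul, ← sum_range_zmod (fun A : ZMod p => (p * PA A - (p : ℝ) ^ 2) * (1 / (p : ℝ) ^ 2))]
    refine sum_congr rfl fun i _ => ?_
    rw [← cs_sq (by omega) ((i : ℕ) : ZMod p), sum_mul, ← sum_range_zmod]
    refine sum_congr rfl fun j _ => ?_
    push_cast
    rfl
  rw [h1]
  have h2 : |∑ A : ZMod p, (p * PA A - (p : ℝ) ^ 2) - (p : ℝ) ^ 3| ≤ 6 * (p : ℝ) ^ 2 := by
    have e3 : ∑ A : ZMod p, (p * PA A - (p : ℝ) ^ 2) - (p : ℝ) ^ 3 = ∑ A : ZMod p, p * (PA A - 2 * p) := by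
      have : (p : ℝ) ^ 3 = ∑ A : ZMod p, (p : ℝ) ^ 2 := by
        rw [sum_const, card_univ, ZMod.card, nsmul_eq_mul]
        ring
      rw [this, ← sum_sub_distrib]
      exact sum_congr rfl fun A _ => by ring
    rw [e3]
    have h3 : ∀ A : ZMod p, |p * (PA A - 2 * p)| ≤ 3 * p + (if A = 0 then 3 * (p : ℝ) ^ 2 else 0) := by
      intro A
      rw [abs_mul, abs_of_pos hp0]
      by_cases hA : A = 0
      · rw [if_pos hA, hA]
        have h4 := PA_zero (p := p)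
        have h5' : 0 ≤ PA (0 : ZMod p) := by unfold PA; exact Nat.cast_nonneg _
        have h6 : |PA (0 : ZMod p) - 2 * p| ≤ 2 * p := by
          rw [abs_le]
          constructor <;> linarith
        nlinarith
      · rw [if_neg hA, add_zero]
        have h4 := PA_bound (p := p) (by omega) (by omega) hA
        nlinarith
    refine (abs_sum_le_sum_abs _ _).trans ((sum_le_sum fun A _ => h3 A).trans (le_of_eq ?_))
    rw [sum_add_distrib, sum_const, card_univ, ZMod.card, nsmul_eq_mul, sum_ite_eq' univ (0 : ZMod p), if_pos (mem_univ _)]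
    ring
  have e4 : (∑ A : ZMod p, (p * PA A - (p : ℝ) ^ 2)) * (1 / (p : ℝ) ^ 2) / (p : ℝ) ^ 2 - 1 / (p : ℝ) =
      (∑ A : ZMod p, (p * PA A - (p : ℝ) ^ 2) - (p : ℝ) ^ 3) / (p : ℝ) ^ 4 := by
    field_simp
  rw [e4, abs_div, abs_of_pos (by positivity : (0 : ℝ) < (p : ℝ) ^ 4), div_le_iff₀ (by positivity)]
  refine h2.trans (le_of_eq ?_)
  field_simp

/-- the local mean to the second order -/
theorem locMean_near (κ : ℝ) : ∃ C : ℝ, 0 ≤ C ∧ ∀ p : ℕ, p.Prime →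
    |locMean κ p - 1 - κ * (κ + 1) / 2 * (1 / Real.sqrt p) ^ 2| ≤ C * (1 / Real.sqrt p) ^ 3 ∧
    Real.exp (-(20 * |κ|)) ≤ locMean κ p ∧ locMean κ p ≤ Real.exp (20 * |κ|) := by
  classical
  have hk := abs_nonneg κ
  obtain ⟨C₁, hC₁⟩ : ∃ C₁, C₁ = (20 * |κ|) ^ 3 * Real.exp (20 * |κ|) + |κ| * 100008 + κ ^ 2 * 2300006 := ⟨_, rfl⟩
  obtain ⟨C₂, hC₂⟩ : ∃ C₂, C₂ = 8 * (Real.exp (20 * |κ|) + 1 + |κ * (κ + 1) / 2|) := ⟨_, rfl⟩
  have h1 : 0 ≤ C₁ := by rw [hC₁]; positivity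
  have h2 : 0 ≤ C₂ := by rw [hC₂]; positivity
  refine ⟨C₁ + C₂, by linarith, fun p hp => ?_⟩
  have hp0 : (0 : ℝ) < p := by exact_mod_cast hp.pos
  have hp1 : (1 : ℝ) ≤ p := by exact_mod_cast hp.one_lt.le
  have hs1 : 1 ≤ Real.sqrt p := by rwa [Real.one_le_sqrt]
  have hss : Real.sqrt p ^ 2 = p := Real.sq_sqrt hp0.le
  obtain ⟨s, hs⟩ : ∃ s, s = 1 / Real.sqrt p := ⟨_, rfl⟩
  have hs0 : 0 < s := by rw [hs]; positivity
  have hsl : s ≤ 1 := by rw [hs]; exact (div_le_one (by linarith)).2 hs1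
  have hlg : ∀ a b : ℤ, |lg a b p| ≤ 20 * s := by
    intro a b
    have h := lg_abs a b hp
    have e1 : (20 : ℝ) / Real.sqrt p = 20 * s := by rw [hs]; ring
    rwa [e1] at h
  rw [← hs]
  have hcr : ∀ a b : ℤ, |κ * lg a b p| ≤ 20 * |κ| * s ∧ |κ * lg a b p| ≤ 20 * |κ| := by
    intro a b
    have h3 : |κ * lg a b p| ≤ 20 * |κ| * s := by
      rw [abs_mul]
      nlinarith [hlg a b]
    refine ⟨h3, h3.trans ?_⟩
    nlinarith
  have hcard : ∑ i ∈ range p, ∑ j ∈ range p, (1 : ℝ) = (p : ℝ) ^ 2 := by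
    rw [sum_const, sum_const, card_range, nsmul_eq_mul, nsmul_eq_mul]
    ring
  have hlo : Real.exp (-(20 * |κ|)) ≤ locMean κ p := by
    unfold locMean
    rw [le_div_iff₀ (by positivity), ← hcard, mul_sum]
    refine sum_le_sum fun i _ => ?_
    rw [mul_sum]
    refine sum_le_sum fun j _ => ?_
    rw [mul_one]
    apply Real.exp_le_exp.2
    exact (abs_le.1 (hcr _ _).2).1
  have hhi : locMean κ p ≤ Real.exp (20 * |κ|) := by
    unfold locMean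
    rw [div_le_iff₀ (by positivity), ← hcard, mul_sum]
    refine sum_le_sum fun i _ => ?_
    rw [mul_sum]
    refine sum_le_sum fun j _ => ?_
    rw [mul_one]
    apply Real.exp_le_exp.2
    exact (abs_le.1 (hcr _ _).2).2
  refine ⟨?_, hlo, hhi⟩
  rcases Nat.lt_or_ge p 5 with h5 | h5
  · have hs2 : 1 / 2 ≤ s := by
      rw [hs]
      apply one_div_le_one_div_of_le (by linarith)
      rw [show (2 : ℝ) = Real.sqrt 4 by rw [show (4 : ℝ) = 2 ^ 2 by norm_num, Real.sqrt_sq (by norm_num)]]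
      exact Real.sqrt_le_sqrt (by exact_mod_cast (by omega : p ≤ 4))
    have h8 : 1 ≤ 8 * s ^ 3 := by
      have := pow_le_pow_left₀ (by norm_num) hs2 3
      norm_num at this
      linarith
    have h9 : |κ * (κ + 1) / 2 * s ^ 2| ≤ |κ * (κ + 1) / 2| := by
      rw [abs_mul, abs_of_nonneg (sq_nonneg s)]
      have : s ^ 2 ≤ 1 := by nlinarith
      exact mul_le_of_le_one_right (abs_nonneg _) this
    have h10 : |locMean κ p - 1 - κ * (κ + 1) / 2 * s ^ 2| ≤ Real.exp (20 * |κ|) + 1 + |κ * (κ + 1) / 2| := by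
      have hx := Real.exp_pos (-(20 * |κ|))
      have := abs_le.1 h9
      rw [abs_le]
      constructor <;> linarith [this.1, this.2]
    refine h10.trans ?_
    have h11 : 0 ≤ Real.exp (20 * |κ|) + 1 + |κ * (κ + 1) / 2| := by positivity
    have h12 : C₂ * s ^ 3 = (Real.exp (20 * |κ|) + 1 + |κ * (κ + 1) / 2|) * (8 * s ^ 3) := by rw [hC₂]; ring
    have h13 : 0 ≤ C₁ * s ^ 3 := by positivity
    rw [add_mul, h12]
    nlinarith
  · have : Fact p.Prime := ⟨hp⟩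
    have hn := sum_nuf hp h5
    have hc := sum_cs (p := p) h5
    rw [← hs] at hn hc
    -- the expansion
    have hterm : ∀ i j : ℕ, |Real.exp (κ * lg (i : ℤ) (j : ℤ) p) - (1 + κ * nuf (i : ℤ) (j : ℤ) p +
        κ ^ 2 / 2 * (cs ((i : ℤ) : ZMod p) ((j : ℤ) : ZMod p) ^ 2 * s ^ 4))| ≤
        ((20 * |κ|) ^ 3 * Real.exp (20 * |κ|) + |κ| * 100000 + κ ^ 2 * 1150000) * s ^ 3 := by
      intro i j
      have t1 := exp_three (κ * lg (i : ℤ) (j : ℤ) p)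
      have t2 : |κ * lg (i : ℤ) (j : ℤ) p| ^ 3 * Real.exp |κ * lg (i : ℤ) (j : ℤ) p| ≤
          (20 * |κ|) ^ 3 * Real.exp (20 * |κ|) * s ^ 3 := by
        calc _ ≤ (20 * |κ| * s) ^ 3 * Real.exp (20 * |κ|) :=
              mul_le_mul (pow_le_pow_left₀ (abs_nonneg _) (hcr _ _).1 3) (Real.exp_le_exp.2 (hcr _ _).2) (Real.exp_pos _).le
                (by positivity)
          _ = _ := by ring
      have t3 := lg_nuf (i : ℤ) (j : ℤ) hp
      rw [rpow32 hp.pos] at t3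
      have e2 : 1 / ((p : ℝ) * Real.sqrt p) = s ^ 3 := by
        rw [hs, div_pow, one_pow, show Real.sqrt p ^ 3 = Real.sqrt p ^ 2 * Real.sqrt p by ring, hss]
      rw [e2] at t3
      have t4 := lg_sq (p := p) h5 (i : ℤ) (j : ℤ)
      rw [← hs] at t4
      obtain ⟨l, hl⟩ : ∃ l, l = lg (i : ℤ) (j : ℤ) p := ⟨_, rfl⟩
      obtain ⟨n, hn'⟩ : ∃ n, n = nuf (i : ℤ) (j : ℤ) p := ⟨_, rfl⟩
      obtain ⟨c, hc'⟩ : ∃ c, c = cs ((i : ℤ) : ZMod p) ((j : ℤ) : ZMod p) ^ 2 * s ^ 4 := ⟨_, rfl⟩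
      rw [← hl] at t1 t2 t3 t4 ⊢
      rw [← hn'] at t3 ⊢
      rw [← hc'] at t4 ⊢
      have e3 : Real.exp (κ * l) - (1 + κ * n + κ ^ 2 / 2 * c) =
          (Real.exp (κ * l) - (1 + κ * l + (κ * l) ^ 2 / 2)) + κ * (l - n) + κ ^ 2 / 2 * (l ^ 2 - c) := by ring
      rw [e3]
      have t5 : |κ * (l - n)| ≤ |κ| * (100000 * s ^ 3) := by
        rw [abs_mul]
        exact mul_le_mul_of_nonneg_left t3 hk
      have t6 : |κ ^ 2 / 2 * (l ^ 2 - c)| ≤ κ ^ 2 / 2 * (2300000 * s ^ 3) := by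
        rw [abs_mul, abs_of_nonneg (by positivity : 0 ≤ κ ^ 2 / 2)]
        exact mul_le_mul_of_nonneg_left t4 (by positivity)
      calc _ ≤ |Real.exp (κ * l) - (1 + κ * l + (κ * l) ^ 2 / 2)| + |κ * (l - n)| + |κ ^ 2 / 2 * (l ^ 2 - c)| :=
            (abs_add_le _ _).trans (add_le_add_left (abs_add_le _ _) _)
        _ ≤ (20 * |κ|) ^ 3 * Real.exp (20 * |κ|) * s ^ 3 + |κ| * (100000 * s ^ 3) + κ ^ 2 / 2 * (2300000 * s ^ 3) :=
            add_le_add (add_le_add (t1.trans t2) t5) t6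
        _ = _ := by ring
    obtain ⟨SN, hSN⟩ : ∃ SN, SN = (∑ i ∈ range p, ∑ j ∈ range p, nuf (i : ℤ) (j : ℤ) p) / (p : ℝ) ^ 2 := ⟨_, rfl⟩
    obtain ⟨SC, hSC⟩ : ∃ SC, SC = (∑ i ∈ range p, ∑ j ∈ range p, cs ((i : ℤ) : ZMod p) ((j : ℤ) : ZMod p) ^ 2 * s ^ 4) /
      (p : ℝ) ^ 2 := ⟨_, rfl⟩
    rw [← hSN] at hn
    rw [← hSC] at hc
    have hmain : |locMean κ p - (1 + κ * SN + κ ^ 2 / 2 * SC)| ≤
        ((20 * |κ|) ^ 3 * Real.exp (20 * |κ|) + |κ| * 100000 + κ ^ 2 * 1150000) * s ^ 3 := by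
      have e4 : locMean κ p - (1 + κ * SN + κ ^ 2 / 2 * SC) = (∑ i ∈ range p, ∑ j ∈ range p,
          (Real.exp (κ * lg (i : ℤ) (j : ℤ) p) - (1 + κ * nuf (i : ℤ) (j : ℤ) p +
            κ ^ 2 / 2 * (cs ((i : ℤ) : ZMod p) ((j : ℤ) : ZMod p) ^ 2 * s ^ 4)))) / (p : ℝ) ^ 2 := by
        rw [hSN, hSC]
        unfold locMean
        simp only [sum_sub_distrib, sum_add_distrib, ← mul_sum]
        rw [hcard, sub_div, add_div, add_div, div_self (by positivity : ((p : ℝ) ^ 2) ≠ 0), mul_div_assoc, mul_div_assoc]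
      rw [e4, abs_div, abs_of_pos (by positivity : (0 : ℝ) < (p : ℝ) ^ 2), div_le_iff₀ (by positivity)]
      refine (abs_sum_le_sum_abs _ _).trans ((sum_le_sum fun i _ => (abs_sum_le_sum_abs _ _).trans
        (sum_le_sum fun j _ => hterm i j)).trans (le_of_eq ?_))
      rw [sum_const, sum_const, card_range, nsmul_eq_mul, nsmul_eq_mul]
      ring
    have e5 : locMean κ p - 1 - κ * (κ + 1) / 2 * s ^ 2 = (locMean κ p - (1 + κ * SN + κ ^ 2 / 2 * SC)) +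
        κ * (SN - 1 / 2 * s ^ 2) + κ ^ 2 / 2 * (SC - s ^ 2) := by ring
    rw [e5]
    have hs4 : s ^ 4 ≤ s ^ 3 := by
      calc s ^ 4 = s * s ^ 3 := by ring
        _ ≤ 1 * s ^ 3 := mul_le_mul_of_nonneg_right hsl (by positivity)
        _ = s ^ 3 := one_mul _
    have t5 : |κ * (SN - 1 / 2 * s ^ 2)| ≤ |κ| * (8 * s ^ 3) := by
      rw [abs_mul]
      exact mul_le_mul_of_nonneg_left (by linarith) hk
    have t6 : |κ ^ 2 / 2 * (SC - s ^ 2)| ≤ κ ^ 2 / 2 * (6 * s ^ 3) := by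
      rw [abs_mul, abs_of_nonneg (by positivity : 0 ≤ κ ^ 2 / 2)]
      exact mul_le_mul_of_nonneg_left (by linarith) (by positivity)
    have hs3 : 0 < s ^ 3 := by positivity
    calc _ ≤ |locMean κ p - (1 + κ * SN + κ ^ 2 / 2 * SC)| + |κ * (SN - 1 / 2 * s ^ 2)| + |κ ^ 2 / 2 * (SC - s ^ 2)| :=
          (abs_add_le _ _).trans (add_le_add_left (abs_add_le _ _) _)
      _ ≤ ((20 * |κ|) ^ 3 * Real.exp (20 * |κ|) + |κ| * 100000 + κ ^ 2 * 1150000) * s ^ 3 + |κ| * (8 * s ^ 3) +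
          κ ^ 2 / 2 * (6 * s ^ 3) := add_le_add (add_le_add hmain t5) t6
      _ ≤ (C₁ + C₂) * s ^ 3 := by
          rw [hC₁]
          nlinarith [sq_nonneg κ, mul_nonneg (sq_nonneg κ) hs3.le, mul_nonneg h2 hs3.le]

end Pool.Agent.Q235.FE
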