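import Pool.Agent.TH894.NE3
import Pool.Agent.Q235.FD.Gen

/-! Exponential sums over few changes of digits: all frequencies, in the range `log x ≤ c √r`. -/

set_option autoImplicit false

namespace Pool.Agent.Q235.FE

open Finset
open Pool.Agent.TH894.ND
open Pool.Agent.TH894.SM (change_eq)

/-- the distance from the multiples of `Q` -/
def ds (Q v : ℕ) : ℕ := min (v % Q) (Q - v % Q)

lemma grow {Z Q v : ℕ} (hZ : 1 ≤ Z) (hQ : 1 ≤ Q) (h : ¬ Gp (2 * Z) Q v) : ds Q (Z * v) = Z * ds Q v := by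
  obtain ⟨a, ha⟩ : ∃ a, a = v % Q := ⟨_, rfl⟩
  obtain ⟨t, ht⟩ : ∃ t, t = v / Q := ⟨_, rfl⟩
  have hv : v = Q * t + a := by rw [ha, ht]; exact (Nat.div_add_mod v Q).symm
  have haQ : a < Q := by rw [ha]; exact Nat.mod_lt _ (by omega)
  unfold Gp at h
  unfold ds
  rw [← ha] at h ⊢
  by_cases h1 : 2 * Z * a < Q
  · have h2 : Z * a < Q := by nlinarith
    have h3 : a ≤ Z * a := Nat.le_mul_of_pos_left a (by omega)
    have h4 : (Z * v) % Q = Z * a := by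
      rw [hv, show Z * (Q * t + a) = Z * a + Q * (Z * t) by ring, Nat.add_mul_mod_self_left, Nat.mod_eq_of_lt h2]
    rw [h4]
    have h5 : 2 * (Z * a) < Q := by rw [← mul_assoc]; exact h1
    rw [min_eq_left (by omega), min_eq_left (by omega)]
  · have h2 : 2 * Z * (Q - a) < Q := by
      by_contra h3
      exact h ⟨by omega, by omega⟩
    obtain ⟨e, he⟩ : ∃ e, e = Q - a := ⟨_, rfl⟩
    rw [← he] at h2 ⊢
    have he1 : 1 ≤ e := by omega
    have h3 : e ≤ Z * e := Nat.le_mul_of_pos_left e (by omega)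
    have h5 : 2 * (Z * e) < Q := by rw [← mul_assoc]; exact h2
    have h6 : 1 ≤ Z * e := by omega
    have h4 : (Z * v) % Q = Q - Z * e := by
      have h7 : Z * v = (Q - Z * e) + Q * (Z * t + (Z - 1)) := by
        obtain ⟨Z', rfl⟩ : ∃ Z', Z = Z' + 1 := ⟨Z - 1, by omega⟩
        have h8 : a = Q - e := by omega
        have h9 : (Z' + 1) * v + (Z' + 1) * e = Q * ((Z' + 1) * t) + (Z' + 1) * Q := by
          rw [hv, h8]
          have : Q - e + e = Q := by omega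
          calc (Z' + 1) * (Q * t + (Q - e)) + (Z' + 1) * e = Q * ((Z' + 1) * t) + (Z' + 1) * (Q - e + e) := by ring
            _ = _ := by rw [this]
        have h10 : Q * ((Z' + 1) * t + (Z' + 1 - 1)) = Q * ((Z' + 1) * t) + Z' * Q := by
          rw [Nat.add_sub_cancel]
          ring
        have h11 : (Z' + 1) * Q = Z' * Q + Q := by ring
        rw [h10]
        omega
      rw [h7, Nat.add_mul_mod_self_left, Nat.mod_eq_of_lt (by omega)]
    rw [h4]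
    rw [min_eq_right (by omega), min_eq_right (by omega)]
    omega

lemma window {Z Q v n : ℕ} (hZ : 1 ≤ Z) (hQ : 1 ≤ Q) (hn : Q ≤ Z ^ n) (hv : ¬ Q ∣ v) :
    ∃ j < n, Gp (2 * Z) Q (Z ^ j * v) := by
  by_contra h
  push Not at h
  have h1 : ∀ j ≤ n, ds Q (Z ^ j * v) = Z ^ j * ds Q v := by
    intro j
    induction j with
    | zero => intro _; simp
    | succ j ih =>
      intro hj
      rw [pow_succ, mul_comm (Z ^ j) Z, mul_assoc, grow hZ hQ (h j (by omega)), ih (by omega)]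
      ring
  have h2 : v % Q ≠ 0 := fun h' => hv (Nat.dvd_of_mod_eq_zero h')
  have h3 : v % Q < Q := Nat.mod_lt _ (by omega)
  have h4 : 1 ≤ ds Q v := by
    unfold ds
    omega
  have h5 := h1 n le_rfl
  have h6 : Z ^ n ≤ Z ^ n * ds Q v := Nat.le_mul_of_pos_right _ (by omega)
  have h7 : 2 * ds Q (Z ^ n * v) ≤ Q := by
    unfold ds
    have := Nat.mod_lt (Z ^ n * v) (show 0 < Q by omega)
    omega
  omega

lemma places {Z Q v n : ℕ} (hZ : 1 ≤ Z) (hQ : 1 ≤ Q) (hn1 : 1 ≤ n) (hn : Q ≤ Z ^ n) (hv : ∀ i, ¬ Q ∣ Z ^ i * v) (T : ℕ) :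
    T / n ≤ ((range T).filter (fun i => Gp (2 * Z) Q (Z ^ i * v))).card := by
  have h1 : range (T / n) ⊆ ((range T).filter (fun i => Gp (2 * Z) Q (Z ^ i * v))).image (fun i => i / n) := by
    intro m hm
    rw [mem_range] at hm
    obtain ⟨j, hj, hg⟩ := window hZ hQ hn (hv (n * m))
    rw [mem_image]
    refine ⟨n * m + j, ?_, ?_⟩
    · rw [mem_filter, mem_range]
      constructor
      · have h2 : n * (m + 1) ≤ n * (T / n) := Nat.mul_le_mul_left n (by omega)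
        have h3 : n * (T / n) ≤ T := Nat.mul_div_le T n
        have h4 : n * (m + 1) = n * m + n := by ring
        omega
      · rw [show Z ^ (n * m + j) * v = Z ^ j * (Z ^ (n * m) * v) by rw [pow_add]; ring]
        exact hg
    · show (n * m + j) / n = m
      rw [Nat.mul_add_div (by omega), Nat.div_eq_of_lt hj, add_zero]
  have h2 := card_le_card h1
  rw [card_range] at h2
  exact h2.trans card_image_le

/-- away from the integers -/
lemma away' (b i Q k W : ℕ) (hb : 2 ≤ b) (hQ : 1 ≤ Q) (hW : 1 ≤ W) (τ : ℤ) (hτ0 : τ ≠ 0) (hτ : τ.natAbs ≤ b * b)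
    (hg : Gp W Q ((b ^ 2) ^ i * ((b * b).factorial * k))) (n : ℤ) :
    1 / (((b * b).factorial : ℝ) * W) ≤ |(k : ℝ) * (τ : ℝ) * ((b : ℝ) ^ 2) ^ i / Q - n| := by
  obtain ⟨Z, hZ⟩ : ∃ Z, Z = b ^ 2 := ⟨_, rfl⟩
  obtain ⟨L, hL⟩ : ∃ L, L = (b * b).factorial := ⟨_, rfl⟩
  have hZb : ((b : ℝ) ^ 2) = (Z : ℝ) := by rw [hZ]; push_cast; ring
  rw [← hZ, ← hL] at hg
  rw [← hL, hZb]
  have hL0 : 0 < L := by rw [hL]; exact Nat.factorial_pos _
  have hWr : (0 : ℝ) < W := by exact_mod_cast (by omega : 0 < W)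
  have hLr : (0 : ℝ) < L := by exact_mod_cast hL0
  have hQr : (0 : ℝ) < Q := by exact_mod_cast (by omega : 0 < Q)
  have hdvd : τ.natAbs ∣ L := by
    rw [hL]
    exact Nat.dvd_factorial (Int.natAbs_pos.2 hτ0) hτ
  obtain ⟨τ', hτ'⟩ : ∃ τ' : ℤ, (L : ℤ) = τ * τ' := by
    have h1 : τ ∣ (L : ℤ) := by
      rw [← Int.natAbs_dvd]
      exact_mod_cast hdvd
    exact h1
  have hτr : (L : ℝ) = τ * τ' := by exact_mod_cast hτ'
  have hτ'0 : (0 : ℝ) < |(τ' : ℝ)| := by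
    rw [abs_pos]
    intro h
    rw [h, mul_zero] at hτr
    linarith
  have hτ1 : (1 : ℝ) ≤ |(τ : ℝ)| := by
    have : (1 : ℤ) ≤ |τ| := Int.one_le_abs hτ0
    exact_mod_cast this
  have hτ'L : |(τ' : ℝ)| ≤ L := by
    have h2 : |(τ : ℝ)| * |(τ' : ℝ)| = L := by rw [← abs_mul, ← hτr, abs_of_pos hLr]
    nlinarith
  obtain ⟨R, hR⟩ : ∃ R, R = Z ^ i * (L * k) % Q := ⟨_, rfl⟩
  obtain ⟨a, ha⟩ : ∃ a, a = Z ^ i * (L * k) / Q := ⟨_, rfl⟩
  have h3 : Z ^ i * (L * k) = Q * a + R := by rw [ha, hR]; exact (Nat.div_add_mod _ _).symm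
  have hRQ : R < Q := by rw [hR]; exact Nat.mod_lt _ (by omega)
  unfold Gp at hg
  rw [← hR] at hg
  obtain ⟨hg1, hg2⟩ := hg
  have g1 : (Q : ℝ) ≤ W * R := by exact_mod_cast hg1
  have g2 : (Q : ℝ) ≤ W * ((Q : ℝ) - R) := by
    have : ((Q : ℕ) : ℝ) ≤ ((W * (Q - R) : ℕ) : ℝ) := by exact_mod_cast hg2
    push_cast [Nat.cast_sub hRQ.le] at this
    exact this
  have k1 : 1 / (W : ℝ) ≤ R / Q := by
    rw [div_le_div_iff₀ hWr hQr]
    linarith
  have k2 : 1 / (W : ℝ) ≤ 1 - R / Q := by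
    have : 1 - (R : ℝ) / Q = ((Q : ℝ) - R) / Q := by field_simp
    rw [this, div_le_div_iff₀ hWr hQr]
    linarith
  have h3r : (Z : ℝ) ^ i * (L * k) = Q * a + R := by exact_mod_cast h3
  obtain ⟨m, hm⟩ : ∃ m : ℤ, m = (a : ℤ) - τ' * n := ⟨_, rfl⟩
  have k3 : (τ' : ℝ) * ((k : ℝ) * (τ : ℝ) * (Z : ℝ) ^ i / Q - n) = (m : ℝ) + R / Q := by
    rw [hm]
    push_cast
    have e1 : (τ' : ℝ) * ((k : ℝ) * (τ : ℝ) * (Z : ℝ) ^ i / Q - n) = ((Z : ℝ) ^ i * (L * k)) / Q - τ' * n := by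
      rw [hτr]
      ring
    rw [e1, h3r]
    field_simp
    ring
  have k4 : 1 / (W : ℝ) ≤ |(m : ℝ) + R / Q| := by
    rcases le_or_gt 0 m with h | h
    · have h5 : (0 : ℝ) ≤ m := by exact_mod_cast h
      rw [abs_of_nonneg (by positivity)]
      linarith
    · have h5 : (m : ℝ) ≤ -1 := by
        have : m ≤ -1 := by omega
        exact_mod_cast this
      have h1Z : 0 < 1 / (W : ℝ) := by positivity
      rw [abs_of_nonpos (by linarith)]
      linarith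
  rw [← k3, abs_mul] at k4
  rw [div_le_iff₀ (by positivity)] at k4 ⊢
  calc (1 : ℝ) ≤ |(τ' : ℝ)| * |(k : ℝ) * (τ : ℝ) * (Z : ℝ) ^ i / Q - n| * W := k4
    _ ≤ L * |(k : ℝ) * (τ : ℝ) * (Z : ℝ) ^ i / Q - n| * W := by gcongr
    _ = _ := by ring

/-- the exponential sums at all frequencies -/
theorem exp_all (b K r Q k n : ℕ) (hb : 2 ≤ b) (hr : 1 ≤ r) (hK : 2 * r ≤ K) (hQ : 1 ≤ Q)
    (hcop : Nat.Coprime Q (b * b).factorial) (hk : ¬ Q ∣ k) (hn1 : 1 ≤ n) (hn : Q ≤ (b ^ 2) ^ n) (hnK : 4 * n ≤ K)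
    (c : ℕ → ℤ) (hc : ∀ j, c j ≠ 0 ∧ (c j).natAbs < b) :
    ‖∑ S ∈ powersetCard r (range K), ∏ j ∈ S, ee ((k : ℝ) * (c j : ℝ) * (b : ℝ) ^ j / Q)‖ ≤
      (4 * r + 2) * (K.choose r : ℝ) *
        Real.exp (-(2 * (1 / (((b * b).factorial : ℝ) * ((2 * b ^ 2 : ℕ) : ℝ))) ^ 2 * r / (8 * n))) := by
  classical
  obtain ⟨d, hd⟩ : ∃ d : ℝ, d = 1 / (((b * b).factorial : ℝ) * ((2 * b ^ 2 : ℕ) : ℝ)) := ⟨_, rfl⟩
  rw [← hd]
  have hL1 : (1 : ℝ) ≤ ((b * b).factorial : ℝ) := by exact_mod_cast Nat.factorial_pos _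
  have hZ1 : (8 : ℝ) ≤ ((2 * b ^ 2 : ℕ) : ℝ) := by
    have : 8 ≤ 2 * b ^ 2 := by nlinarith
    exact_mod_cast this
  have hprod1 : (8 : ℝ) ≤ ((b * b).factorial : ℝ) * ((2 * b ^ 2 : ℕ) : ℝ) := by nlinarith
  have hd0 : 0 < d := by rw [hd]; positivity
  have hd1 : d ≤ 1 / 2 := by
    rw [hd]
    apply div_le_div_of_nonneg_left (by norm_num) (by norm_num)
    linarith
  have hη0 : 0 ≤ 2 * d ^ 2 := by positivity
  have hη1 : 2 * d ^ 2 ≤ 1 := by nlinarith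
  obtain ⟨J, hJ⟩ : ∃ J, J = (range (K / 2)).filter (fun i => Gp (2 * b ^ 2) Q ((b ^ 2) ^ i * ((b * b).factorial * k))) := ⟨_, rfl⟩
  have hKr : (0 : ℝ) < K := by exact_mod_cast (by omega : 0 < K)
  have hnr : (0 : ℝ) < n := by exact_mod_cast (by omega : 0 < n)
  have hbf : b ∣ (b * b).factorial := Nat.dvd_factorial (by omega) (by nlinarith)
  have hndvd : ∀ i, ¬ Q ∣ (b ^ 2) ^ i * ((b * b).factorial * k) := by
    intro i h
    have h1 : Nat.Coprime Q ((b ^ 2) ^ i) := by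
      apply Nat.Coprime.pow_right
      apply Nat.Coprime.pow_right
      exact Nat.Coprime.coprime_dvd_right hbf hcop
    exact hk (hcop.dvd_of_dvd_mul_left (h1.dvd_of_dvd_mul_left h))
  have hJc : (K : ℝ) / (4 * n) ≤ J.card := by
    have h1 := places (show 1 ≤ b ^ 2 by nlinarith) hQ hn1 hn hndvd (K / 2)
    rw [← hJ, Nat.div_div_eq_div_mul] at h1
    have h2 : (K : ℝ) / (2 * n) - 1 ≤ ((K / (2 * n) : ℕ) : ℝ) := by
      have h3 := Nat.lt_div_mul_add (a := K) (b := 2 * n) (by omega)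
      have h4 : (K : ℝ) < ((K / (2 * n) : ℕ) : ℝ) * (2 * n) + 2 * n := by exact_mod_cast h3
      rw [sub_le_iff_le_add, div_le_iff₀ (by positivity)]
      linarith
    have h3 : ((K / (2 * n) : ℕ) : ℝ) ≤ J.card := by exact_mod_cast h1
    have h4 : (1 : ℝ) ≤ K / (4 * n) := by
      rw [le_div_iff₀ (by positivity)]
      have : (4 : ℝ) * n ≤ K := by exact_mod_cast hnK
      linarith
    have h5 : (K : ℝ) / (2 * n) = K / (4 * n) + K / (4 * n) := by field_simp; ring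
    linarith
  have hmain := esymm_bound K r 1 hr hK le_rfl (fun j => ee ((k : ℝ) * (c j : ℝ) * (b : ℝ) ^ j / Q))
    (fun j => (ee_norm _).le) J ?_ (2 * d ^ 2) hη0 hη1 ?_
  · refine hmain.trans ?_
    apply mul_le_mul_of_nonneg_left _ (by positivity)
    apply Real.exp_le_exp.2
    have h4 : 2 * d ^ 2 * r / (8 * n) = (d ^ 2 * r / K) * (K / (4 * n)) := by
      field_simp
      ring
    have h5 : 2 * d ^ 2 * r * J.card / (2 * K) = (d ^ 2 * r / K) * J.card := by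
      field_simp
    rw [h4, h5]
    have h6 : 0 ≤ d ^ 2 * r / K := by positivity
    have := mul_le_mul_of_nonneg_left hJc h6
    linarith
  · intro i hi
    rw [hJ, mem_filter, mem_range] at hi
    omega
  · intro i hi
    rw [hJ, mem_filter, mem_range] at hi
    obtain ⟨j, hj⟩ : ∃ j, j = 2 * 1 * i := ⟨_, rfl⟩
    obtain ⟨τ, hτ⟩ : ∃ τ : ℤ, τ = b * c (j + 1) - c j := ⟨_, rfl⟩
    have hτ0 : τ ≠ 0 := by
      intro h
      rw [hτ] at h
      have h1 : c j = b * c (j + 1) := by linarith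
      have h2 : (c j).natAbs = b * (c (j + 1)).natAbs := by
        rw [h1, Int.natAbs_mul, Int.natAbs_natCast]
      have h3 := (hc j).2
      have h4 : 0 < (c (j + 1)).natAbs := Int.natAbs_pos.2 (hc (j + 1)).1
      have h5 : b * 1 ≤ b * (c (j + 1)).natAbs := Nat.mul_le_mul_left b h4
      omega
    have hτb : τ.natAbs ≤ b * b := by
      have h1 : τ.natAbs ≤ b * (c (j + 1)).natAbs + (c j).natAbs := by
        rw [hτ]
        refine (Int.natAbs_sub_le _ _).trans ?_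
        rw [Int.natAbs_mul, Int.natAbs_natCast]
      have h3 := (hc j).2
      have h4 := (hc (j + 1)).2
      have h5 : b * (c (j + 1)).natAbs ≤ b * (b - 1) := Nat.mul_le_mul_left b (by omega)
      have h6 : b * (b - 1) + b = b * b := by
        rw [Nat.mul_sub, mul_one]
        have : b * 1 ≤ b * b := Nat.mul_le_mul_left b (by omega)
        omega
      omega
    have haway := away' b i Q k (2 * b ^ 2) hb hQ (by nlinarith) τ hτ0 hτb hi.2
    rw [← hd] at haway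
    have h7 := one_add_ee _ d hd0.le haway
    show ‖ee ((k : ℝ) * (c (2 * 1 * i) : ℝ) * (b : ℝ) ^ (2 * 1 * i) / Q) +
      ee ((k : ℝ) * (c (2 * 1 * i + 1) : ℝ) * (b : ℝ) ^ (2 * 1 * i + 1) / Q)‖ ≤ _
    rw [← hj]
    have h8 : (k : ℝ) * (c (j + 1) : ℝ) * (b : ℝ) ^ (j + 1) / Q =
        (k : ℝ) * (c j : ℝ) * (b : ℝ) ^ j / Q + (k : ℝ) * (τ : ℝ) * ((b : ℝ) ^ 2) ^ i / Q := by
      rw [← pow_mul, show 2 * i = j by omega, hτ]
      push_cast
      rw [pow_succ]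
      field_simp
      ring
    rw [h8, ee_add]
    have h9 : ee ((k : ℝ) * (c j : ℝ) * (b : ℝ) ^ j / Q) + ee ((k : ℝ) * (c j : ℝ) * (b : ℝ) ^ j / Q) *
        ee ((k : ℝ) * (τ : ℝ) * ((b : ℝ) ^ 2) ^ i / Q) =
        ee ((k : ℝ) * (c j : ℝ) * (b : ℝ) ^ j / Q) * (1 + ee ((k : ℝ) * (τ : ℝ) * ((b : ℝ) ^ 2) ^ i / Q)) := by ring
    rw [h9, norm_mul, ee_norm, one_mul]
    exact h7

/-- the exponential sums over few changes of digits, in terms of the number itself -/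
lemma sum_change (b : ℕ) (r K N : ℕ) (hN : N < b ^ K) (f : ℕ → ℕ) (Q k : ℕ) :
    ‖∑ S ∈ powersetCard r (range K), ee ((k : ℝ) * (Pool.Agent.TH894.SM.change b K N f S : ℕ) / Q)‖ =
      ‖∑ S ∈ powersetCard r (range K), ∏ i ∈ S, ee ((k : ℝ) * (((f i : ℤ) - ((N / b ^ i % b : ℕ) : ℤ) : ℤ) : ℝ) * (b : ℝ) ^ i / Q)‖ := by
  classical
  obtain ⟨cd, hcd⟩ : ∃ cd : ℕ → ℤ, cd = fun j => (f j : ℤ) - ((N / b ^ j % b : ℕ) : ℤ) := ⟨_, rfl⟩
  have e : ∀ i, ((f i : ℤ) - ((N / b ^ i % b : ℕ) : ℤ) : ℤ) = cd i := fun i => by rw [hcd]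
  simp only [e]
  have h1 : ∀ S ∈ powersetCard r (range K), ee ((k : ℝ) * (Pool.Agent.TH894.SM.change b K N f S : ℕ) / Q) =
      ee ((k : ℝ) * N / Q) * ∏ i ∈ S, ee ((k : ℝ) * (cd i : ℝ) * (b : ℝ) ^ i / Q) := by
    intro S hS
    rw [mem_powersetCard] at hS
    have h2 := change_eq b K N hN f S hS.1
    have h3 : ((Pool.Agent.TH894.SM.change b K N f S : ℕ) : ℝ) = N + ∑ i ∈ S, (cd i : ℝ) * (b : ℝ) ^ i := by
      have h4 : (((Pool.Agent.TH894.SM.change b K N f S : ℕ) : ℤ) : ℝ) = ((N + ∑ i ∈ S, Pool.Agent.TH894.SM.dl b (Pool.Agent.TH894.SM.ed b N f) i : ℤ) : ℝ) := by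
        rw [h2]
      push_cast at h4
      rw [h4]
      congr 1
      refine sum_congr rfl fun i _ => ?_
      unfold Pool.Agent.TH894.SM.dl Pool.Agent.TH894.SM.ed
      rw [hcd]
      push_cast
      ring
    rw [h3, ← ee_sum, ← ee_add]
    congr 1
    rw [mul_add, add_div, mul_sum, sum_div]
    congr 1
    exact sum_congr rfl fun i _ => by ring
  rw [sum_congr rfl h1, ← mul_sum, norm_mul, ee_norm, one_mul]

end Pool.Agent.Q235.FE
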