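import Pool.Agent.Q235.FE.Most
import Pool.Agent.Q28.BP.Both

/-!
# The products of Birch and Swinnerton-Dyer of the members of a family, at numbers with few changed digits
-/

set_option autoImplicit false

namespace Pool.Agent.Q235.FE

open Finset Filter Topology
open Pool.Agent.Q235.FD (Setting exceptions change digit avg avg_equiv)
open Pool.Agent.Q28.BP (lg lg_abs lg_congr nuf lg_nuf nuf_congr sum32 sum_inv_loglog tendsto_loglog)
open Pool.Agent.W263.BSD (pointCount GoodPrime rsSum)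

lemma mv_eval_congr {L : Type} (A : MvPolynomial L ℤ) {p : ℕ} {m n : L → ℤ} (h : ∀ l, (m l : ZMod p) = n l) :
    ((MvPolynomial.eval m A : ℤ) : ZMod p) = ((MvPolynomial.eval n A : ℤ) : ZMod p) := by
  induction A using MvPolynomial.induction_on with
  | C a => simp
  | add A B hA hB => push_cast [map_add]; rw [hA, hB]
  | mul_X A l hA => push_cast [map_mul, MvPolynomial.eval_X]; rw [hA, h l]

/-- a function which is compatible with all congruences -/
def Compat {L : Type} (A : (L → ℕ) → ℤ) : Prop := ∀ (p : ℕ) (n : L → ℕ), (A n : ZMod p) = A (fun l => n l % p)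

lemma compat_poly {L : Type} (A : MvPolynomial L ℤ) : Compat (fun n : L → ℕ => MvPolynomial.eval (fun l => (n l : ℤ)) A) := by
  intro p n
  beta_reduce
  apply mv_eval_congr
  intro l
  simp

lemma avg_congr_le {L : Type} [Fintype L] {p : ℕ} (hp : 0 < p) (F G : (L → ℕ) → ℝ) {M : ℝ} (hF : ∀ n, |F n - G n| ≤ M) :
    |avg p F - avg p G| ≤ M := by
  classical
  have h := avg_abs hp (fun n => F n - G n) hF
  have e : avg p (fun n => F n - G n) = avg p F - avg p G := by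
    unfold avg
    rw [sum_sub_distrib, sub_div]
  rwa [e] at h

theorem curves_all (L : Type) [Fintype L] [Nonempty L] (b : ℕ) (hb : 2 ≤ b) : ∃ c : ℝ, 0 < c ∧ ∀ η : ℝ, 0 < η →
    ∃ X₀ : ℕ, 3 ≤ X₀ ∧ ∀ A B : (L → ℕ) → ℤ, Compat A → Compat B →
      ∀ (K r N : L → ℕ) (f : L → ℕ → ℕ), Setting b K r N f →
        (exceptions b K r N f (fun m => ∀ x : ℕ, X₀ ≤ x → (∀ l, Real.log x ≤ c * Real.sqrt (r l)) →
          |∑ p ∈ (range (x + 1)).filter Nat.Prime, lg (A m) (B m) p -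
            ∑ p ∈ (range (x + 1)).filter Nat.Prime, avg p (fun n => nuf (A n) (B n) p)| ≤
            3 * Real.log (Real.log x) ^ (5 / 6 : ℝ)) : ℝ) ≤
            η * ∏ l, ((K l).choose (r l) : ℝ) := by
  obtain ⟨c, hc, H⟩ := means L b hb
  refine ⟨c, hc, fun η hη => ?_⟩
  obtain ⟨X₀, hX₀, H⟩ := H 20 (by norm_num) η hη
  obtain ⟨Z, hZ⟩ : ∃ Z : ℝ, Z = 100000 * ∑' n : ℕ, (n : ℝ) ^ (-(3 / 2) : ℝ) := ⟨_, rfl⟩
  have hL : Tendsto (fun x : ℕ => Real.log (Real.log (x : ℝ)) ^ (5 / 6 : ℝ)) atTop atTop :=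
    (tendsto_rpow_atTop (by norm_num)).comp (Real.tendsto_log_atTop.comp
      (Real.tendsto_log_atTop.comp (tendsto_natCast_atTop_atTop (R := ℝ))))
  obtain ⟨X₁, hX₁⟩ := eventually_atTop.1 (hL.eventually_ge_atTop Z)
  refine ⟨max X₀ X₁, hX₀.trans (le_max_left _ _), fun A B hA hB K r N f hs => ?_⟩
  have h1 := H (fun p n => lg (A n) (B n) p) (fun p _ n => lg_congr (hA p n) (hB p n)) (fun p hp n => lg_abs _ _ hp) K r N f hs
  refine le_trans ?_ h1
  have h2 := exceptions_mono b K r N f (E := fun m => ∀ x : ℕ, X₀ ≤ x → (∀ l, Real.log x ≤ c * Real.sqrt (r l)) →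
          |∑ p ∈ (range (x + 1)).filter Nat.Prime, lg (A m) (B m) p -
            ∑ p ∈ (range (x + 1)).filter Nat.Prime, avg p (fun n => lg (A n) (B n) p)| ≤ 2 * Real.log (Real.log x) ^ (5 / 6 : ℝ))
    (E' := fun m => ∀ x : ℕ, max X₀ X₁ ≤ x → (∀ l, Real.log x ≤ c * Real.sqrt (r l)) →
          |∑ p ∈ (range (x + 1)).filter Nat.Prime, lg (A m) (B m) p -
            ∑ p ∈ (range (x + 1)).filter Nat.Prime, avg p (fun n => nuf (A n) (B n) p)| ≤
            3 * Real.log (Real.log x) ^ (5 / 6 : ℝ)) (fun m hm x hx hxr => by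
      have h3 := hm x ((le_max_left _ _).trans hx) hxr
      have h4 := sum32 100000 (by norm_num) (fun p => avg p (fun n => lg (A n) (B n) p) - avg p (fun n => nuf (A n) (B n) p))
        (fun p hp => avg_congr_le hp.pos _ _ (fun n => lg_nuf _ _ hp)) x
      rw [sum_sub_distrib, ← hZ] at h4
      have h5 := hX₁ x ((le_max_right _ _).trans hx)
      rw [abs_le] at h3 h4 ⊢
      constructor <;> linarith [h3.1, h3.2, h4.1, h4.2])
  exact_mod_cast h2

/-- passing from the error term `(log log x)^(5/6)` to `ε log log x` -/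
lemma small_error {ε : ℝ} (hε : 0 < ε) : ∃ X₁ : ℕ, 16 ≤ X₁ ∧ ∀ x : ℕ, X₁ ≤ x →
    3 * Real.log (Real.log x) ^ (5 / 6 : ℝ) ≤ ε * Real.log (Real.log x) := by
  have hL : Tendsto (fun x : ℕ => Real.log (Real.log (x : ℝ)) ^ (1 / 6 : ℝ)) atTop atTop :=
    (tendsto_rpow_atTop (by norm_num)).comp tendsto_loglog
  obtain ⟨X₁, hX₁⟩ := eventually_atTop.1 ((hL.eventually_ge_atTop (3 / ε)).and
    (tendsto_loglog.eventually_ge_atTop 1))
  refine ⟨max 16 X₁, le_max_left _ _, fun x hx => ?_⟩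
  obtain ⟨h4, h5⟩ := hX₁ x ((le_max_right _ _).trans hx)
  obtain ⟨Y, hY⟩ : ∃ Y, Y = Real.log (Real.log x) := ⟨_, rfl⟩
  rw [← hY] at h4 h5 ⊢
  have hL0 : 0 < Y := by linarith
  have e3 : Y = Y ^ (1 / 6 : ℝ) * Y ^ (5 / 6 : ℝ) := by
    rw [← Real.rpow_add hL0]
    norm_num
  have h7 : 0 < Y ^ (5 / 6 : ℝ) := by positivity
  have h8 : 3 ≤ ε * Y ^ (1 / 6 : ℝ) := by
    rw [div_le_iff₀ hε] at h4
    linarith
  calc 3 * Y ^ (5 / 6 : ℝ) ≤ ε * Y ^ (1 / 6 : ℝ) * Y ^ (5 / 6 : ℝ) :=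
        mul_le_mul_of_nonneg_right h8 h7.le
    _ = ε * (Y ^ (1 / 6 : ℝ) * Y ^ (5 / 6 : ℝ)) := by ring
    _ = ε * Y := by rw [← e3]

/-- families with known growth of the sums of the means -/
theorem exponent (L : Type) [Fintype L] [Nonempty L] (b : ℕ) (hb : 2 ≤ b) : ∃ c : ℝ, 0 < c ∧ ∀ (κ ε η : ℝ), 0 < ε → 0 < η →
    ∀ (Θ : Type) (A B : Θ → (L → ℕ) → ℤ), (∀ θ, Compat (A θ)) → (∀ θ, Compat (B θ)) →
    (∀ ε' : ℝ, 0 < ε' → ∃ X₂ : ℕ, ∀ θ, ∀ x : ℕ, X₂ ≤ x → |∑ p ∈ (range (x + 1)).filter Nat.Prime, avg p (fun n => nuf (A θ n) (B θ n) p) -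
        κ * Real.log (Real.log x)| ≤ ε' * Real.log (Real.log x)) →
    ∃ X₀ : ℕ, 16 ≤ X₀ ∧
      ∀ (θ : Θ) (K r N : L → ℕ) (f : L → ℕ → ℕ), Setting b K r N f →
        (exceptions b K r N f (fun m => ∀ x : ℕ, X₀ ≤ x → (∀ l, Real.log x ≤ c * Real.sqrt (r l)) →
          |∑ p ∈ (range (x + 1)).filter Nat.Prime, lg (A θ m) (B θ m) p - κ * Real.log (Real.log x)| ≤
            ε * Real.log (Real.log x)) : ℝ) ≤ η * ∏ l, ((K l).choose (r l) : ℝ) := by
  obtain ⟨c, hc, H⟩ := curves_all L b hb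
  refine ⟨c, hc, fun κ ε η hε hη Θ A B hA hB hmean => ?_⟩
  obtain ⟨X₀, hX₀, H⟩ := H η hη
  obtain ⟨X₁, hX₁, h1⟩ := small_error (show 0 < ε / 2 by positivity)
  obtain ⟨X₂, h2⟩ := hmean (ε / 2) (by positivity)
  refine ⟨max X₀ (max X₁ X₂), hX₁.trans ((le_max_left _ _).trans (le_max_right _ _)), fun θ K r N f hs => ?_⟩
  refine le_trans ?_ (H (A θ) (B θ) (hA θ) (hB θ) K r N f hs)
  have h3 := exceptions_mono b K r N f (E := fun m => ∀ x : ℕ, X₀ ≤ x → (∀ l, Real.log x ≤ c * Real.sqrt (r l)) →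
          |∑ p ∈ (range (x + 1)).filter Nat.Prime, lg (A θ m) (B θ m) p -
            ∑ p ∈ (range (x + 1)).filter Nat.Prime, avg p (fun n => nuf (A θ n) (B θ n) p)| ≤
            3 * Real.log (Real.log x) ^ (5 / 6 : ℝ))
    (E' := fun m => ∀ x : ℕ, max X₀ (max X₁ X₂) ≤ x → (∀ l, Real.log x ≤ c * Real.sqrt (r l)) →
          |∑ p ∈ (range (x + 1)).filter Nat.Prime, lg (A θ m) (B θ m) p - κ * Real.log (Real.log x)| ≤
            ε * Real.log (Real.log x)) (fun m hm x hx hxr => by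
      have h3 := hm x ((le_max_left _ _).trans hx) hxr
      have h4 := h1 x ((le_max_left _ _).trans ((le_max_right _ _).trans hx))
      have h5 := h2 θ x ((le_max_right _ _).trans ((le_max_right _ _).trans hx))
      rw [abs_le] at h3 h5 ⊢
      constructor <;> linarith [h3.1, h3.2, h5.1, h5.2])
  exact_mod_cast h3

/-- the average in the case of one variable -/
lemma avg_unit {p : ℕ} (F : (Unit → ℕ) → ℝ) : avg p F = (∑ j ∈ range p, F (fun _ => j)) / p := by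
  classical
  unfold avg
  rw [Fintype.card_unit, pow_one]
  congr 1
  refine sum_bij (fun n _ => n ()) ?_ ?_ ?_ ?_
  · intro n hn
    exact (@Fintype.mem_piFinset _ (_) _ _ _ _).1 hn ()
  · intro n _ n' _ h
    funext u
    exact h
  · intro j hj
    exact ⟨fun _ => j, (@Fintype.mem_piFinset _ (_) _ _ _ _).2 fun _ => hj, rfl⟩
  · intro n _
    rfl

end Pool.Agent.Q235.FE
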