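import Pool.Agent.Q235.FE.Two

/-!
# Averages over the residues: one coordinate after the other
-/

set_option autoImplicit false

namespace Pool.Agent.Q235.FE

open Finset Filter Topology
open Pool.Agent.Q235.FD (Setting exceptions change digit avg avg_equiv)

/-- the average over one coordinate first -/
lemma avg_fiber {L : Type} [Fintype L] [DecidableEq L] (i : L) {p : ℕ} (hp : 0 < p) (F : (L → ℕ) → ℝ) :
    avg p F = avg p (fun n => (∑ j ∈ range p, F (Function.update n i j)) / p) := by
  have hp0 : (p : ℝ) ≠ 0 := by exact_mod_cast hp.ne'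
  obtain ⟨P, hP⟩ : ∃ P, P = @Fintype.piFinset L (fun a b => Classical.propDecidable (a = b)) _ (fun _ => ℕ) (fun _ : L => range p) := ⟨_, rfl⟩
  have hmem : ∀ n, n ∈ P ↔ ∀ l, n l < p := by
    intro n
    rw [hP, @Fintype.mem_piFinset _ (_) _ _ _ _]
    simp only [mem_range]
  have h1 : ∑ n ∈ P, ∑ j ∈ range p, F (Function.update n i j) = p * ∑ n ∈ P, F n := by
    rw [← sum_product']
    have h2 : ∑ x ∈ P ×ˢ range p, F (Function.update x.1 i x.2) = ∑ x ∈ P ×ˢ range p, F x.1 := by
      refine sum_nbij' (fun x => (Function.update x.1 i x.2, x.1 i)) (fun x => (Function.update x.1 i x.2, x.1 i)) ?_ ?_ ?_ ?_ ?_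
      · intro x hx
        obtain ⟨hx1, hx2⟩ := mem_product.1 hx
        rw [hmem] at hx1
        refine mem_product.2 ⟨(hmem _).2 fun l => ?_, mem_range.2 (hx1 i)⟩
        by_cases h : l = i
        · subst h
          simp only [Function.update_self]
          exact mem_range.1 hx2
        · simp only [Function.update_of_ne h]
          exact hx1 l
      · intro x hx
        obtain ⟨hx1, hx2⟩ := mem_product.1 hx
        rw [hmem] at hx1
        refine mem_product.2 ⟨(hmem _).2 fun l => ?_, mem_range.2 (hx1 i)⟩
        by_cases h : l = i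
        · subst h
          simp only [Function.update_self]
          exact mem_range.1 hx2
        · simp only [Function.update_of_ne h]
          exact hx1 l
      · intro x _
        simp
      · intro x _
        simp
      · intro x _
        rfl
    rw [h2, sum_product]
    simp only [sum_const, card_range, nsmul_eq_mul]
    rw [mul_sum]
  unfold avg
  rw [← hP, ← sum_div, h1]
  field_simp

lemma avg_le {L : Type} [Fintype L] {p : ℕ} {F G : (L → ℕ) → ℝ} (h : ∀ n, (∀ l, n l < p) → F n ≤ G n) : avg p F ≤ avg p G := by
  classical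
  unfold avg
  refine div_le_div_of_nonneg_right (sum_le_sum fun n hn => h n fun l => ?_) (by positivity)
  exact mem_range.1 ((@Fintype.mem_piFinset _ (_) _ _ _ _).1 hn l)

lemma abs_avg_le {L : Type} [Fintype L] {p : ℕ} (F : (L → ℕ) → ℝ) : |avg p F| ≤ avg p (fun n => |F n|) := by
  classical
  unfold avg
  rw [abs_div, abs_of_nonneg (by positivity : (0 : ℝ) ≤ (p : ℝ) ^ Fintype.card L)]
  exact div_le_div_of_nonneg_right (abs_sum_le_sum_abs _ _) (by positivity)

lemma avg_add {L : Type} [Fintype L] {p : ℕ} (F G : (L → ℕ) → ℝ) : avg p (fun n => F n + G n) = avg p F + avg p G := by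
  classical
  unfold avg
  rw [sum_add_distrib, add_div]

lemma avg_const {L : Type} [Fintype L] {p : ℕ} (hp : 0 < p) (c : ℝ) : avg p (fun _ : L → ℕ => c) = c := by
  have h := avg_sub_const (L := L) hp (fun _ => c) c
  classical
  have h2 : avg p (fun _ : L → ℕ => c - c) = 0 := by
    unfold avg
    simp
  rw [h2] at h
  linarith

/-- the proportion of the zero coordinates -/
lemma avg_coord {L : Type} [Fintype L] (i : L) {p : ℕ} (hp : 0 < p) (w : ℝ) :
    avg p (fun n : L → ℕ => if n i = 0 then w else 0) = w / p := by
  classical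
  rw [avg_fiber i hp]
  have h2 : ∀ (d : DecidableEq L), (fun n : L → ℕ => (∑ j ∈ range p, (if (@Function.update L (fun _ => ℕ) d n i j) i = 0 then w else 0)) / (p : ℝ)) =
      fun _ => w / p := by
    intro d
    funext n
    simp only [Function.update_self]
    rw [sum_ite_eq' (range p) 0, if_pos (mem_range.2 hp)]
  rw [h2]
  exact avg_const hp _

end Pool.Agent.Q235.FE
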