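import Pool.Agent.Q235.FE.MomR

/-! Large deviations from exponential moments. -/

set_option autoImplicit false

namespace Pool.Agent.Q235.FE

open Finset
open Pool.Agent.Q235.FD (change digit)

/-- the average of `exp (κ Z)` -/
noncomputable def expAvg {α : Type} (F : Finset α) (Z : α → ℝ) (κ : ℝ) : ℝ := (∑ a ∈ F, Real.exp (κ * Z a)) / F.card

open Classical in
/-- the proportion of the elements with a property -/
noncomputable def proportion {α : Type} (F : Finset α) (P : α → Prop) : ℝ := ((F.filter P).card : ℝ) / F.card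

/-- large deviations -/
theorem ld (h ρ ε : ℝ) (hρ : h ≤ ρ) (hε : 0 < ε) : ∃ (T : Finset ℝ) (ε₁ L₀ : ℝ), 0 < ε₁ ∧ 0 < L₀ ∧
    ∀ {α : Type} (F : Finset α) (Z : α → ℝ) (L : ℝ), F.Nonempty → L₀ ≤ L →
      (∀ κ ∈ T, |Real.log (expAvg F Z κ) - (κ ^ 2 / 2 + h * κ) * L| ≤ ε₁ * L) →
      Real.exp ((-((ρ - h) ^ 2 / 2) - ε) * L) ≤ proportion F (fun a => ρ * L ≤ Z a) ∧
      proportion F (fun a => ρ * L ≤ Z a) ≤ Real.exp ((-((ρ - h) ^ 2 / 2) + ε) * L) := by
  classical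
  obtain ⟨a, ha⟩ : ∃ a, a = ρ - h := ⟨_, rfl⟩
  have ha0 : 0 ≤ a := by linarith
  obtain ⟨δ, hδ⟩ : ∃ δ, δ = min 1 (ε / (4 * a + 4)) := ⟨_, rfl⟩
  have hδ0 : 0 < δ := by
    rw [hδ]
    exact lt_min one_pos (by positivity)
  have hδ1 : δ ≤ 1 := by rw [hδ]; exact min_le_left _ _
  have hδ2 : δ * (4 * a + 4) ≤ ε := by
    have : δ ≤ ε / (4 * a + 4) := by rw [hδ]; exact min_le_right _ _
    rwa [le_div_iff₀ (by positivity)] at this
  have hδε : δ ≤ ε := by nlinarith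
  obtain ⟨κ₀, hκ₀⟩ : ∃ κ₀, κ₀ = a + δ := ⟨_, rfl⟩
  refine ⟨{κ₀, κ₀ + δ, κ₀ - δ, a}, δ ^ 2 / 8, max (16 / δ ^ 2) (2 / ε), by positivity, lt_max_of_lt_right (by positivity),
    fun {α} F Z L hF hL hT => ?_⟩
  have hL1 : 16 / δ ^ 2 ≤ L := (le_max_left _ _).trans hL
  have hL2 : 2 / ε ≤ L := (le_max_right _ _).trans hL
  rw [div_le_iff₀ (by positivity)] at hL1 hL2
  have hL0 : 0 < L := by
    by_contra hcon
    push Not at hcon
    nlinarith [sq_nonneg δ]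
  have hn : (0 : ℝ) < F.card := by exact_mod_cast hF.card_pos
  have hpos : ∀ κ, 0 < expAvg F Z κ := fun κ => div_pos (sum_pos (fun _ _ => Real.exp_pos _) hF) hn
  have hb : ∀ κ ∈ ({κ₀, κ₀ + δ, κ₀ - δ, a} : Finset ℝ), Real.exp ((κ ^ 2 / 2 + h * κ - δ ^ 2 / 8) * L) ≤ expAvg F Z κ ∧
      expAvg F Z κ ≤ Real.exp ((κ ^ 2 / 2 + h * κ + δ ^ 2 / 8) * L) := by
    intro κ hκ
    have h1 := abs_le.1 (hT κ hκ)
    have h2 : expAvg F Z κ = Real.exp (Real.log (expAvg F Z κ)) := (Real.exp_log (hpos κ)).symm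
    rw [h2]
    constructor
    · apply Real.exp_le_exp.2
      linarith [h1.1]
    · apply Real.exp_le_exp.2
      linarith [h1.2]
  -- tails against moments
  have markov' : ∀ (κ η v : ℝ) (P : α → Prop), (∀ a ∈ F, P a → 0 ≤ η * (Z a - v * L) ) →
      (∑ a ∈ F.filter P, Real.exp (κ * Z a)) / F.card ≤ Real.exp (-(η * v) * L) * expAvg F Z (κ + η) := by
    intro κ η v P hP
    unfold expAvg
    rw [← mul_div_assoc]
    apply div_le_div_of_nonneg_right _ hn.le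
    rw [mul_sum]
    refine le_trans (sum_le_sum (g := fun a => Real.exp (-(η * v) * L) * Real.exp ((κ + η) * Z a)) fun a ha => ?_)
      (sum_le_sum_of_subset_of_nonneg (filter_subset _ _) fun _ _ _ => by positivity)
    obtain ⟨h1, h2⟩ := mem_filter.1 ha
    rw [← Real.exp_add]
    apply Real.exp_le_exp.2
    have := hP a h1 h2
    nlinarith
  constructor
  · -- lower bound
    obtain ⟨m1, -⟩ := hb κ₀ (by simp)
    obtain ⟨-, m2⟩ := hb (κ₀ + δ) (by simp)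
    obtain ⟨-, m3⟩ := hb (κ₀ - δ) (by simp)
    have t1 := markov' κ₀ δ (ρ + 2 * δ) (fun a => (ρ + 2 * δ) * L ≤ Z a) (fun a _ h => mul_nonneg hδ0.le (by linarith))
    have t2 := markov' κ₀ (-δ) ρ (fun a => Z a < ρ * L) (fun a _ h => by nlinarith)
    have t3 : (∑ a ∈ F.filter (fun a => ρ * L ≤ Z a ∧ Z a < (ρ + 2 * δ) * L), Real.exp (κ₀ * Z a)) / F.card ≤
        Real.exp (κ₀ * (ρ + 2 * δ) * L) * proportion F (fun a => ρ * L ≤ Z a) := by
      unfold proportion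
      rw [← mul_div_assoc]
      apply div_le_div_of_nonneg_right _ hn.le
      have h1 : ∀ a ∈ F.filter (fun a => ρ * L ≤ Z a ∧ Z a < (ρ + 2 * δ) * L), Real.exp (κ₀ * Z a) ≤
          Real.exp (κ₀ * (ρ + 2 * δ) * L) := by
        intro a ha
        have h2 := (mem_filter.1 ha).2.2
        apply Real.exp_le_exp.2
        have : 0 ≤ κ₀ := by rw [hκ₀]; positivity
        nlinarith
      refine (sum_le_sum h1).trans ?_
      rw [sum_const, nsmul_eq_mul, mul_comm]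
      apply mul_le_mul_of_nonneg_left _ (Real.exp_pos _).le
      have : F.filter (fun a => ρ * L ≤ Z a ∧ Z a < (ρ + 2 * δ) * L) ⊆ F.filter (fun a => ρ * L ≤ Z a) := by
        intro a ha
        obtain ⟨h1, h2⟩ := mem_filter.1 ha
        exact mem_filter.2 ⟨h1, h2.1⟩
      exact_mod_cast card_le_card this
    have hsplit : expAvg F Z κ₀ ≤
        (∑ a ∈ F.filter (fun a => (ρ + 2 * δ) * L ≤ Z a), Real.exp (κ₀ * Z a)) / F.card +
        (∑ a ∈ F.filter (fun a => Z a < ρ * L), Real.exp (κ₀ * Z a)) / F.card +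
        (∑ a ∈ F.filter (fun a => ρ * L ≤ Z a ∧ Z a < (ρ + 2 * δ) * L), Real.exp (κ₀ * Z a)) / F.card := by
      unfold expAvg
      rw [← add_div, ← add_div]
      apply div_le_div_of_nonneg_right _ hn.le
      rw [sum_filter, sum_filter, sum_filter, ← sum_add_distrib, ← sum_add_distrib]
      refine sum_le_sum fun a _ => ?_
      have he := (Real.exp_pos (κ₀ * Z a)).le
      by_cases h1 : (ρ + 2 * δ) * L ≤ Z a
      · rw [if_pos h1]
        have k1 : 0 ≤ (if Z a < ρ * L then Real.exp (κ₀ * Z a) else 0) := by split_ifs <;> linarith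
        have k2 : 0 ≤ (if ρ * L ≤ Z a ∧ Z a < (ρ + 2 * δ) * L then Real.exp (κ₀ * Z a) else 0) := by split_ifs <;> linarith
        linarith
      · push Not at h1
        by_cases h2 : Z a < ρ * L
        · rw [if_pos h2, if_neg (not_le.2 h1), if_neg (fun h => absurd h.1 (not_le.2 h2))]
          linarith
        · rw [if_neg h2, if_neg (not_le.2 h1), if_pos ⟨not_lt.1 h2, h1⟩]
          linarith
    obtain ⟨B, hB⟩ : ∃ B, B = Real.exp ((κ₀ ^ 2 / 2 + h * κ₀ - 3 * δ ^ 2 / 8) * L) := ⟨_, rfl⟩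
    have u1 : Real.exp (-(δ * (ρ + 2 * δ)) * L) * expAvg F Z (κ₀ + δ) ≤ B := by
      refine (mul_le_mul_of_nonneg_left m2 (Real.exp_pos _).le).trans (le_of_eq ?_)
      rw [← Real.exp_add, hB]
      congr 1
      rw [hκ₀, ha]
      ring
    have u2 : Real.exp (-(-δ * ρ) * L) * expAvg F Z (κ₀ + -δ) ≤ B := by
      rw [← sub_eq_add_neg]
      refine (mul_le_mul_of_nonneg_left m3 (Real.exp_pos _).le).trans (le_of_eq ?_)
      rw [← Real.exp_add, hB]
      congr 1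
      rw [hκ₀, ha]
      ring
    have u3 : 4 * B ≤ Real.exp ((κ₀ ^ 2 / 2 + h * κ₀ - δ ^ 2 / 8) * L) := by
      have e : Real.exp ((κ₀ ^ 2 / 2 + h * κ₀ - δ ^ 2 / 8) * L) = Real.exp (δ ^ 2 / 4 * L) * B := by
        rw [hB, ← Real.exp_add]
        congr 1
        ring
      rw [e]
      apply mul_le_mul_of_nonneg_right _ (by rw [hB]; exact (Real.exp_pos _).le)
      have h5 := Real.add_one_le_exp (δ ^ 2 / 4 * L)
      nlinarith
    have hmid : Real.exp ((κ₀ ^ 2 / 2 + h * κ₀ - δ ^ 2 / 8) * L) / 2 ≤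
        Real.exp (κ₀ * (ρ + 2 * δ) * L) * proportion F (fun a => ρ * L ≤ Z a) := by
      linarith
    have hfin : Real.exp ((-(a ^ 2 / 2) - ε) * L) ≤
        Real.exp (-(κ₀ * (ρ + 2 * δ) * L)) * (Real.exp ((κ₀ ^ 2 / 2 + h * κ₀ - δ ^ 2 / 8) * L) / 2) := by
      have h6 : Real.exp (-(ε / 2 * L)) ≤ 1 / 2 := by
        have h7 : 2 ≤ Real.exp (ε / 2 * L) := by
          have := Real.add_one_le_exp (ε / 2 * L)
          linarith
        rw [Real.exp_neg, one_div]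
        exact inv_anti₀ (by norm_num) h7
      have h8 : (-(a ^ 2 / 2) - ε) * L ≤ -(κ₀ * (ρ + 2 * δ) * L) + (κ₀ ^ 2 / 2 + h * κ₀ - δ ^ 2 / 8) * L + -(ε / 2 * L) := by
        have h9 : -(a ^ 2 / 2) - ε ≤ -(κ₀ * (ρ + 2 * δ)) + (κ₀ ^ 2 / 2 + h * κ₀ - δ ^ 2 / 8) - ε / 2 := by
          have e : -(κ₀ * (ρ + 2 * δ)) + (κ₀ ^ 2 / 2 + h * κ₀ - δ ^ 2 / 8) = -(a ^ 2 / 2) - (2 * a * δ + 13 / 8 * δ ^ 2) := by
            have : ρ = a + h := by rw [ha]; ring
            rw [hκ₀, this]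
            ring
          rw [e]
          nlinarith
        nlinarith
      calc Real.exp ((-(a ^ 2 / 2) - ε) * L) ≤
            Real.exp (-(κ₀ * (ρ + 2 * δ) * L) + (κ₀ ^ 2 / 2 + h * κ₀ - δ ^ 2 / 8) * L + -(ε / 2 * L)) := Real.exp_le_exp.2 h8
        _ = Real.exp (-(κ₀ * (ρ + 2 * δ) * L)) * Real.exp ((κ₀ ^ 2 / 2 + h * κ₀ - δ ^ 2 / 8) * L) * Real.exp (-(ε / 2 * L)) := by
            rw [Real.exp_add, Real.exp_add]
        _ ≤ Real.exp (-(κ₀ * (ρ + 2 * δ) * L)) * Real.exp ((κ₀ ^ 2 / 2 + h * κ₀ - δ ^ 2 / 8) * L) * (1 / 2) :=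
            mul_le_mul_of_nonneg_left h6 (by positivity)
        _ = _ := by ring
    rw [ha] at hfin
    refine hfin.trans ?_
    calc Real.exp (-(κ₀ * (ρ + 2 * δ) * L)) * (Real.exp ((κ₀ ^ 2 / 2 + h * κ₀ - δ ^ 2 / 8) * L) / 2) ≤
          Real.exp (-(κ₀ * (ρ + 2 * δ) * L)) * (Real.exp (κ₀ * (ρ + 2 * δ) * L) * proportion F (fun a => ρ * L ≤ Z a)) :=
          mul_le_mul_of_nonneg_left hmid (Real.exp_pos _).le
      _ = proportion F (fun a => ρ * L ≤ Z a) := by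
          rw [← mul_assoc, ← Real.exp_add, neg_add_cancel, Real.exp_zero, one_mul]
  · -- upper bound
    obtain ⟨-, m4⟩ := hb a (by simp)
    have t1 := markov' 0 a ρ (fun b => ρ * L ≤ Z b) (fun b _ h => mul_nonneg ha0 (by linarith))
    have e1 : (∑ b ∈ F.filter (fun b => ρ * L ≤ Z b), Real.exp (0 * Z b)) / F.card = proportion F (fun b => ρ * L ≤ Z b) := by
      unfold proportion
      congr 1
      simp
    rw [e1, zero_add] at t1
    refine t1.trans ((mul_le_mul_of_nonneg_left m4 (Real.exp_pos _).le).trans ?_)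
    rw [← Real.exp_add]
    apply Real.exp_le_exp.2
    have e2 : -(a * ρ) * L + (a ^ 2 / 2 + h * a + δ ^ 2 / 8) * L = (-(a ^ 2 / 2) + δ ^ 2 / 8) * L := by
      have : ρ = a + h := by rw [ha]; ring
      rw [this]
      ring
    rw [e2, ← ha]
    apply mul_le_mul_of_nonneg_right _ hL0.le
    nlinarith

/-- the logarithm of the moments, for finitely many exponents -/
theorem finite_moments (β : ℕ) (hβ : 2 ≤ β) (T : Finset ℝ) : ∃ c D : ℝ, 0 < c ∧ 0 ≤ D ∧ ∀ κ ∈ T,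
    ∀ (x K r N : ℕ) (f : ℕ → ℕ), 1 ≤ x → 2 * r ≤ K → (x : ℝ) ≤ c * Real.sqrt r → N < β ^ K →
      (∀ j, f j < β ∧ f j ≠ digit β j N) → ∀ t : ℤ, (t = 1 ∨ t = -1) → ∀ u v : ℕ → ℝ, (∀ p, |u p| ≤ 1 + v p) →
      (∀ p, v p = 0 ∨ v p = 1) →
      0 < (freeChoices β K r N f x).card ∧
      |Real.log ((∑ S ∈ freeChoices β K r N f x, ∏ p ∈ primesBetween β x,
          (1 - u p * ((jacobiSym (t * (change β K N f S : ℕ)) p : ℝ) / Real.sqrt p) +
            v p * ((jacobiSym (t * (change β K N f S : ℕ)) p : ℝ) / Real.sqrt p) ^ 2) ^ (-κ)) /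
          (freeChoices β K r N f x).card) - ∑ p ∈ primesBetween β x, (κ * (κ + 1) * (u p) ^ 2 / 2 - κ * v p) / p| ≤ D := by
  classical
  induction T using Finset.induction_on with
  | empty => exact ⟨1, 0, one_pos, le_rfl, fun κ hκ => absurd hκ (notMem_empty κ)⟩
  | insert κ₁ T _ ih =>
    obtain ⟨c₁, D₁, hc₁, hD₁, H₁⟩ := ih
    obtain ⟨c₂, C₂, hc₂, hC₂, H₂⟩ := real_moments β hβ κ₁
    refine ⟨min c₁ c₂, max D₁ |Real.log C₂|, lt_min hc₁ hc₂, hD₁.trans (le_max_left _ _),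
      fun κ hκ x K r N f hx hrK hxr hN hf t ht u v hu hv => ?_⟩
    have hs := Real.sqrt_nonneg (r : ℝ)
    rcases mem_insert.1 hκ with rfl | hκ
    · obtain ⟨h0, h1, h2⟩ := H₂ x K r N f hx hrK (hxr.trans (mul_le_mul_of_nonneg_right (min_le_right _ _) hs)) hN hf t ht
        u v hu hv
      refine ⟨h0, le_trans ?_ (le_max_right _ _)⟩
      obtain ⟨V, hV⟩ : ∃ V : ℝ, V = (∑ S ∈ freeChoices β K r N f x, ∏ p ∈ primesBetween β x,
          (1 - u p * ((jacobiSym (t * (change β K N f S : ℕ)) p : ℝ) / Real.sqrt p) +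
            v p * ((jacobiSym (t * (change β K N f S : ℕ)) p : ℝ) / Real.sqrt p) ^ 2) ^ (-κ)) /
          (freeChoices β K r N f x).card := ⟨_, rfl⟩
      rw [← hV] at h1 h2 ⊢
      have hV0 : 0 < V := lt_of_lt_of_le (mul_pos (inv_pos.2 hC₂) (Real.exp_pos _)) h1
      have h5 := Real.log_le_log (mul_pos (inv_pos.2 hC₂) (Real.exp_pos _)) h1
      have h6 := Real.log_le_log hV0 h2
      rw [Real.log_mul (inv_pos.2 hC₂).ne' (Real.exp_pos _).ne', Real.log_exp, Real.log_inv] at h5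
      rw [Real.log_mul hC₂.ne' (Real.exp_pos _).ne', Real.log_exp] at h6
      have h7 := neg_abs_le (Real.log C₂)
      have h8 := le_abs_self (Real.log C₂)
      rw [abs_le]
      constructor <;> linarith
    · obtain ⟨h0, h1⟩ := H₁ κ hκ x K r N f hx hrK (hxr.trans (mul_le_mul_of_nonneg_right (min_le_left _ _) hs)) hN hf t ht
        u v hu hv
      exact ⟨h0, h1.trans (le_max_left _ _)⟩

/-- the product of the Euler factors -/
noncomputable def euler (β x : ℕ) (u v : ℕ → ℝ) (D : ℤ) : ℝ :=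
  ∏ p ∈ primesBetween β x, (1 - u p * ((jacobiSym D p : ℝ) / Real.sqrt p) + v p * ((jacobiSym D p : ℝ) / Real.sqrt p) ^ 2)

lemma factor_pos {β x p : ℕ} (hβ : 2 ≤ β) (hp : p ∈ primesBetween β x) (u v : ℝ) (hu : |u| ≤ 1 + v) (hv : v = 0 ∨ v = 1) (D : ℤ) :
    0 < 1 - u * ((jacobiSym D p : ℝ) / Real.sqrt p) + v * ((jacobiSym D p : ℝ) / Real.sqrt p) ^ 2 := by
  obtain ⟨g1, g2, g3, g4⟩ := mem_between hβ hp
  have h1 := factor_ge g2 hu hv
  have h2 := factor_ge g2 (u := -u) (by rwa [abs_neg]) hv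
  rcases jacobiSym.trichotomy D p with h | h | h
  · rw [h]
    norm_num
  · rw [h]
    rw [Int.cast_one]
    linarith
  · rw [h]
    have e : 1 - u * (((-1 : ℤ) : ℝ) / Real.sqrt p) + v * (((-1 : ℤ) : ℝ) / Real.sqrt p) ^ 2 =
        1 - -u * (1 / Real.sqrt p) + v * (1 / Real.sqrt p) ^ 2 := by
      push_cast
      ring
    rw [e]
    linarith

lemma euler_pos {β x : ℕ} (hβ : 2 ≤ β) (u v : ℕ → ℝ) (hu : ∀ p, |u p| ≤ 1 + v p) (hv : ∀ p, v p = 0 ∨ v p = 1) (D : ℤ) :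
    0 < euler β x u v D := prod_pos fun p hp => factor_pos hβ hp (u p) (v p) (hu p) (hv p) D

/-- large deviations over the free choices -/
theorem ld_family (β : ℕ) (hβ : 2 ≤ β) (h : ℝ) {Θ : Type} (u v : Θ → ℕ → ℝ) (hu : ∀ θ p, |u θ p| ≤ 1 + v θ p)
    (hv : ∀ θ p, v θ p = 0 ∨ v θ p = 1)
    (hX : ∀ κ ε' : ℝ, 0 < ε' → ∃ X₂ : ℕ, ∀ θ, ∀ x : ℕ, X₂ ≤ x →
      |∑ p ∈ primesBetween β x, (κ * (κ + 1) * (u θ p) ^ 2 / 2 - κ * v θ p) / p - (κ ^ 2 / 2 + h * κ) * Real.log (Real.log x)| ≤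
        ε' * Real.log (Real.log x))
    (s : ℝ) (hs : s = 1 ∨ s = -1) (ρ ε : ℝ) (hρ : s * h ≤ ρ) (hε : 0 < ε) :
    ∃ (c : ℝ) (X₀ : ℕ), 0 < c ∧ 16 ≤ X₀ ∧ ∀ (θ : Θ) (x K r N : ℕ) (f : ℕ → ℕ), X₀ ≤ x → 2 * r ≤ K →
      (x : ℝ) ≤ c * Real.sqrt r → N < β ^ K → (∀ j, f j < β ∧ f j ≠ digit β j N) → ∀ t : ℤ, (t = 1 ∨ t = -1) →
      Real.log x ^ (-((ρ - s * h) ^ 2 / 2) - ε) ≤ proportion (freeChoices β K r N f x)
        (fun S => ρ * Real.log (Real.log x) ≤ -s * Real.log (euler β x (u θ) (v θ) (t * (change β K N f S : ℕ)))) ∧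
      proportion (freeChoices β K r N f x)
        (fun S => ρ * Real.log (Real.log x) ≤ -s * Real.log (euler β x (u θ) (v θ) (t * (change β K N f S : ℕ)))) ≤
        Real.log x ^ (-((ρ - s * h) ^ 2 / 2) + ε) := by
  classical
  obtain ⟨T, ε₁, L₀, hε₁, hL₀, HL⟩ := ld (s * h) ρ ε hρ hε
  obtain ⟨c, D, hc, hD, HM⟩ := finite_moments β hβ (insert 0 (T.image fun κ => s * κ))
  have hs2 : s ^ 2 = 1 := by rcases hs with rfl | rfl <;> norm_num
  -- the sums, for all `κ ∈ T`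
  have hX' : ∀ T' : Finset ℝ, ∃ X₂ : ℕ, ∀ κ ∈ T', ∀ θ, ∀ x : ℕ, X₂ ≤ x →
      |∑ p ∈ primesBetween β x, ((s * κ) * ((s * κ) + 1) * (u θ p) ^ 2 / 2 - (s * κ) * v θ p) / p -
        (κ ^ 2 / 2 + (s * h) * κ) * Real.log (Real.log x)| ≤ ε₁ / 2 * Real.log (Real.log x) := by
    intro T'
    induction T' using Finset.induction_on with
    | empty => exact ⟨0, fun κ hκ => absurd hκ (notMem_empty κ)⟩
    | insert κ₁ T' _ ih =>
      obtain ⟨Y₁, hY₁⟩ := ih
      obtain ⟨Y₂, hY₂⟩ := hX (s * κ₁) (ε₁ / 2) (by positivity)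
      refine ⟨max Y₁ Y₂, fun κ hκ θ x hx => ?_⟩
      rcases mem_insert.1 hκ with rfl | hκ
      · have h1 := hY₂ θ x ((le_max_right _ _).trans hx)
        have e : (s * κ) ^ 2 / 2 + h * (s * κ) = κ ^ 2 / 2 + (s * h) * κ := by
          rw [mul_pow, hs2]
          ring
        rwa [e] at h1
      · exact hY₁ κ hκ θ x ((le_max_left _ _).trans hx)
  obtain ⟨X₂, hX₂⟩ := hX' T
  obtain ⟨X₁, hX₁⟩ := Filter.eventually_atTop.1 ((Pool.Agent.Q28.BP.tendsto_loglog.eventually_ge_atTop L₀).and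
    (Pool.Agent.Q28.BP.tendsto_loglog.eventually_ge_atTop (D / (ε₁ / 2))))
  refine ⟨c, max (max X₁ X₂) 16, hc, le_max_right _ _, fun θ x K r N f hx hrK hxr hN hf t ht => ?_⟩
  have hx1 : X₁ ≤ x := ((le_max_left _ _).trans (le_max_left _ _)).trans hx
  have hx2 : X₂ ≤ x := ((le_max_right _ _).trans (le_max_left _ _)).trans hx
  have hx16 : 16 ≤ x := (le_max_right _ _).trans hx
  obtain ⟨k1, k2⟩ := hX₁ x hx1
  rw [div_le_iff₀ (by positivity)] at k2
  have hlx : 0 < Real.log x := Real.log_pos (by exact_mod_cast (by omega : 1 < x))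
  obtain ⟨W, hW⟩ : ∃ W : Finset ℕ → ℝ, W = fun S => euler β x (u θ) (v θ) (t * (change β K N f S : ℕ)) := ⟨_, rfl⟩
  have hW0 : ∀ S, 0 < W S := fun S => by
    rw [hW]
    exact euler_pos hβ (u θ) (v θ) (hu θ) (hv θ) _
  have hFne : (freeChoices β K r N f x).Nonempty :=
    card_pos.1 (HM 0 (mem_insert_self _ _) x K r N f (by omega) hrK hxr hN hf t ht (u θ) (v θ) (hu θ) (hv θ)).1
  have key := HL (freeChoices β K r N f x) (fun S => -s * Real.log (W S)) (Real.log (Real.log x)) hFne k1 (fun κ hκ => by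
    obtain ⟨-, h2⟩ := HM (s * κ) (mem_insert_of_mem (mem_image_of_mem _ hκ)) x K r N f (by omega) hrK hxr hN hf t ht (u θ) (v θ) (hu θ) (hv θ)
    have h3 := hX₂ κ hκ θ x hx2
    have e1 : expAvg (freeChoices β K r N f x) (fun S => -s * Real.log (W S)) κ =
        (∑ S ∈ freeChoices β K r N f x, ∏ p ∈ primesBetween β x,
          (1 - u θ p * ((jacobiSym (t * (change β K N f S : ℕ)) p : ℝ) / Real.sqrt p) +
            v θ p * ((jacobiSym (t * (change β K N f S : ℕ)) p : ℝ) / Real.sqrt p) ^ 2) ^ (-(s * κ))) /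
          (freeChoices β K r N f x).card := by
      unfold expAvg
      congr 1
      refine sum_congr rfl fun S _ => ?_
      have e2 : Real.exp (κ * (-s * Real.log (W S))) = W S ^ (-(s * κ)) := by
        rw [Real.rpow_def_of_pos (hW0 S)]
        congr 1
        ring
      rw [e2, hW]
      unfold euler
      rw [← Real.finsetProd_rpow _ _ (fun p hp => (factor_pos hβ hp (u θ p) (v θ p) (hu θ p) (hv θ p) _).le)]
    rw [e1]
    refine le_trans (le_of_eq ?_) ((abs_add_le _ _).trans (add_le_add h2 h3) |>.trans (by linarith : D + ε₁ / 2 * Real.log (Real.log x) ≤ ε₁ * Real.log (Real.log x)))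
    congr 1
    ring)
  rw [hW] at key
  have e3 : ∀ y : ℝ, Real.log x ^ y = Real.exp (y * Real.log (Real.log x)) := by
    intro y
    rw [Real.rpow_def_of_pos hlx, mul_comm]
  rw [e3, e3]
  exact key

end Pool.Agent.Q235.FE
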