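import Pool.Agent.Q235.FE.Cv
import Pool.Agent.Q235.FE.Ld

/-! Exponential moments over all the curves, ordered by height. -/

set_option autoImplicit false

namespace Pool.Agent.Q235.FE

open Finset
open Pool.Agent.Q28.BP (lg YY TT FF box box_sub FF_card_nat lg_congr sum_inv_loglog sum32 rpow32 le_YY YY_spec)
open Pool.Agent.W263.BSD (pointCount GoodPrime)

lemma period_add {Q : ℕ} {f : ℤ → ℝ} (hf : ∀ n, f (n + Q) = f n) (k : ℕ) (n : ℤ) : f (n + (Q * k : ℕ)) = f n := by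
  induction k with
  | zero => simp
  | succ k ih =>
    have e : n + ((Q * (k + 1) : ℕ) : ℤ) = (n + ((Q * k : ℕ) : ℤ)) + (Q : ℤ) := by push_cast; ring
    rw [e, hf, ih]

lemma period_sum {Q : ℕ} {f : ℤ → ℝ} (hf : ∀ n, f (n + Q) = f n) (k : ℕ) :
    ∑ m ∈ range (Q * k), f (m : ℤ) = k * ∑ m ∈ range Q, f (m : ℤ) := by
  induction k with
  | zero => simp
  | succ k ih =>
    rw [Nat.mul_succ, sum_range_add, ih]
    have h1 : ∑ m ∈ range Q, f (((Q * k + m : ℕ)) : ℤ) = ∑ m ∈ range Q, f (m : ℤ) := by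
      refine sum_congr rfl fun m _ => ?_
      have e : (((Q * k + m : ℕ)) : ℤ) = (m : ℤ) + ((Q * k : ℕ) : ℤ) := by push_cast; ring
      rw [e, period_add hf]
    rw [h1]
    push_cast
    ring

lemma per_up {Q S : ℕ} (hQ : 1 ≤ Q) (hS : Q ≤ S) {f : ℤ → ℝ} (h0 : ∀ n, 0 ≤ f n) (hf : ∀ n, f (n + Q) = f n) :
    ∑ n ∈ Icc (-(S : ℤ)) S, f n ≤ 5 * S / Q * ∑ i ∈ range Q, f (i : ℤ) := by
  classical
  obtain ⟨k, hk⟩ : ∃ k, k = S / Q + 1 := ⟨_, rfl⟩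
  have hSk : S < Q * k := by rw [hk]; exact Nat.lt_mul_div_succ S (by omega)
  have hSk' : (S : ℤ) < ((Q * k : ℕ) : ℤ) := by exact_mod_cast hSk
  have h1 : ∑ n ∈ Icc (-(S : ℤ)) S, f n ≤ ∑ m ∈ range (Q * (2 * k)), f (m : ℤ) := by
    have e : ∑ n ∈ Icc (-(S : ℤ)) S, f n =
        ∑ m ∈ (Icc (-(S : ℤ)) S).image (fun n => (n + ((Q * k : ℕ) : ℤ)).toNat), f (m : ℤ) := by
      rw [sum_image]
      · refine sum_congr rfl fun n hn => ?_
        rw [mem_Icc] at hn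
        rw [Int.toNat_of_nonneg (by linarith [hn.1]), period_add hf]
      · intro n hn n' hn' h
        rw [mem_coe, mem_Icc] at hn hn'
        simp only at h
        omega
    rw [e]
    refine sum_le_sum_of_subset_of_nonneg (fun m hm => ?_) (fun _ _ _ => h0 _)
    obtain ⟨n, hn, rfl⟩ := mem_image.1 hm
    rw [mem_Icc] at hn
    rw [mem_range]
    have e2 : Q * (2 * k) = Q * k + Q * k := by ring
    omega
  rw [period_sum hf] at h1
  refine h1.trans (mul_le_mul_of_nonneg_right ?_ (sum_nonneg fun _ _ => h0 _))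
  have hQr : (0 : ℝ) < Q := by exact_mod_cast (by omega : 0 < Q)
  have h2 : ((S / Q : ℕ) : ℝ) ≤ (S : ℝ) / Q := Nat.cast_div_le
  have h3 : 1 ≤ (S : ℝ) / Q := by
    rw [le_div_iff₀ hQr, one_mul]
    exact_mod_cast hS
  have e3 : 5 * (S : ℝ) / Q = 5 * ((S : ℝ) / Q) := by ring
  rw [hk, e3]
  push_cast
  linarith

lemma per_lo {Q S : ℕ} (hQ : 1 ≤ Q) (hS : Q ≤ S) {f : ℤ → ℝ} (h0 : ∀ n, 0 ≤ f n) (hf : ∀ n, f (n + Q) = f n) :
    (S : ℝ) / (2 * Q) * ∑ i ∈ range Q, f (i : ℤ) ≤ ∑ n ∈ Ioc 0 S, f (n : ℤ) := by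
  classical
  obtain ⟨k, hk⟩ : ∃ k, k = S / Q := ⟨_, rfl⟩
  have hSk : Q * k ≤ S := by rw [hk]; exact Nat.mul_div_le S Q
  have hSk2 : S < Q * (k + 1) := by rw [hk]; exact Nat.lt_mul_div_succ S (by omega)
  have hk1 : 1 ≤ k := by
    rw [hk]
    exact Nat.div_pos hS (by omega)
  have hf' : ∀ n : ℤ, (fun n : ℤ => f (n + 1)) (n + Q) = (fun n : ℤ => f (n + 1)) n := by
    intro n
    show f (n + Q + 1) = f (n + 1)
    rw [add_right_comm, hf]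
  have h1 : ∑ m ∈ range (Q * k), f ((m : ℤ) + 1) ≤ ∑ n ∈ Ioc 0 S, f (n : ℤ) := by
    have e : ∑ m ∈ range (Q * k), f ((m : ℤ) + 1) = ∑ n ∈ (range (Q * k)).image (fun m : ℕ => (m + 1 : ℕ)), f ((n : ℕ) : ℤ) := by
      rw [sum_image]
      · exact sum_congr rfl fun m _ => by push_cast; rfl
      · intro m _ m' _ h
        simp only at h
        omega
    rw [e]
    refine sum_le_sum_of_subset_of_nonneg (fun m hm => ?_) (fun _ _ _ => h0 _)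
    obtain ⟨n, hn, rfl⟩ := mem_image.1 hm
    rw [mem_range] at hn
    rw [mem_Ioc]
    omega
  have h2 : ∑ m ∈ range (Q * k), f ((m : ℤ) + 1) = k * ∑ m ∈ range Q, f ((m : ℤ) + 1) :=
    period_sum (f := fun n : ℤ => f (n + 1)) hf' k
  have h3 : ∑ m ∈ range Q, f ((m : ℤ) + 1) = ∑ m ∈ range Q, f (m : ℤ) := by
    have e1 := sum_range_succ (fun m : ℕ => f (m : ℤ)) Q
    have e2 := sum_range_succ' (fun m : ℕ => f (m : ℤ)) Q
    have e3 : f ((Q : ℕ) : ℤ) = f ((0 : ℕ) : ℤ) := by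
      have := hf 0
      rw [zero_add] at this
      simpa using this
    push_cast at e1 e2 e3
    linarith
  rw [h2, h3] at h1
  refine le_trans (mul_le_mul_of_nonneg_right ?_ (sum_nonneg fun _ _ => h0 _)) h1
  have hQr : (0 : ℝ) < Q := by exact_mod_cast (by omega : 0 < Q)
  rw [div_le_iff₀ (by positivity)]
  have h4 : S ≤ k * (2 * Q) := by nlinarith
  exact_mod_cast h4

lemma per_up2 {Q S T : ℕ} (hQ : 1 ≤ Q) (hS : Q ≤ S) (hT : Q ≤ T) {F : ℤ → ℤ → ℝ} (h0 : ∀ a b, 0 ≤ F a b)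
    (h1 : ∀ a b, F (a + Q) b = F a b) (h2 : ∀ a b, F a (b + Q) = F a b) :
    ∑ q ∈ Icc (-(S : ℤ)) S ×ˢ Icc (-(T : ℤ)) T, F q.1 q.2 ≤
      25 * (S * T) * ((∑ i ∈ range Q, ∑ j ∈ range Q, F (i : ℤ) (j : ℤ)) / (Q : ℝ) ^ 2) := by
  rw [sum_product]
  have hQr : (0 : ℝ) < Q := by exact_mod_cast (by omega : 0 < Q)
  refine (sum_le_sum fun a _ => per_up hQ hT (h0 a) (h2 a)).trans ?_
  rw [← mul_sum]
  have h3 := per_up (f := fun a => ∑ j ∈ range Q, F a (j : ℤ)) hQ hS (fun a => sum_nonneg fun _ _ => h0 _ _)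
    (fun a => sum_congr rfl fun j _ => h1 _ _)
  refine (mul_le_mul_of_nonneg_left h3 (by positivity)).trans (le_of_eq ?_)
  field_simp
  ring

lemma per_lo2 {Q S T : ℕ} (hQ : 1 ≤ Q) (hS : Q ≤ S) (hT : Q ≤ T) {F : ℤ → ℤ → ℝ} (h0 : ∀ a b, 0 ≤ F a b)
    (h1 : ∀ a b, F (a + Q) b = F a b) (h2 : ∀ a b, F a (b + Q) = F a b) :
    (S * T : ℝ) / 4 * ((∑ i ∈ range Q, ∑ j ∈ range Q, F (i : ℤ) (j : ℤ)) / (Q : ℝ) ^ 2) ≤
      ∑ q ∈ Ioc 0 S ×ˢ Ioc 0 T, F (q.1 : ℤ) (q.2 : ℤ) := by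
  rw [sum_product]
  have hQr : (0 : ℝ) < Q := by exact_mod_cast (by omega : 0 < Q)
  refine le_trans ?_ (sum_le_sum fun a _ => per_lo hQ hT (h0 (a : ℤ)) (h2 (a : ℤ)))
  rw [← mul_sum]
  have h3 := per_lo (f := fun a => ∑ j ∈ range Q, F a (j : ℤ)) hQ hS (fun a => sum_nonneg fun _ _ => h0 _ _)
    (fun a => sum_congr rfl fun j _ => h1 _ _)
  refine le_trans (le_of_eq ?_) (mul_le_mul_of_nonneg_left h3 (by positivity))
  field_simp
  ring

lemma sum_box_two (q : ℕ) (F : ℕ → ℕ → ℂ) :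
    ∑ n ∈ Pool.Agent.TH894.NE.box 2 q, F (n 0) (n 1) = ∑ i ∈ range q, ∑ j ∈ range q, F i j := by
  rw [← sum_product']
  refine sum_nbij' (fun n => (n 0, n 1)) (fun q => ![q.1, q.2]) ?_ ?_ ?_ ?_ ?_
  · intro n hn
    rw [Pool.Agent.TH894.NE.mem_box] at hn
    rw [mem_product, mem_range, mem_range]
    exact ⟨hn 0, hn 1⟩
  · intro n hn
    rw [mem_product, mem_range, mem_range] at hn
    rw [Pool.Agent.TH894.NE.mem_box]
    intro i
    fin_cases i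
    · exact hn.1
    · exact hn.2
  · intro n _
    funext i
    fin_cases i <;> rfl
  · intro n _
    rfl
  · intro n _
    rfl

/-- the product formula for the sums over the residues -/
lemma sum_prod_two (P : Finset ℕ) (hP : ∀ p ∈ P, p.Prime) (g : ℕ → ℤ → ℤ → ℝ)
    (hg : ∀ p ∈ P, ∀ a b a' b' : ℤ, (a : ZMod p) = a' → (b : ZMod p) = b' → g p a b = g p a' b') :
    (∑ i ∈ range (∏ p ∈ P, p), ∑ j ∈ range (∏ p ∈ P, p), ∏ p ∈ P, g p (i : ℤ) (j : ℤ)) / ((∏ p ∈ P, p : ℕ) : ℝ) ^ 2 =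
      ∏ p ∈ P, ((∑ i ∈ range p, ∑ j ∈ range p, g p (i : ℤ) (j : ℤ)) / (p : ℝ) ^ 2) := by
  classical
  have h := mean_prodC (d := 2) P (fun p => p) (fun p hp => (hP p hp).one_lt.le)
    (fun p hp q hq hne => (Nat.coprime_primes (hP p hp) (hP q hq)).2 hne)
    (fun p n => ((g p ((n 0 : ℕ) : ℤ) ((n 1 : ℕ) : ℤ) : ℝ) : ℂ)) (fun p hp n => by
      have : g p ((n 0 : ℕ) : ℤ) ((n 1 : ℕ) : ℤ) = g p ((n 0 % p : ℕ) : ℤ) ((n 1 % p : ℕ) : ℤ) := by
        refine hg p hp _ _ _ _ ?_ ?_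
        · rw [Int.cast_natCast, Int.cast_natCast, ZMod.natCast_mod]
        · rw [Int.cast_natCast, Int.cast_natCast, ZMod.natCast_mod]
      show ((g p ((n 0 : ℕ) : ℤ) ((n 1 : ℕ) : ℤ) : ℝ) : ℂ) = ((g p ((n 0 % p : ℕ) : ℤ) ((n 1 % p : ℕ) : ℤ) : ℝ) : ℂ)
      rw [this])
  have e1 : ∀ (q : ℕ) (F : ℕ → ℕ → ℝ), meanC 2 q (fun n => ((F (n 0) (n 1) : ℝ) : ℂ)) =
      (((∑ i ∈ range q, ∑ j ∈ range q, F i j) / (q : ℝ) ^ 2 : ℝ) : ℂ) := by
    intro q F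
    unfold meanC
    rw [sum_box_two q (fun i j => ((F i j : ℝ) : ℂ))]
    push_cast
    ring
  have e2 : meanC 2 (∏ p ∈ P, p) (fun n => ∏ p ∈ P, ((g p ((n 0 : ℕ) : ℤ) ((n 1 : ℕ) : ℤ) : ℝ) : ℂ)) =
      meanC 2 (∏ p ∈ P, p) (fun n => (((fun i j : ℕ => ∏ p ∈ P, g p (i : ℤ) (j : ℤ)) (n 0) (n 1) : ℝ) : ℂ)) := by
    congr 1
    funext n
    push_cast
    rfl
  rw [e2.trans (e1 (∏ p ∈ P, p) (fun i j : ℕ => ∏ p ∈ P, g p (i : ℤ) (j : ℤ))),
    prod_congr rfl fun p _ => e1 p (fun i j => g p (i : ℤ) (j : ℤ))] at h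
  have h' : (((∑ i ∈ range (∏ p ∈ P, p), ∑ j ∈ range (∏ p ∈ P, p), ∏ p ∈ P, g p (i : ℤ) (j : ℤ)) /
      ((∏ p ∈ P, p : ℕ) : ℝ) ^ 2 : ℝ) : ℂ) = ((∏ p ∈ P, ((∑ i ∈ range p, ∑ j ∈ range p, g p (i : ℤ) (j : ℤ)) / (p : ℝ) ^ 2) : ℝ) : ℂ) := by
    rw [Complex.ofReal_prod]
    exact h
  exact Complex.ofReal_injective h'

/-- the primes up to `x` -/
def upTo (x : ℕ) : Finset ℕ := (range (x + 1)).filter Nat.Prime

lemma mem_upTo {x p : ℕ} : p ∈ upTo x ↔ p ≤ x ∧ p.Prime := by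
  unfold upTo
  rw [mem_filter, mem_range, Nat.lt_succ_iff]

/-- the logarithm of the product -/
noncomputable def ZZ (x : ℕ) (q : ℤ × ℤ) : ℝ := ∑ p ∈ upTo x, lg q.1 q.2 p

/-- the local function without the residue `(0, 0)` -/
noncomputable def gg (κ : ℝ) (p : ℕ) (a b : ℤ) : ℝ :=
  if (a : ZMod p) = 0 ∧ (b : ZMod p) = 0 then 0 else Real.exp (κ * lg a b p)

lemma sum_gg (κ : ℝ) {p : ℕ} (hp : p.Prime) : (∑ i ∈ range p, ∑ j ∈ range p, gg κ p (i : ℤ) (j : ℤ)) / (p : ℝ) ^ 2 =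
    locMean κ p - 1 / (p : ℝ) ^ 2 := by
  classical
  have hp0 : (p : ℝ) ≠ 0 := by exact_mod_cast hp.ne_zero
  have h0 : lg 0 0 p = 0 := by
    unfold lg
    rw [if_neg]
    rintro ⟨_, h⟩
    exact h (by simp)
  have h1 : ∀ i ∈ range p, ∀ j ∈ range p, gg κ p (i : ℤ) (j : ℤ) =
      Real.exp (κ * lg (i : ℤ) (j : ℤ) p) - (if i = 0 then (if j = 0 then 1 else 0) else 0) := by
    intro i hi j hj
    have key : ∀ k ∈ range p, (((k : ℕ) : ℤ) : ZMod p) = 0 ↔ k = 0 := by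
      intro k hk
      rw [Int.cast_natCast, ZMod.natCast_eq_zero_iff]
      constructor
      · intro h
        by_contra hne
        have := Nat.le_of_dvd (by omega) h
        have := mem_range.1 hk
        omega
      · rintro rfl
        exact dvd_zero _
    unfold gg
    simp only [key i hi, key j hj]
    by_cases hi0 : i = 0
    · by_cases hj0 : j = 0
      · rw [if_pos ⟨hi0, hj0⟩, if_pos hi0, if_pos hj0, hi0, hj0]
        rw [Nat.cast_zero, h0, mul_zero, Real.exp_zero, sub_self]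
      · rw [if_neg (fun h => hj0 h.2), if_pos hi0, if_neg hj0, sub_zero]
    · rw [if_neg (fun h => hi0 h.1), if_neg hi0, sub_zero]
  rw [sum_congr rfl fun i hi => sum_congr rfl fun j hj => h1 i hi j hj]
  simp only [sum_sub_distrib]
  have h2 : ∑ i ∈ range p, ∑ j ∈ range p, (if i = 0 then (if j = 0 then (1 : ℝ) else 0) else 0) = 1 := by
    rw [sum_eq_single 0]
    · rw [sum_eq_single 0]
      · simp
      · intro j _ hj
        simp [hj]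
      · intro h
        exact absurd (mem_range.2 hp.pos) h
    · intro i _ hi
      simp [hi]
    · intro h
      exact absurd (mem_range.2 hp.pos) h
  rw [h2, sub_div]
  rfl

lemma exp_ZZ (κ : ℝ) (x : ℕ) (q : ℤ × ℤ) : Real.exp (κ * ZZ x q) = ∏ p ∈ upTo x, Real.exp (κ * lg q.1 q.2 p) := by
  unfold ZZ
  rw [mul_sum, Real.exp_sum]

lemma lg_add_left {p : ℕ} {Q : ℕ} (h : p ∣ Q) (a b : ℤ) : lg (a + Q) b p = lg a b p := by
  refine lg_congr ?_ rfl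
  rw [Int.cast_add, Int.cast_natCast, (ZMod.natCast_eq_zero_iff Q p).2 h, add_zero]

lemma lg_add_right {p : ℕ} {Q : ℕ} (h : p ∣ Q) (a b : ℤ) : lg a (b + Q) p = lg a b p := by
  refine lg_congr rfl ?_
  rw [Int.cast_add, Int.cast_natCast, (ZMod.natCast_eq_zero_iff Q p).2 h, add_zero]

/-- the upper bound over the full box -/
lemma full_up (κ : ℝ) {x S T : ℕ} (hS : ∏ p ∈ upTo x, p ≤ S) (hT : ∏ p ∈ upTo x, p ≤ T) :
    ∑ q ∈ Icc (-(S : ℤ)) S ×ˢ Icc (-(T : ℤ)) T, Real.exp (κ * ZZ x q) ≤ 25 * (S * T) * ∏ p ∈ upTo x, locMean κ p := by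
  have hQ : 1 ≤ ∏ p ∈ upTo x, p := Nat.one_le_iff_ne_zero.2 (prod_ne_zero_iff.2 fun p hp => (mem_upTo.1 hp).2.ne_zero)
  have h1 := per_up2 (F := fun a b => ∏ p ∈ upTo x, Real.exp (κ * lg a b p)) hQ hS hT
    (fun a b => prod_nonneg fun _ _ => (Real.exp_pos _).le)
    (fun a b => prod_congr rfl fun p hp => by rw [lg_add_left (dvd_prod_of_mem (fun p => p) hp)])
    (fun a b => prod_congr rfl fun p hp => by rw [lg_add_right (dvd_prod_of_mem (fun p => p) hp)])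
  rw [sum_prod_two (upTo x) (fun p hp => (mem_upTo.1 hp).2) (fun p a b => Real.exp (κ * lg a b p))
    (fun p _ a b a' b' ha hb => by rw [lg_congr ha hb])] at h1
  rw [sum_congr rfl fun q _ => exp_ZZ κ x q]
  exact h1

/-- the lower bound over the quadrant -/
lemma quad_lo (κ : ℝ) {x S T : ℕ} (hS : ∏ p ∈ upTo x, p ≤ S) (hT : ∏ p ∈ upTo x, p ≤ T) :
    (S * T : ℝ) / 4 * ∏ p ∈ upTo x, (locMean κ p - 1 / (p : ℝ) ^ 2) ≤
      ∑ q ∈ Ioc 0 S ×ˢ Ioc 0 T, ∏ p ∈ upTo x, gg κ p (q.1 : ℤ) (q.2 : ℤ) := by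
  have hQ : 1 ≤ ∏ p ∈ upTo x, p := Nat.one_le_iff_ne_zero.2 (prod_ne_zero_iff.2 fun p hp => (mem_upTo.1 hp).2.ne_zero)
  have hadd : ∀ p ∈ upTo x, ∀ a : ℤ, (((a + ((∏ p ∈ upTo x, p : ℕ) : ℤ) : ℤ)) : ZMod p) = (a : ZMod p) := by
    intro p hp a
    rw [Int.cast_add, Int.cast_natCast, (ZMod.natCast_eq_zero_iff _ p).2 (dvd_prod_of_mem (fun p => p) hp), add_zero]
  have hgg : ∀ p : ℕ, ∀ a b a' b' : ℤ, (a : ZMod p) = a' → (b : ZMod p) = b' → gg κ p a b = gg κ p a' b' := by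
    intro p a b a' b' ha hb
    unfold gg
    rw [lg_congr ha hb, ha, hb]
  have h1 := per_lo2 (F := fun a b => ∏ p ∈ upTo x, gg κ p a b) hQ hS hT
    (fun a b => prod_nonneg fun p _ => by unfold gg; split_ifs <;> positivity)
    (fun a b => prod_congr rfl fun p hp => hgg p _ _ _ _ (hadd p hp a) rfl)
    (fun a b => prod_congr rfl fun p hp => hgg p _ _ _ _ rfl (hadd p hp b))
  rw [sum_prod_two (upTo x) (fun p hp => (mem_upTo.1 hp).2) (fun p a b => gg κ p a b)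
    (fun p _ a b a' b' ha hb => hgg p a b a' b' ha hb), prod_congr rfl fun p hp => sum_gg κ (mem_upTo.1 hp).2] at h1
  exact h1

end Pool.Agent.Q235.FE
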