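import Pool.Agent.Q235.FE.Ht

/-! Exponential moments over all the curves, ordered by height: the result. -/

set_option autoImplicit false

namespace Pool.Agent.Q235.FE

open Finset
open Pool.Agent.Q28.BP (lg YY TT FF box box_sub FF_card_nat lg_congr sum_inv_loglog sum32 rpow32 le_YY YY_spec tendsto_loglog)
open Pool.Agent.W263.BSD (pointCount GoodPrime)

/-- the sums over the curves, above -/
lemma FF_up (κ : ℝ) {x X : ℕ} (hS : ∏ p ∈ upTo x, p ≤ YY X) (hT : ∏ p ∈ upTo x, p ≤ Nat.sqrt (X / 27)) :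
    ∑ q ∈ FF X, Real.exp (κ * ZZ x q) ≤ 25 * ((YY X : ℝ) * (Nat.sqrt (X / 27) : ℝ)) * ∏ p ∈ upTo x, locMean κ p := by
  classical
  refine le_trans (sum_le_sum_of_subset_of_nonneg ?_ (fun _ _ _ => (Real.exp_pos _).le)) (full_up κ hS hT)
  intro q hq
  have h1 : q ∈ Pool.Agent.Q28.BP.box X := by
    unfold FF at hq
    exact (mem_filter.1 hq).1
  have h2 := box_sub X h1
  rw [mem_product, mem_Icc, mem_Ioo] at h2
  unfold TT at h2
  rw [mem_product, mem_Icc, mem_Icc]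
  push_cast at h2 ⊢
  omega

open Classical in
/-- the pairs divisible by large powers -/
noncomputable def badq (x S T : ℕ) : Finset (ℕ × ℕ) :=
  (Ioc 0 S ×ˢ Ioc 0 T).filter fun q => ∃ n : ℕ, x < n ∧ n ^ 4 ∣ q.1 ∧ n ^ 6 ∣ q.2

lemma badq_card {x S T : ℕ} (hx : 1 ≤ x) : ((badq x S T).card : ℝ) ≤ S * T / x := by
  classical
  have h1 : badq x S T ⊆
      (Ioc x S).biUnion fun p => (Ioc 0 S).filter (fun n => p ^ 4 ∣ n) ×ˢ (Ioc 0 T).filter (fun n => p ^ 6 ∣ n) := by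
    intro q hq
    unfold badq at hq
    rw [mem_filter, mem_product, mem_Ioc, mem_Ioc] at hq
    obtain ⟨⟨⟨h1, h2⟩, h3, h4⟩, p, hp, h5, h6⟩ := hq
    rw [mem_biUnion]
    refine ⟨p, ?_, ?_⟩
    · rw [mem_Ioc]
      have := Nat.le_of_dvd h1 h5
      exact ⟨hp, (Nat.le_self_pow (by norm_num) p).trans (this.trans h2)⟩
    · rw [mem_product, mem_filter, mem_filter, mem_Ioc, mem_Ioc]
      exact ⟨⟨⟨h1, h2⟩, h5⟩, ⟨h3, h4⟩, h6⟩
  have h2 : ((badq x S T).card : ℝ) ≤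
      ∑ p ∈ Ioc x S, ((((Ioc 0 S).filter (fun n => p ^ 4 ∣ n) ×ˢ
        (Ioc 0 T).filter (fun n => p ^ 6 ∣ n)).card : ℕ) : ℝ) := by
    exact_mod_cast (card_le_card h1).trans card_biUnion_le
  refine h2.trans ?_
  have h3 : ∀ p ∈ Ioc x S, ((((Ioc 0 S).filter (fun n => p ^ 4 ∣ n) ×ˢ
      (Ioc 0 T).filter (fun n => p ^ 6 ∣ n)).card : ℕ) : ℝ) ≤ (S * T) * ((p : ℝ) ^ 2)⁻¹ := by
    intro p hp
    rw [mem_Ioc] at hp
    have hp1 : (1 : ℝ) ≤ p := by exact_mod_cast (by omega : 1 ≤ p)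
    have hp0 : (0 : ℝ) < p := by linarith
    rw [card_product, Nat.Ioc_filter_dvd_card_eq_div, Nat.Ioc_filter_dvd_card_eq_div]
    push_cast
    have k1 : ((S / p ^ 4 : ℕ) : ℝ) ≤ S / (p : ℝ) ^ 4 := by
      have := @Nat.cast_div_le ℝ _ _ _ S (p ^ 4)
      push_cast at this
      exact this
    have k2 : ((T / p ^ 6 : ℕ) : ℝ) ≤ T / (p : ℝ) ^ 6 := by
      have := @Nat.cast_div_le ℝ _ _ _ T (p ^ 6)
      push_cast at this
      exact this
    calc ((S / p ^ 4 : ℕ) : ℝ) * ((T / p ^ 6 : ℕ) : ℝ) ≤ S / (p : ℝ) ^ 4 * (T / (p : ℝ) ^ 6) :=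
          mul_le_mul k1 k2 (Nat.cast_nonneg _) (by positivity)
      _ = S * T * ((p : ℝ) ^ 2)⁻¹ * (1 / (p : ℝ) ^ 8) := by field_simp
      _ ≤ S * T * ((p : ℝ) ^ 2)⁻¹ * 1 := by
          refine mul_le_mul_of_nonneg_left ?_ (by positivity)
          exact (div_le_one (by positivity)).2 (one_le_pow₀ hp1)
      _ = _ := by ring
  refine (sum_le_sum h3).trans ?_
  rw [← mul_sum]
  have hx0 : (0 : ℝ) < x := by exact_mod_cast (by omega : 0 < x)
  have h4 : ∑ p ∈ Ioc x S, ((p : ℝ) ^ 2)⁻¹ ≤ 1 / x := by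
    rcases Nat.lt_or_ge S x with h | h
    · rw [Ioc_eq_empty (by omega), sum_empty]
      positivity
    · refine (sum_Ioc_inv_sq_le_sub (by omega) h).trans ?_
      have : (0 : ℝ) ≤ (S : ℝ)⁻¹ := by positivity
      rw [one_div]
      linarith
  calc (S * T : ℝ) * ∑ p ∈ Ioc x S, ((p : ℝ) ^ 2)⁻¹ ≤ (S * T : ℝ) * (1 / x) := mul_le_mul_of_nonneg_left h4 (by positivity)
    _ = _ := by ring

/-- the contribution of the bad pairs -/
lemma bad_sum (κ : ℝ) {x S T : ℕ} (hx : 1 ≤ x) (hS : ∏ p ∈ upTo x, p ≤ S) (hT : ∏ p ∈ upTo x, p ≤ T) :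
    ∑ q ∈ badq x S T, Real.exp (κ * ZZ x ((q.1 : ℤ), (q.2 : ℤ))) ≤
      5 * (S * T) * Real.sqrt ((∏ p ∈ upTo x, locMean (2 * κ) p) / x) := by
  classical
  have h1 := sq_sum_le_card_mul_sum_sq (s := badq x S T) (f := fun q => Real.exp (κ * ZZ x ((q.1 : ℤ), (q.2 : ℤ))))
  have h2 : ∑ q ∈ badq x S T, Real.exp (κ * ZZ x ((q.1 : ℤ), (q.2 : ℤ))) ^ 2 ≤
      25 * (S * T) * ∏ p ∈ upTo x, locMean (2 * κ) p := by
    refine le_trans ?_ (full_up (2 * κ) hS hT)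
    have e : ∀ q ∈ badq x S T, Real.exp (κ * ZZ x ((q.1 : ℤ), (q.2 : ℤ))) ^ 2 =
        Real.exp (2 * κ * ZZ x ((fun q : ℕ × ℕ => ((q.1 : ℤ), (q.2 : ℤ))) q)) := by
      intro q _
      rw [← Real.exp_nat_mul]
      congr 1
      push_cast
      ring
    rw [sum_congr rfl e, ← sum_image (s := badq x S T) (g := fun q : ℕ × ℕ => ((q.1 : ℤ), (q.2 : ℤ)))
      (f := fun q => Real.exp (2 * κ * ZZ x q))]
    · refine sum_le_sum_of_subset_of_nonneg (fun q hq => ?_) (fun _ _ _ => (Real.exp_pos _).le)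
      obtain ⟨q', hq', rfl⟩ := mem_image.1 hq
      unfold badq at hq'
      rw [mem_filter, mem_product, mem_Ioc, mem_Ioc] at hq'
      rw [mem_product, mem_Icc, mem_Icc]
      have := hq'.1
      simp only
      omega
    · intro q _ q' _ h
      simp only [Prod.mk.injEq, Nat.cast_inj] at h
      exact Prod.ext h.1 h.2
  have hx0 : (0 : ℝ) < x := by exact_mod_cast (by omega : 0 < x)
  have hA : 0 ≤ ∏ p ∈ upTo x, locMean (2 * κ) p := prod_nonneg fun p _ => by unfold locMean; positivity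
  have h0 : 0 ≤ ∑ q ∈ badq x S T, Real.exp (κ * ZZ x ((q.1 : ℤ), (q.2 : ℤ))) := sum_nonneg fun _ _ => (Real.exp_pos _).le
  refine (sq_le_sq₀ h0 (by positivity)).1 (h1.trans ?_)
  rw [mul_pow, Real.sq_sqrt (by positivity)]
  calc ((badq x S T).card : ℝ) * ∑ q ∈ badq x S T, Real.exp (κ * ZZ x ((q.1 : ℤ), (q.2 : ℤ))) ^ 2
      ≤ (S * T / x) * (25 * (S * T) * ∏ p ∈ upTo x, locMean (2 * κ) p) :=
        mul_le_mul (badq_card hx) h2 (sum_nonneg fun _ _ => sq_nonneg _) (by positivity)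
    _ = _ := by ring

/-- the minimal pairs of the quadrant -/
lemma quad_FF {X : ℕ} {q : ℕ × ℕ} (a1 : 0 < q.1) (a2 : q.1 ≤ YY X) (a3 : 0 < q.2) (a4 : q.2 ≤ Nat.sqrt (X / 27))
    (a5 : ∀ p : ℕ, p.Prime → ¬ (p ^ 4 ∣ q.1 ∧ p ^ 6 ∣ q.2)) : ((q.1 : ℤ), (q.2 : ℤ)) ∈ FF X := by
  classical
  have b1 : 4 * q.1 ^ 3 ≤ X :=
    (Nat.mul_le_mul_left 4 (Nat.pow_le_pow_left a2 3)).trans (YY_spec X)
  have b2 : 27 * q.2 ^ 2 ≤ X := by
    have c1 : Nat.sqrt (X / 27) ^ 2 ≤ X / 27 := Nat.sqrt_le' _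
    have c2 : q.2 ^ 2 ≤ Nat.sqrt (X / 27) ^ 2 := Nat.pow_le_pow_left a4 2
    omega
  unfold FF Pool.Agent.Q28.BP.box
  rw [mem_filter, mem_filter, mem_product, mem_Icc, mem_Icc]
  have c3 := Nat.le_self_pow (show 3 ≠ 0 by norm_num) q.1
  have c4 := Nat.le_self_pow (show 2 ≠ 0 by norm_num) q.2
  refine ⟨⟨⟨⟨by simp only; omega, by simp only; omega⟩, by simp only; omega, by simp only; omega⟩,
    ?_, ?_⟩, ?_, ?_⟩
  · simp only [Nat.abs_cast]
    exact_mod_cast b1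
  · simp only
    exact_mod_cast b2
  · simp only
    have c5 : 0 < 4 * q.1 ^ 3 + 27 * q.2 ^ 2 := by positivity
    have c6 : (0 : ℤ) < 4 * (q.1 : ℤ) ^ 3 + 27 * (q.2 : ℤ) ^ 2 := by exact_mod_cast c5
    exact c6.ne'
  · intro p hp ⟨c7, c8⟩
    simp only at c7 c8
    exact a5 p hp ⟨by exact_mod_cast c7, by exact_mod_cast c8⟩

/-- the sums over the curves, below -/
lemma FF_lo (κ : ℝ) {x X : ℕ} (hS : ∏ p ∈ upTo x, p ≤ YY X) (hT : ∏ p ∈ upTo x, p ≤ Nat.sqrt (X / 27)) :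
    ((YY X : ℝ) * (Nat.sqrt (X / 27) : ℝ)) / 4 * ∏ p ∈ upTo x, (locMean κ p - 1 / (p : ℝ) ^ 2) ≤
      ∑ q ∈ FF X, Real.exp (κ * ZZ x q) +
      ∑ q ∈ badq x (YY X) (Nat.sqrt (X / 27)), Real.exp (κ * ZZ x ((q.1 : ℤ), (q.2 : ℤ))) := by
  classical
  obtain ⟨S, hS'⟩ : ∃ S, S = YY X := ⟨_, rfl⟩
  obtain ⟨T, hT'⟩ : ∃ T, T = Nat.sqrt (X / 27) := ⟨_, rfl⟩
  rw [← hS', ← hT']
  rw [← hS'] at hS
  rw [← hT'] at hT
  refine (quad_lo κ hS hT).trans ?_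
  obtain ⟨M, hM⟩ : ∃ M : Finset (ℕ × ℕ), M = (Ioc 0 S ×ˢ Ioc 0 T).filter fun q =>
    ∀ p : ℕ, p.Prime → ¬ (p ^ 4 ∣ q.1 ∧ p ^ 6 ∣ q.2) := ⟨_, rfl⟩
  have h1 : ∑ q ∈ M, Real.exp (κ * ZZ x ((q.1 : ℤ), (q.2 : ℤ))) ≤ ∑ q ∈ FF X, Real.exp (κ * ZZ x q) := by
    have e : ∑ q ∈ M, Real.exp (κ * ZZ x ((q.1 : ℤ), (q.2 : ℤ))) =
        ∑ q ∈ M.image (fun q : ℕ × ℕ => ((q.1 : ℤ), (q.2 : ℤ))), Real.exp (κ * ZZ x q) := by
      rw [sum_image]
      intro q _ q' _ h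
      simp only [Prod.mk.injEq, Nat.cast_inj] at h
      exact Prod.ext h.1 h.2
    rw [e]
    refine sum_le_sum_of_subset_of_nonneg (fun q hq => ?_) (fun _ _ _ => (Real.exp_pos _).le)
    obtain ⟨q', hq', rfl⟩ := mem_image.1 hq
    rw [hM, mem_filter, mem_product, mem_Ioc, mem_Ioc, hS', hT'] at hq'
    exact quad_FF hq'.1.1.1 hq'.1.1.2 hq'.1.2.1 hq'.1.2.2 hq'.2
  refine le_trans ?_ (add_le_add_left h1 _)
  have h2 : ∀ q ∈ Ioc 0 S ×ˢ Ioc 0 T, ∏ p ∈ upTo x, gg κ p (q.1 : ℤ) (q.2 : ℤ) ≤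
      (if q ∈ M then Real.exp (κ * ZZ x ((q.1 : ℤ), (q.2 : ℤ))) else 0) +
      (if q ∈ badq x S T then Real.exp (κ * ZZ x ((q.1 : ℤ), (q.2 : ℤ))) else 0) := by
    intro q hq
    have h3 : ∏ p ∈ upTo x, gg κ p (q.1 : ℤ) (q.2 : ℤ) ≤ Real.exp (κ * ZZ x ((q.1 : ℤ), (q.2 : ℤ))) := by
      rw [exp_ZZ]
      refine prod_le_prod (fun p _ => by unfold gg; split_ifs <;> positivity) fun p _ => ?_
      unfold gg
      split_ifs
      · exact (Real.exp_pos _).le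
      · exact le_rfl
    have h4 := (Real.exp_pos (κ * ZZ x ((q.1 : ℤ), (q.2 : ℤ)))).le
    by_cases hqM : q ∈ M
    · rw [if_pos hqM]
      have : 0 ≤ (if q ∈ badq x S T then Real.exp (κ * ZZ x ((q.1 : ℤ), (q.2 : ℤ))) else 0) := by
        split_ifs
        · exact h4
        · exact le_rfl
      linarith
    · rw [if_neg hqM, zero_add]
      have h5 : ∃ p : ℕ, p.Prime ∧ p ^ 4 ∣ q.1 ∧ p ^ 6 ∣ q.2 := by
        by_contra hcon
        push Not at hcon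
        apply hqM
        rw [hM, mem_filter]
        exact ⟨hq, fun p hp h => hcon p hp h.1 h.2⟩
      obtain ⟨p, hp, h6, h7⟩ := h5
      rcases Nat.lt_or_ge x p with h8 | h8
      · rw [if_pos]
        · exact h3
        · unfold badq
          rw [mem_filter]
          exact ⟨hq, p, h8, h6, h7⟩
      · have h9 : ∏ p ∈ upTo x, gg κ p (q.1 : ℤ) (q.2 : ℤ) = 0 := by
          refine prod_eq_zero (mem_upTo.2 ⟨h8, hp⟩) ?_
          unfold gg
          rw [if_pos]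
          rw [Int.cast_natCast, Int.cast_natCast, ZMod.natCast_eq_zero_iff, ZMod.natCast_eq_zero_iff]
          exact ⟨(dvd_pow_self p (by norm_num)).trans h6, (dvd_pow_self p (by norm_num)).trans h7⟩
        rw [h9]
        split_ifs
        · exact h4
        · exact le_rfl
  refine (sum_le_sum h2).trans (le_of_eq ?_)
  rw [sum_add_distrib, ← sum_filter, ← sum_filter]
  congr 1
  · refine sum_congr ?_ fun _ _ => rfl
    ext q
    rw [mem_filter]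
    refine ⟨fun h => h.2, fun h => ⟨?_, h⟩⟩
    rw [hM] at h
    exact (mem_filter.1 h).1
  · refine sum_congr ?_ fun _ _ => rfl
    ext q
    rw [mem_filter]
    refine ⟨fun h => h.2, fun h => ⟨?_, h⟩⟩
    unfold badq at h
    exact (mem_filter.1 h).1

/-- the logarithm of a product of local means -/
lemma sum_log_near (M : ℕ → ℝ) (θ C m₀ : ℝ) (hC : 0 ≤ C) (hm : 0 < m₀) (hM : ∀ p : ℕ, p.Prime →
    |M p - 1 - θ * (1 / Real.sqrt p) ^ 2| ≤ C * (1 / Real.sqrt p) ^ 3 ∧ m₀ ≤ M p) :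
    ∃ D : ℝ, 0 ≤ D ∧ ∀ x : ℕ, 3 ≤ x → |Real.log (∏ p ∈ upTo x, M p) - θ * Real.log (Real.log x)| ≤ D := by
  obtain ⟨C₃, hC₃, H₃⟩ := sum_inv_loglog
  obtain ⟨C', hC'⟩ : ∃ C', C' = C + (|θ| + C) ^ 2 / m₀ := ⟨_, rfl⟩
  have hC0 : 0 ≤ C' := by rw [hC']; positivity
  refine ⟨C' * ∑' n : ℕ, (n : ℝ) ^ (-(3 / 2) : ℝ) + |θ| * C₃, by
    have : 0 ≤ ∑' n : ℕ, (n : ℝ) ^ (-(3 / 2) : ℝ) := tsum_nonneg fun n => by positivity
    positivity, fun x hx => ?_⟩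
  have h1 := sum32 C' hC0 (fun p => Real.log (M p) - θ * (1 / (p : ℝ))) (fun p hp => by
    have hp0 : (0 : ℝ) < p := by exact_mod_cast hp.pos
    have hp1 : (1 : ℝ) ≤ p := by exact_mod_cast hp.one_lt.le
    have hs1 : 1 ≤ Real.sqrt p := by rwa [Real.one_le_sqrt]
    have hss : Real.sqrt p ^ 2 = p := Real.sq_sqrt hp0.le
    have h2 := log_near (s := 1 / Real.sqrt p) hm (hM p hp).2 (by positivity) ((div_le_one (by linarith)).2 hs1) hC (hM p hp).1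
    have e1 : (1 / Real.sqrt p) ^ 2 = 1 / (p : ℝ) := by rw [div_pow, hss, one_pow]
    have e2 : (1 / Real.sqrt p) ^ 3 = (p : ℝ) ^ (-(3 / 2) : ℝ) := by
      rw [rpow32 hp.pos, div_pow, one_pow, show Real.sqrt p ^ 3 = Real.sqrt p ^ 2 * Real.sqrt p by ring, hss]
    rw [e1, e2, ← hC'] at h2
    exact h2) x
  have h2 := H₃ x hx
  have e3 : Real.log (∏ p ∈ upTo x, M p) = ∑ p ∈ (range (x + 1)).filter Nat.Prime, Real.log (M p) := by
    unfold upTo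
    exact Real.log_prod fun p hp => (hm.trans_le (hM p (mem_filter.1 hp).2).2).ne'
  rw [e3]
  rw [sum_sub_distrib, ← mul_sum] at h1
  have e4 : ∑ p ∈ (range (x + 1)).filter Nat.Prime, Real.log (M p) - θ * Real.log (Real.log x) =
      (∑ p ∈ (range (x + 1)).filter Nat.Prime, Real.log (M p) - θ * ∑ p ∈ (range (x + 1)).filter Nat.Prime, 1 / (p : ℝ)) +
      θ * (∑ p ∈ (range (x + 1)).filter Nat.Prime, 1 / (p : ℝ) - Real.log (Real.log x)) := by ring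
  rw [e4]
  refine (abs_add_le _ _).trans (add_le_add h1 ?_)
  rw [abs_mul]
  exact mul_le_mul_of_nonneg_left h2 (abs_nonneg θ)

/-- the local mean without the residue `(0, 0)` -/
lemma locMean_lo (κ : ℝ) {p : ℕ} (hp : p.Prime) : 3 / 4 * Real.exp (-(20 * |κ|)) ≤ locMean κ p - 1 / (p : ℝ) ^ 2 := by
  classical
  have hp0 : (0 : ℝ) < p := by exact_mod_cast hp.pos
  have hp2 : (2 : ℝ) ≤ p := by exact_mod_cast hp.two_le
  have hp1 : (1 : ℝ) ≤ p := by linarith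
  have hs1 : 1 ≤ Real.sqrt p := by rwa [Real.one_le_sqrt]
  have hk := abs_nonneg κ
  obtain ⟨m, hm⟩ : ∃ m, m = Real.exp (-(20 * |κ|)) := ⟨_, rfl⟩
  have hm0 : 0 < m := by rw [hm]; exact Real.exp_pos _
  rw [← hm]
  have h1 : ∀ a b : ℤ, m ≤ Real.exp (κ * lg a b p) := by
    intro a b
    rw [hm]
    apply Real.exp_le_exp.2
    have h2 := Pool.Agent.Q28.BP.lg_abs a b hp
    have h3 : (20 : ℝ) / Real.sqrt p ≤ 20 := by
      rw [div_le_iff₀ (by linarith)]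
      linarith
    have h4 : |κ * lg a b p| ≤ 20 * |κ| := by
      rw [abs_mul]
      nlinarith
    exact (abs_le.1 h4).1
  have h0 : lg 0 0 p = 0 := by
    unfold lg
    rw [if_neg]
    rintro ⟨_, h⟩
    exact h (by simp)
  have h2 : 1 - m ≤ ∑ i ∈ range p, ∑ j ∈ range p, (Real.exp (κ * lg (i : ℤ) (j : ℤ) p) - m) := by
    have h3 : ∑ j ∈ range p, (Real.exp (κ * lg ((0 : ℕ) : ℤ) (j : ℤ) p) - m) ≤
        ∑ i ∈ range p, ∑ j ∈ range p, (Real.exp (κ * lg (i : ℤ) (j : ℤ) p) - m) :=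
      single_le_sum (f := fun i : ℕ => ∑ j ∈ range p, (Real.exp (κ * lg (i : ℤ) (j : ℤ) p) - m))
        (fun i _ => sum_nonneg fun j _ => by linarith [h1 (i : ℤ) (j : ℤ)]) (mem_range.2 hp.pos)
    have h4 : Real.exp (κ * lg ((0 : ℕ) : ℤ) ((0 : ℕ) : ℤ) p) - m ≤
        ∑ j ∈ range p, (Real.exp (κ * lg ((0 : ℕ) : ℤ) (j : ℤ) p) - m) :=
      single_le_sum (f := fun j : ℕ => Real.exp (κ * lg ((0 : ℕ) : ℤ) (j : ℤ) p) - m)
        (fun j _ => by linarith [h1 ((0 : ℕ) : ℤ) (j : ℤ)]) (mem_range.2 hp.pos)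
    rw [Nat.cast_zero, h0, mul_zero, Real.exp_zero] at h4
    exact h4.trans (by exact_mod_cast h3)
  have h5 : ∑ i ∈ range p, ∑ j ∈ range p, (Real.exp (κ * lg (i : ℤ) (j : ℤ) p) - m) = (locMean κ p - m) * (p : ℝ) ^ 2 := by
    simp only [sum_sub_distrib]
    rw [sum_const, sum_const, card_range, nsmul_eq_mul, nsmul_eq_mul]
    unfold locMean
    field_simp
  rw [h5] at h2
  have h6 : 1 / (p : ℝ) ^ 2 ≤ 1 / 4 := by
    apply one_div_le_one_div_of_le (by norm_num)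
    nlinarith
  have h7 : (1 - m) * (1 / (p : ℝ) ^ 2) ≤ locMean κ p - m := by
    rw [mul_one_div, div_le_iff₀ (by positivity)]
    exact h2
  nlinarith

/-- the double logarithm against the logarithm -/
lemma loglog_le (a b : ℝ) : ∃ x₀ : ℕ, 16 ≤ x₀ ∧ ∀ x : ℕ, x₀ ≤ x → a * Real.log (Real.log x) + b ≤ Real.log x := by
  obtain ⟨x₁, hx₁⟩ := Filter.eventually_atTop.1 (tendsto_loglog.eventually_ge_atTop (max (2 * (|a| + 1)) |b|))
  refine ⟨max x₁ 16, le_max_right _ _, fun x hx => ?_⟩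
  have h1 := hx₁ x ((le_max_left _ _).trans hx)
  have hx16 : 16 ≤ x := (le_max_right _ _).trans hx
  have hlx : 0 < Real.log x := Real.log_pos (by exact_mod_cast (by omega : 1 < x))
  obtain ⟨L, hL⟩ : ∃ L, L = Real.log (Real.log x) := ⟨_, rfl⟩
  rw [← hL] at h1 ⊢
  have e : Real.log x = Real.exp L := by rw [hL, Real.exp_log hlx]
  have h2 : 2 * (|a| + 1) ≤ L := (le_max_left _ _).trans h1
  have h3 : |b| ≤ L := (le_max_right _ _).trans h1
  have hL0 : 0 ≤ L := by linarith [abs_nonneg a]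
  have h4 := Real.quadratic_le_exp_of_nonneg hL0
  rw [e]
  have h5 := le_abs_self a
  have h6 := le_abs_self b
  nlinarith

/-- the conditions on the height -/
lemma height_large {x X : ℕ} (hx : 1 ≤ x) (h : 10 * (x : ℝ) ≤ Real.log X) :
    27 ≤ X ∧ ∏ p ∈ upTo x, p ≤ YY X ∧ ∏ p ∈ upTo x, p ≤ Nat.sqrt (X / 27) := by
  have hx1 : (1 : ℝ) ≤ x := by exact_mod_cast hx
  have hX0 : (0 : ℝ) < X := by
    rcases Nat.eq_zero_or_pos X with h0 | h0
    · rw [h0, Nat.cast_zero, Real.log_zero] at h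
      linarith
    · exact_mod_cast h0
  have h1 : (1024 : ℝ) ^ x ≤ X := by
    rw [Real.le_log_iff_exp_le hX0] at h
    refine le_trans ?_ h
    have h2 : (2 : ℝ) ≤ Real.exp 1 := by
      have := Real.add_one_le_exp (1 : ℝ)
      linarith
    calc (1024 : ℝ) ^ x = ((2 : ℝ) ^ 10) ^ x := by norm_num
      _ = (2 : ℝ) ^ (10 * x) := by rw [← pow_mul]
      _ ≤ Real.exp 1 ^ (10 * x) := pow_le_pow_left₀ (by norm_num) h2 _
      _ = Real.exp (10 * x) := by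
          rw [← Real.exp_nat_mul]
          congr 1
          push_cast
          ring
  have h1' : 1024 ^ x ≤ X := by exact_mod_cast h1
  have h2 : ∏ p ∈ upTo x, p ≤ 4 ^ x := primorial_le_four_pow x
  have h3 : 4 * 64 ^ x ≤ 1024 ^ x := by
    have e : (1024 : ℕ) ^ x = 16 ^ x * 64 ^ x := by rw [← mul_pow]; norm_num
    rw [e]
    apply Nat.mul_le_mul_right
    calc 4 ≤ 16 ^ 1 := by norm_num
      _ ≤ 16 ^ x := Nat.pow_le_pow_right (by norm_num) hx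
  have h4 : 16 ^ x * 27 ≤ 1024 ^ x := by
    have e : (1024 : ℕ) ^ x = 16 ^ x * 64 ^ x := by rw [← mul_pow]; norm_num
    rw [e]
    apply Nat.mul_le_mul_left
    calc 27 ≤ 64 ^ 1 := by norm_num
      _ ≤ 64 ^ x := Nat.pow_le_pow_right (by norm_num) hx
  refine ⟨?_, ?_, ?_⟩
  · have : 1 ≤ 16 ^ x := Nat.one_le_pow _ _ (by norm_num)
    omega
  · refine le_YY (le_trans ?_ (h3.trans h1'))
    have : (∏ p ∈ upTo x, p) ^ 3 ≤ (4 ^ x) ^ 3 := Nat.pow_le_pow_left h2 3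
    have e : (4 ^ x) ^ 3 = 64 ^ x := by rw [← pow_mul, mul_comm x 3, pow_mul]; norm_num
    omega
  · rw [Nat.le_sqrt', Nat.le_div_iff_mul_le (by norm_num)]
    refine le_trans ?_ (h4.trans h1')
    have : (∏ p ∈ upTo x, p) ^ 2 ≤ (4 ^ x) ^ 2 := Nat.pow_le_pow_left h2 2
    have e : (4 ^ x) ^ 2 = 16 ^ x := by rw [← pow_mul, mul_comm x 2, pow_mul]; norm_num
    omega

/-- **The exponential moments over all the curves.** -/
theorem FF_moments (κ : ℝ) : ∃ (D : ℝ) (x₀ : ℕ), 0 ≤ D ∧ 16 ≤ x₀ ∧ ∀ x X : ℕ, x₀ ≤ x → 10 * (x : ℝ) ≤ Real.log X →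
    (FF X).Nonempty ∧ |Real.log (expAvg (FF X) (ZZ x) κ) - κ * (κ + 1) / 2 * Real.log (Real.log x)| ≤ D := by
  classical
  obtain ⟨C₁, hC₁, H₁⟩ := locMean_near κ
  obtain ⟨C₂, hC₂, H₂⟩ := locMean_near (2 * κ)
  obtain ⟨D₁, hD₁, G₁⟩ := sum_log_near (locMean κ) (κ * (κ + 1) / 2) C₁ _ hC₁ (Real.exp_pos _) (fun p hp => ⟨(H₁ p hp).1, (H₁ p hp).2.1⟩)
  obtain ⟨D₂, hD₂, G₂⟩ := sum_log_near (fun p => locMean κ p - 1 / (p : ℝ) ^ 2) (κ * (κ + 1) / 2) (C₁ + 1) _ (by linarith)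
    (by positivity) (fun p hp => ⟨by
      have hp0 : (0 : ℝ) < p := by exact_mod_cast hp.pos
      have hp1 : (1 : ℝ) ≤ p := by exact_mod_cast hp.one_lt.le
      have hs1 : 1 ≤ Real.sqrt p := by rwa [Real.one_le_sqrt]
      have hss : Real.sqrt p ^ 2 = p := Real.sq_sqrt hp0.le
      obtain ⟨s, hs⟩ : ∃ s, s = 1 / Real.sqrt p := ⟨_, rfl⟩
      have hs0 : 0 < s := by rw [hs]; positivity
      have hsl : s ≤ 1 := by rw [hs]; exact (div_le_one (by linarith)).2 hs1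
      have h3 := (H₁ p hp).1
      rw [← hs] at h3 ⊢
      have e : 1 / (p : ℝ) ^ 2 = s ^ 4 := by
        rw [hs, show (1 / Real.sqrt p) ^ 4 = ((1 / Real.sqrt p) ^ 2) ^ 2 by ring, div_pow, hss]
        ring
      rw [e]
      have h4 : s ^ 4 ≤ s ^ 3 := by
        calc s ^ 4 = s * s ^ 3 := by ring
          _ ≤ 1 * s ^ 3 := mul_le_mul_of_nonneg_right hsl (by positivity)
          _ = s ^ 3 := one_mul _
      have h5 : 0 < s ^ 4 := by positivity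
      have h6 := abs_le.1 h3
      rw [abs_le, add_mul, one_mul]
      constructor <;> linarith [h6.1, h6.2], locMean_lo κ hp⟩)
  obtain ⟨D₃, hD₃, G₃⟩ := sum_log_near (locMean (2 * κ)) (2 * κ * (2 * κ + 1) / 2) C₂ _ hC₂ (Real.exp_pos _)
    (fun p hp => ⟨(H₂ p hp).1, (H₂ p hp).2.1⟩)
  obtain ⟨x₀, hx₀, G₄⟩ := loglog_le (2 * κ * (2 * κ + 1) / 2 - 2 * (κ * (κ + 1) / 2)) (D₃ + 2 * D₂ + Real.log 1600)
  refine ⟨Real.log 200 + D₁ + D₂, x₀, by have := Real.log_nonneg (show (1 : ℝ) ≤ 200 by norm_num); linarith, hx₀,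
    fun x X hx hX => ?_⟩
  have hx16 : 16 ≤ x := hx₀.trans hx
  obtain ⟨k1, k2, k3⟩ := height_large (by omega) hX
  have g1 := G₁ x (by omega)
  have g2 := G₂ x (by omega)
  have g3 := G₃ x (by omega)
  have g4 := G₄ x hx
  obtain ⟨A, hA⟩ : ∃ A, A = ∏ p ∈ upTo x, locMean κ p := ⟨_, rfl⟩
  obtain ⟨A', hA'⟩ : ∃ A', A' = ∏ p ∈ upTo x, (locMean κ p - 1 / (p : ℝ) ^ 2) := ⟨_, rfl⟩
  obtain ⟨A₂, hA₂⟩ : ∃ A₂, A₂ = ∏ p ∈ upTo x, locMean (2 * κ) p := ⟨_, rfl⟩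
  have u1 := FF_up κ k2 k3
  have u2 := FF_lo κ k2 k3
  have u3 := bad_sum κ (x := x) (by omega) k2 k3
  have u4 := FF_card_nat k1
  have u5 := FF_up 0 k2 k3
  rw [← hA] at g1 u1
  rw [← hA'] at g2 u2
  rw [← hA₂] at g3 u3
  have e0 : ∏ p ∈ upTo x, locMean 0 p = 1 := by
    refine prod_eq_one fun p hp => ?_
    have hp0 : (p : ℝ) ≠ 0 := by exact_mod_cast (mem_upTo.1 hp).2.ne_zero
    unfold locMean
    simp only [zero_mul, Real.exp_zero, sum_const, card_range, nsmul_eq_mul, mul_one]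
    field_simp
  have e1 : ∑ q ∈ FF X, Real.exp (0 * ZZ x q) = (FF X).card := by simp
  rw [e0, e1, mul_one] at u5
  obtain ⟨W, hW⟩ : ∃ W, W = (YY X : ℝ) * (Nat.sqrt (X / 27) : ℝ) := ⟨_, rfl⟩
  rw [← hW] at u1 u2 u3 u4 u5
  have hQ : 1 ≤ ∏ p ∈ upTo x, p := Nat.one_le_iff_ne_zero.2 (prod_ne_zero_iff.2 fun p hp => (mem_upTo.1 hp).2.ne_zero)
  have hY1 : (1 : ℝ) ≤ YY X := by exact_mod_cast hQ.trans k2
  have hT1 : (1 : ℝ) ≤ (Nat.sqrt (X / 27) : ℝ) := by exact_mod_cast hQ.trans k3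
  have hW0 : 0 < W := by rw [hW]; positivity
  have hA0 : 0 < A := by rw [hA]; exact prod_pos fun p hp => (Real.exp_pos _).trans_le (H₁ p (mem_upTo.1 hp).2).2.1
  have hA20 : 0 < A₂ := by rw [hA₂]; exact prod_pos fun p hp => (Real.exp_pos _).trans_le (H₂ p (mem_upTo.1 hp).2).2.1
  have hA'0 : 0 < A' := by
    rw [hA']
    exact prod_pos fun p hp => lt_of_lt_of_le (by positivity) (locMean_lo κ (mem_upTo.1 hp).2)
  have hx0 : (0 : ℝ) < x := by exact_mod_cast (by omega : 0 < x)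
  -- the bad pairs are negligible
  have v1 : 5 * Real.sqrt (A₂ / x) ≤ A' / 8 := by
    have v2 : 1600 * A₂ ≤ A' ^ 2 * x := by
      rw [← Real.log_le_log_iff (by positivity) (by positivity), Real.log_mul (by norm_num) hA20.ne',
        Real.log_mul (by positivity) hx0.ne', Real.log_pow]
      push_cast
      have := abs_le.1 g2
      have := abs_le.1 g3
      linarith [(abs_le.1 g2).1, (abs_le.1 g3).2]
    have v3 : Real.sqrt (A₂ / x) ≤ A' / 40 := by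
      rw [Real.sqrt_le_left (by positivity), div_le_iff₀ hx0]
      nlinarith
    linarith
  have hn : (0 : ℝ) < (FF X).card := by linarith
  have hne : (FF X).Nonempty := card_pos.1 (by exact_mod_cast hn)
  refine ⟨hne, ?_⟩
  have w1 : expAvg (FF X) (ZZ x) κ ≤ 50 * A := by
    unfold expAvg
    rw [div_le_iff₀ hn]
    nlinarith
  have w2 : A' / 200 ≤ expAvg (FF X) (ZZ x) κ := by
    unfold expAvg
    rw [le_div_iff₀ hn]
    have w3 : W * (5 * Real.sqrt (A₂ / x)) ≤ W * (A' / 8) := mul_le_mul_of_nonneg_left v1 hW0.le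
    nlinarith
  have hE0 : 0 < expAvg (FF X) (ZZ x) κ := lt_of_lt_of_le (by positivity) w2
  have w4 := Real.log_le_log hE0 w1
  have w5 := Real.log_le_log (by positivity) w2
  rw [Real.log_mul (by norm_num) hA0.ne'] at w4
  rw [Real.log_div hA'0.ne' (by norm_num)] at w5
  have w6 : Real.log 50 ≤ Real.log 200 := Real.log_le_log (by norm_num) (by norm_num)
  have w7 := abs_le.1 g1
  have w8 := abs_le.1 g2
  rw [abs_le]
  constructor <;> linarith [w7.1, w7.2, w8.1, w8.2]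

end Pool.Agent.Q235.FE
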