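import Pool.Agent.Q235.FE.Central
import Pool.Agent.Q235.FD.Gen

/-! Averages of products of local functions over few changes of digits, for all primes up to `c √r`. -/

set_option autoImplicit false

namespace Pool.Agent.Q235.FE

open Finset
open Pool.Agent.TH894.NE
open Pool.Agent.Q235.FD (change digit)

/-- periodic complex functions -/
def PerC {d : ℕ} (q : ℕ) (H : (Fin d → ℕ) → ℂ) : Prop := ∀ n, H n = H (fun i => n i % q)

/-- the mean over the residues -/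
noncomputable def meanC (d q : ℕ) (F : (Fin d → ℕ) → ℂ) : ℂ := 1 / (q : ℂ) ^ d * ∑ n ∈ box d q, F n

lemma PerC.of_dvd {d q Q : ℕ} (hq : q ∣ Q) {H : (Fin d → ℕ) → ℂ} (h : PerC q H) : PerC Q H := by
  intro n
  rw [h n, h (fun i => n i % Q)]
  congr 1
  funext i
  exact (Nat.mod_mod_of_dvd (n i) hq).symm

lemma two_modC {d : ℕ} (u v : ℕ) (hu : 1 ≤ u) (hv : 1 ≤ v) (huv : Nat.Coprime u v) (A B : (Fin d → ℕ) → ℂ) (hA : PerC u A) (hB : PerC v B) :
    ∑ n ∈ box d (u * v), A n * B n = (∑ n ∈ box d u, A n) * ∑ n ∈ box d v, B n := by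
  classical
  rw [sum_mul_sum, ← sum_product']
  obtain ⟨φ, hφ⟩ : ∃ φ : (Fin d → ℕ) → (Fin d → ℕ) × (Fin d → ℕ), φ = fun n => (fun i => n i % u, fun i => n i % v) := ⟨_, rfl⟩
  have hmaps : ∀ n ∈ box d (u * v), φ n ∈ box d u ×ˢ box d v := by
    intro n _
    rw [hφ, mem_product, mem_box, mem_box]
    exact ⟨fun i => Nat.mod_lt _ (by omega), fun i => Nat.mod_lt _ (by omega)⟩
  have hinj : Set.InjOn φ (box d (u * v) : Set (Fin d → ℕ)) := by
    intro n hn n' hn' h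
    rw [mem_coe, mem_box] at hn hn'
    rw [hφ] at h
    have h1 := (Prod.mk.injEq _ _ _ _ ▸ h : (fun i => n i % u) = (fun i => n' i % u) ∧ (fun i => n i % v) = (fun i => n' i % v))
    funext i
    have h2 : n i ≡ n' i [MOD u] := congrFun h1.1 i
    have h3 : n i ≡ n' i [MOD v] := congrFun h1.2 i
    have h4 : n i ≡ n' i [MOD (u * v)] := (Nat.modEq_and_modEq_iff_modEq_mul huv).1 ⟨h2, h3⟩
    exact Nat.ModEq.eq_of_lt_of_lt h4 (hn i) (hn' i)
  have hsurj : Set.SurjOn φ (box d (u * v) : Set (Fin d → ℕ)) ((box d u ×ˢ box d v : Finset _) : Set ((Fin d → ℕ) × (Fin d → ℕ))) := by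
    apply surjOn_of_injOn_of_card_le φ (fun n hn => hmaps n hn) hinj
    rw [card_product, card_box, card_box, card_box, mul_pow]
  refine sum_nbij φ hmaps hinj hsurj ?_
  intro n _
  rw [hφ]
  show A n * B n = A (fun i => n i % u) * B (fun i => n i % v)
  rw [← hA n, ← hB n]

lemma mean_prodC {d : ℕ} {ι : Type*} [DecidableEq ι] (I : Finset ι) (q : ι → ℕ) (hq : ∀ a ∈ I, 1 ≤ q a)
    (hcop : ∀ a ∈ I, ∀ a' ∈ I, a ≠ a' → Nat.Coprime (q a) (q a')) (G : ι → (Fin d → ℕ) → ℂ) (hG : ∀ a ∈ I, PerC (q a) (G a)) :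
    meanC d (∏ a ∈ I, q a) (fun n => ∏ a ∈ I, G a n) = ∏ a ∈ I, meanC d (q a) (G a) := by
  classical
  induction I using Finset.induction_on with
  | empty =>
      unfold meanC
      simp only [prod_empty, Nat.cast_one, one_pow, div_one, one_mul, sum_const, nsmul_eq_mul, mul_one]
      rw [card_box]
      simp
  | insert a I ha ih =>
      have ih' := ih (fun a' h => hq a' (mem_insert_of_mem h))
        (fun a' h a'' h' => hcop a' (mem_insert_of_mem h) a'' (mem_insert_of_mem h')) (fun a' h => hG a' (mem_insert_of_mem h))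
      rw [prod_insert ha, prod_insert ha, ← ih']
      obtain ⟨Q, hQ⟩ : ∃ Q, Q = ∏ a ∈ I, q a := ⟨_, rfl⟩
      rw [← hQ]
      have hQ1 : 1 ≤ Q := by
        rw [hQ]
        exact Nat.one_le_iff_ne_zero.2 (prod_ne_zero_iff.2 fun a' h => by have := hq a' (mem_insert_of_mem h); omega)
      have hc : Nat.Coprime (q a) Q := by
        rw [hQ]
        apply Nat.Coprime.prod_right
        intro a' h
        exact hcop a (mem_insert_self a I) a' (mem_insert_of_mem h) (fun h' => ha (h' ▸ h))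
      have hP : PerC Q (fun n => ∏ a ∈ I, G a n) := by
        intro n
        refine prod_congr rfl fun a' h => ?_
        exact (hG a' (mem_insert_of_mem h)).of_dvd (by rw [hQ]; exact dvd_prod_of_mem q h) n
      unfold meanC
      have h1 := two_modC (q a) Q (hq a (mem_insert_self a I)) hQ1 hc (G a) (fun n => ∏ a ∈ I, G a n) (hG a (mem_insert_self a I)) hP
      have h2 : ∑ n ∈ box d (q a * Q), ∏ a' ∈ insert a I, G a' n = ∑ n ∈ box d (q a * Q), G a n * ∏ a ∈ I, G a n :=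
        sum_congr rfl fun n _ => prod_insert ha
      rw [h2, h1]
      push_cast
      rw [mul_pow]
      have h3 : (q a : ℂ) ≠ 0 := by
        have := hq a (mem_insert_self a I)
        exact_mod_cast (by omega : q a ≠ 0)
      have h4 : (Q : ℂ) ≠ 0 := by exact_mod_cast (by omega : Q ≠ 0)
      field_simp

/-- equidistribution of complex functions of the residues -/
lemma equiC {d : ℕ} {ι : Type} (s : Fin d → Finset ι) (m : Fin d → ι → ℕ) (Q : ℕ) (hQ : 1 ≤ Q) (H : (Fin d → ℕ) → ℂ)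
    (hH : PerC Q H) (M : ℝ) (hM : ∀ n, ‖H n‖ ≤ M) (ε : ℝ) (hε : 0 ≤ ε)
    (hgood : ∀ i, ∀ k, ¬ Q ∣ k → ‖∑ t ∈ s i, Pool.Agent.TH894.ND.ee ((k : ℝ) * m i t / Q)‖ ≤ ε * (s i).card) :
    ‖∑ S ∈ Fintype.piFinset s, H (fun i => m i (S i)) - (∏ i, ((s i).card : ℂ)) * meanC d Q H‖ ≤
      4 * (M * (Q : ℝ) ^ d * ε * ∏ i, ((s i).card : ℝ)) := by
  classical
  have hQr : (0 : ℝ) < Q := by exact_mod_cast (by omega : 0 < Q)
  have hQc : (Q : ℂ) ≠ 0 := by exact_mod_cast (by omega : Q ≠ 0)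
  have hM0 : 0 ≤ M := (norm_nonneg _).trans (hM 0)
  obtain ⟨μ, hμ⟩ : ∃ μ, μ = meanC d Q H := ⟨_, rfl⟩
  have hμM : ‖μ‖ ≤ M := by
    rw [hμ]
    unfold meanC
    rw [norm_mul, norm_div, norm_one, norm_pow, Complex.norm_natCast]
    have h1 : ‖∑ n ∈ box d Q, H n‖ ≤ (Q : ℝ) ^ d * M := by
      refine (norm_sum_le _ _).trans ((sum_le_sum fun n _ => hM n).trans (le_of_eq ?_))
      rw [sum_const, card_box, nsmul_eq_mul]
      push_cast
      ring
    calc 1 / (Q : ℝ) ^ d * ‖∑ n ∈ box d Q, H n‖ ≤ 1 / (Q : ℝ) ^ d * ((Q : ℝ) ^ d * M) :=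
          mul_le_mul_of_nonneg_left h1 (by positivity)
      _ = M := by field_simp
  have hsum : ∑ n ∈ box d Q, (H n - μ) = 0 := by
    rw [sum_sub_distrib, sum_const, card_box, nsmul_eq_mul, hμ]
    unfold meanC
    push_cast
    field_simp
    ring
  have hb : ∀ n, ‖H n - μ‖ ≤ 2 * M := by
    intro n
    refine (norm_sub_le _ _).trans ?_
    linarith [hM n]
  have h1 := equi s m Q hQ (fun n => (H n - μ).re) (fun n => by beta_reduce; rw [← hH n]) (2 * M)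
    (fun n => (Complex.abs_re_le_norm _).trans (hb n)) (by rw [← Complex.re_sum, hsum, Complex.zero_re]) ε hε hgood
  have h2 := equi s m Q hQ (fun n => (H n - μ).im) (fun n => by beta_reduce; rw [← hH n]) (2 * M)
    (fun n => (Complex.abs_im_le_norm _).trans (hb n)) (by rw [← Complex.im_sum, hsum, Complex.zero_im]) ε hε hgood
  rw [← Complex.re_sum] at h1
  rw [← Complex.im_sum] at h2
  have e : ∑ S ∈ Fintype.piFinset s, H (fun i => m i (S i)) - (∏ i, ((s i).card : ℂ)) * meanC d Q H =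
      ∑ S ∈ Fintype.piFinset s, (H (fun i => m i (S i)) - μ) := by
    rw [sum_sub_distrib, sum_const, nsmul_eq_mul, Fintype.card_piFinset, hμ]
    push_cast
    rfl
  rw [e]
  refine (Complex.norm_le_abs_re_add_abs_im _).trans ?_
  linarith

/-- averages of products of local functions -/
theorem moments (b : ℕ) (hb : 2 ≤ b) (d : ℕ) (A : ℝ) (hA : 0 ≤ A) : ∃ c : ℝ, 0 < c ∧
    ∀ (x : ℕ) (K r N : Fin d → ℕ) (f : Fin d → ℕ → ℕ), 1 ≤ x → (∀ i, 2 * r i ≤ K i) →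
      (∀ i, (x : ℝ) ≤ c * Real.sqrt (r i)) → (∀ i, N i < b ^ K i) → (∀ i j, f i j < b ∧ f i j ≠ digit b j (N i)) →
      ∀ P : Finset ℕ, (∀ p ∈ P, p.Prime ∧ b * b < p ∧ p ≤ x) → ∀ (B : ℕ → ℝ) (G : ℕ → (Fin d → ℕ) → ℂ),
      (∀ p ∈ P, PerC (p ^ 2) (G p)) → (∀ p ∈ P, ∀ n, ‖G p n‖ ≤ B p) →
      ‖∑ S ∈ Fintype.piFinset (fun i => powersetCard (r i) (range (K i))), ∏ p ∈ P, G p (fun i => change b (K i) (N i) (f i) (S i)) -
        (∏ i, ((K i).choose (r i) : ℂ)) * ∏ p ∈ P, meanC d (p ^ 2) (G p)‖ ≤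
        (3 : ℝ) ^ (-(A * x)) * (∏ i, ((K i).choose (r i) : ℝ)) * ∏ p ∈ P, B p := by
  classical
  obtain ⟨c, hc, H⟩ := expsum b hb (A + (3 * d + 2 : ℕ)) (by positivity)
  refine ⟨c / 2, by positivity, fun x K r N f hx hrK hxr hN hf P hP B G hG hB => ?_⟩
  obtain ⟨Q, hQ⟩ : ∃ Q, Q = ∏ p ∈ P, p ^ 2 := ⟨_, rfl⟩
  have hQ1 : 1 ≤ Q := by
    rw [hQ]
    exact Nat.one_le_iff_ne_zero.2 (prod_ne_zero_iff.2 fun p hp => (pow_pos (hP p hp).1.pos 2).ne')
  have hQx : Q ≤ 16 ^ x := by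
    have h1 : ∏ p ∈ P, p ≤ 4 ^ x := by
      refine le_trans ?_ (primorial_le_four_pow x)
      unfold primorial
      refine prod_le_prod_of_subset_of_one_le' (fun p hp => ?_) (fun p hp _ => ?_)
      · rw [mem_filter, mem_range]
        exact ⟨by have := (hP p hp).2.2; omega, (hP p hp).1⟩
      · exact (mem_filter.1 hp).2.one_lt.le
    rw [hQ, prod_pow]
    calc (∏ p ∈ P, p) ^ 2 ≤ (4 ^ x) ^ 2 := Nat.pow_le_pow_left h1 2
      _ = 16 ^ x := by rw [← pow_mul, mul_comm x 2, pow_mul]; norm_num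
  have hcop : Nat.Coprime Q (b * b).factorial := by
    rw [hQ]
    apply Nat.Coprime.prod_left
    intro p hp
    apply Nat.Coprime.pow_left
    rw [Nat.Prime.coprime_iff_not_dvd (hP p hp).1, (hP p hp).1.dvd_factorial]
    have := (hP p hp).2.1
    omega
  obtain ⟨y, hy⟩ : ∃ y, y = 3 ^ x := ⟨_, rfl⟩
  have hy3 : 3 ≤ y := by
    rw [hy]
    calc 3 = 3 ^ 1 := rfl
      _ ≤ 3 ^ x := Nat.pow_le_pow_right (by norm_num) hx
  have hQy : Q ≤ y ^ 4 := by
    rw [hy]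
    refine hQx.trans ?_
    calc 16 ^ x ≤ 81 ^ x := Nat.pow_le_pow_left (by norm_num) x
      _ = (3 ^ x) ^ 4 := by rw [← pow_mul, mul_comm x 4, pow_mul]; norm_num
  have hlogy : Real.log y ≤ 2 * x := by
    rw [hy]
    push_cast
    rw [Real.log_pow]
    have : Real.log 3 ≤ 2 := by
      rw [Real.log_le_iff_le_exp (by norm_num)]
      have := Real.add_one_le_exp (2 : ℝ)
      linarith
    have hx0 : (0 : ℝ) ≤ x := Nat.cast_nonneg x
    nlinarith
  have hx' : ∀ i, Real.log y ≤ c * Real.sqrt (r i) := by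
    intro i
    have := hxr i
    linarith
  have hBn : ∀ p ∈ P, 0 ≤ B p := fun p hp => (norm_nonneg _).trans (hB p hp 0)
  obtain ⟨M, hM⟩ : ∃ M, M = ∏ p ∈ P, B p := ⟨_, rfl⟩
  have hM0 : 0 ≤ M := by rw [hM]; exact prod_nonneg hBn
  have hPer : PerC Q (fun n => ∏ p ∈ P, G p n) := by
    intro n
    refine prod_congr rfl fun p hp => ?_
    exact (hG p hp).of_dvd (by rw [hQ]; exact dvd_prod_of_mem (fun p => p ^ 2) hp) n
  have hbd : ∀ n, ‖∏ p ∈ P, G p n‖ ≤ M := by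
    intro n
    rw [norm_prod, hM]
    exact prod_le_prod (fun _ _ => norm_nonneg _) fun p hp => hB p hp n
  have key := equiC (fun i => powersetCard (r i) (range (K i))) (fun i t => change b (K i) (N i) (f i) t) Q hQ1
    (fun n => ∏ p ∈ P, G p n) hPer M hbd ((y : ℝ) ^ (-(A + (3 * d + 2 : ℕ)))) (by positivity) (fun i k hk => by
      have h1 := H (r i) (K i) y (N i) Q k (f i) (hrK i) hy3 (hx' i) (hN i) (hf i) hQ1 hQy hcop hk
      rw [card_powersetCard, card_range]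
      exact h1)
  rw [hQ, mean_prodC P (fun p => p ^ 2) (fun p hp => Nat.one_le_iff_ne_zero.2 (pow_pos (hP p hp).1.pos 2).ne')
    (fun p hp q hq hne => Nat.Coprime.pow 2 2 ((Nat.coprime_primes (hP p hp).1 (hP q hq).1).2 hne)) G hG, ← hQ] at key
  simp only [card_powersetCard, card_range] at key
  refine key.trans ?_
  rw [← hM]
  have hW : 0 ≤ ∏ i, ((K i).choose (r i) : ℝ) := prod_nonneg fun _ _ => Nat.cast_nonneg _
  have h1 : 4 * ((Q : ℝ) ^ d * (y : ℝ) ^ (-(A + (3 * d + 2 : ℕ)))) ≤ (3 : ℝ) ^ (-(A * x)) := by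
    have h2 : (Q : ℝ) ≤ (27 : ℝ) ^ x := by
      have h3 : (Q : ℝ) ≤ (16 : ℝ) ^ x := by exact_mod_cast hQx
      exact h3.trans (pow_le_pow_left₀ (by norm_num) (by norm_num) x)
    have h4 : (Q : ℝ) ^ d ≤ (3 : ℝ) ^ ((3 * d : ℕ) * x : ℝ) := by
      calc (Q : ℝ) ^ d ≤ ((27 : ℝ) ^ x) ^ d := pow_le_pow_left₀ (Nat.cast_nonneg _) h2 d
        _ = (3 : ℝ) ^ (3 * d * x) := by
          rw [show (27 : ℝ) = 3 ^ 3 by norm_num, ← pow_mul, ← pow_mul]
          congr 1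
          ring
        _ = (3 : ℝ) ^ ((3 * d : ℕ) * x : ℝ) := by
          rw [← Real.rpow_natCast]
          congr 1
          push_cast
          ring
    have h5 : (y : ℝ) ^ (-(A + (3 * d + 2 : ℕ))) = (3 : ℝ) ^ (-(x * (A + (3 * d + 2 : ℕ)))) := by
      rw [hy]
      push_cast
      rw [← Real.rpow_natCast, ← Real.rpow_mul (by norm_num)]
      congr 1
      ring
    have h6 : (4 : ℝ) ≤ (3 : ℝ) ^ (2 * (x : ℝ)) := by
      have h7 : (2 : ℝ) ≤ 2 * (x : ℝ) := by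
        have : (1 : ℝ) ≤ x := by exact_mod_cast hx
        linarith
      calc (4 : ℝ) ≤ (3 : ℝ) ^ (2 : ℝ) := by
            rw [show (2 : ℝ) = ((2 : ℕ) : ℝ) by norm_num, Real.rpow_natCast]
            norm_num
        _ ≤ _ := Real.rpow_le_rpow_of_exponent_le (by norm_num) h7
    rw [h5]
    have h8 : (0 : ℝ) < (3 : ℝ) ^ (-(x * (A + (3 * d + 2 : ℕ))) : ℝ) := Real.rpow_pos_of_pos (by norm_num) _
    calc 4 * ((Q : ℝ) ^ d * (3 : ℝ) ^ (-(x * (A + (3 * d + 2 : ℕ))) : ℝ))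
        ≤ (3 : ℝ) ^ (2 * (x : ℝ)) * ((3 : ℝ) ^ ((3 * d : ℕ) * x : ℝ) * (3 : ℝ) ^ (-(x * (A + (3 * d + 2 : ℕ))) : ℝ)) := by
          apply mul_le_mul h6 _ (by positivity) (by positivity)
          exact mul_le_mul_of_nonneg_right h4 h8.le
      _ = (3 : ℝ) ^ (-(A * x)) := by
          rw [← Real.rpow_add (by norm_num), ← Real.rpow_add (by norm_num)]
          congr 1
          push_cast
          ring
  calc 4 * (M * (Q : ℝ) ^ d * (y : ℝ) ^ (-(A + (3 * d + 2 : ℕ))) * ∏ i, ((K i).choose (r i) : ℝ))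
      = 4 * ((Q : ℝ) ^ d * (y : ℝ) ^ (-(A + (3 * d + 2 : ℕ)))) * ((∏ i, ((K i).choose (r i) : ℝ)) * M) := by ring
    _ ≤ (3 : ℝ) ^ (-(A * x)) * ((∏ i, ((K i).choose (r i) : ℝ)) * M) :=
        mul_le_mul_of_nonneg_right h1 (mul_nonneg hW hM0)
    _ = _ := by ring

/-- the case of one integer -/
theorem moments_one (b : ℕ) (hb : 2 ≤ b) (A : ℝ) (hA : 0 ≤ A) : ∃ c : ℝ, 0 < c ∧
    ∀ (x K r N : ℕ) (f : ℕ → ℕ), 1 ≤ x → 2 * r ≤ K → (x : ℝ) ≤ c * Real.sqrt r → N < b ^ K →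
      (∀ j, f j < b ∧ f j ≠ digit b j N) →
      ∀ P : Finset ℕ, (∀ p ∈ P, p.Prime ∧ b * b < p ∧ p ≤ x) → ∀ (B : ℕ → ℝ) (G : ℕ → ℕ → ℂ),
      (∀ p ∈ P, ∀ n, G p n = G p (n % p ^ 2)) → (∀ p ∈ P, ∀ n, ‖G p n‖ ≤ B p) →
      ‖∑ S ∈ powersetCard r (range K), ∏ p ∈ P, G p (change b K N f S) -
        (K.choose r : ℂ) * ∏ p ∈ P, (1 / ((p ^ 2 : ℕ) : ℂ) * ∑ n ∈ range (p ^ 2), G p n)‖ ≤
        (3 : ℝ) ^ (-(A * x)) * (K.choose r : ℝ) * ∏ p ∈ P, B p := by
  obtain ⟨c, hc, H⟩ := moments b hb 1 A hA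
  refine ⟨c, hc, fun x K r N f hx hrK hxr hN hf P hP B G hG hB => ?_⟩
  have h1 := H x (fun _ => K) (fun _ => r) (fun _ => N) (fun _ => f) hx (fun _ => hrK) (fun _ => hxr) (fun _ => hN)
    (fun _ => hf) P hP B (fun p n => G p (n 0)) (fun p hp n => hG p hp (n 0)) (fun p hp n => hB p hp (n 0))
  have e1 : ∀ (s : Finset (Finset ℕ)) (F : Finset ℕ → ℂ),
      ∑ S ∈ Fintype.piFinset (fun _ : Fin 1 => s), F (S 0) = ∑ S ∈ s, F S := by
    intro s F
    refine sum_nbij (fun S => S 0) (fun S hS => (Fintype.mem_piFinset.1 hS) 0) (fun S _ S' _ h => ?_) (fun S hS => ?_)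
      (fun _ _ => rfl)
    · funext i
      rw [Fin.fin_one_eq_zero i]
      exact h
    · exact ⟨fun _ => S, Fintype.mem_piFinset.2 fun _ => hS, rfl⟩
  have e2 : ∀ (q : ℕ) (F : ℕ → ℂ), ∑ n ∈ box 1 q, F (n 0) = ∑ n ∈ range q, F n := by
    intro q F
    unfold Pool.Agent.TH894.NE.box
    refine sum_nbij (fun S => S 0) (fun S hS => (Fintype.mem_piFinset.1 hS) 0) (fun S _ S' _ h => ?_) (fun S hS => ?_)
      (fun _ _ => rfl)
    · funext i
      rw [Fin.fin_one_eq_zero i]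
      exact h
    · exact ⟨fun _ => S, Fintype.mem_piFinset.2 fun _ => hS, rfl⟩
  have e3 := e1 (powersetCard r (range K)) (fun S => ∏ p ∈ P, G p (change b K N f S))
  rw [e3] at h1
  simp only [Finset.univ_unique, Finset.prod_singleton] at h1
  have e4 : ∀ p ∈ P, meanC 1 (p ^ 2) (fun n => G p (n 0)) = 1 / ((p ^ 2 : ℕ) : ℂ) * ∑ n ∈ range (p ^ 2), G p n := by
    intro p _
    unfold meanC
    rw [e2, pow_one]
  rw [prod_congr rfl e4] at h1
  exact h1

end Pool.Agent.Q235.FE
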