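import Pool.Agent.Q235.FE.Mom

/-! Averages of products of functions of the symbols over the numbers with few changed digits which are not divisible by the
squares of the primes concerned. -/

set_option autoImplicit false

namespace Pool.Agent.Q235.FE

open Finset
open Pool.Agent.Q235.FD (change digit)

lemma sum_periods (p k : ℕ) (h : ℕ → ℂ) (hh : ∀ n, h (n + p) = h n) :
    ∑ n ∈ range (p * k), h n = k * ∑ n ∈ range p, h n := by
  have hk : ∀ k n : ℕ, h (p * k + n) = h n := by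
    intro k n
    induction k with
    | zero => simp
    | succ k ih => rw [show p * (k + 1) + n = (p * k + n) + p by ring, hh, ih]
  induction k with
  | zero => simp
  | succ k ih =>
    rw [Nat.mul_succ, Finset.sum_range_add, ih, sum_congr rfl fun n _ => hk k n]
    push_cast
    ring

lemma sum_symbol {p : ℕ} (hp : p.Prime) (h2 : p ≠ 2) (t : ℤ) (ht : t = 1 ∨ t = -1) (g : ℤ → ℂ) :
    ∑ n ∈ range p, g (jacobiSym (t * (n : ℤ)) p) = g 0 + ((p : ℂ) - 1) / 2 * (g 1 + g (-1)) := by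
  have : Fact p.Prime := ⟨hp⟩
  have : NeZero p := ⟨hp.ne_zero⟩
  have e1 : ∀ n : ℕ, jacobiSym (t * (n : ℤ)) p = quadraticChar (ZMod p) ((t : ZMod p) * (n : ZMod p)) := by
    intro n
    rw [← jacobiSym.legendreSym.to_jacobiSym]
    unfold legendreSym
    push_cast
    rfl
  have e2 : ∑ n ∈ range p, g (jacobiSym (t * (n : ℤ)) p) = ∑ a : ZMod p, g (quadraticChar (ZMod p) ((t : ZMod p) * a)) := by
    rw [sum_congr rfl fun n _ => by rw [e1 n]]
    refine sum_nbij' (fun n => (n : ZMod p)) (fun a => a.val) (fun _ _ => mem_univ _) (fun a _ => mem_range.2 (ZMod.val_lt a))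
      (fun n hn => ZMod.val_cast_of_lt (mem_range.1 hn)) (fun a _ => ZMod.natCast_zmod_val a) (fun _ _ => rfl)
  have e3 : ∑ a : ZMod p, g (quadraticChar (ZMod p) ((t : ZMod p) * a)) = ∑ a : ZMod p, g (quadraticChar (ZMod p) a) := by
    rcases ht with rfl | rfl
    · refine sum_congr rfl fun a _ => ?_
      congr 2
      push_cast
      ring
    · refine (Fintype.sum_equiv (Equiv.neg (ZMod p)) _ _ fun a => ?_)
      congr 2
      push_cast
      rw [Equiv.neg_apply]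
      ring
  have e4 : ∀ a : ZMod p, g (quadraticChar (ZMod p) a) = g 0 * (1 - (quadraticChar (ZMod p) a : ℂ) ^ 2) +
      (g 1 + g (-1)) / 2 * (quadraticChar (ZMod p) a : ℂ) ^ 2 + (g 1 - g (-1)) / 2 * (quadraticChar (ZMod p) a : ℂ) := by
    intro a
    by_cases ha : a = 0
    · rw [ha, quadraticChar_zero]
      push_cast
      ring
    · rcases quadraticChar_dichotomy ha with h | h
      · rw [h]
        push_cast
        ring
      · rw [h]
        push_cast
        ring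
  have e5 : ∑ a : ZMod p, (quadraticChar (ZMod p) a : ℂ) = 0 := by
    have := quadraticChar_sum_zero (F := ZMod p) (by rwa [ZMod.ringChar_zmod_n])
    exact_mod_cast this
  have e6 : ∑ a : ZMod p, (quadraticChar (ZMod p) a : ℂ) ^ 2 = (p : ℂ) - 1 := by
    have h1 : ∀ a : ZMod p, (quadraticChar (ZMod p) a : ℂ) ^ 2 = 1 - (if a = 0 then 1 else 0) := by
      intro a
      by_cases ha : a = 0
      · rw [if_pos ha, ha, quadraticChar_zero]
        push_cast
        ring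
      · rw [if_neg ha, sub_zero]
        have := quadraticChar_sq_one ha
        exact_mod_cast this
    rw [sum_congr rfl fun a _ => h1 a, sum_sub_distrib, sum_const, card_univ, ZMod.card, sum_ite_eq' univ (0 : ZMod p),
      if_pos (mem_univ _), nsmul_eq_mul, mul_one]
  rw [e2, e3, sum_congr rfl fun a _ => e4 a, sum_add_distrib, sum_add_distrib, ← mul_sum, ← mul_sum, ← mul_sum, e5,
    sum_sub_distrib, e6, sum_const, card_univ, ZMod.card, nsmul_eq_mul]
  ring

/-- The primes `β ^ 2 < p ≤ x`. -/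
def primesBetween (β x : ℕ) : Finset ℕ := (range (x + 1)).filter fun p => p.Prime ∧ β ^ 2 < p

/-- `m` is not divisible by the square of any prime `β ^ 2 < p ≤ x`. -/
def Free (β x m : ℕ) : Prop := ∀ p ∈ primesBetween β x, ¬ p ^ 2 ∣ m

open Classical in
/-- The choices of `r` of `K` positions for which the number obtained from `N` (by changing the digits at the chosen
positions, according to `f`) is not divisible by the square of any prime `β ^ 2 < p ≤ x`. -/
noncomputable def freeChoices (β K r N : ℕ) (f : ℕ → ℕ) (x : ℕ) : Finset (Finset ℕ) :=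
  (powersetCard r (range K)).filter fun S => Free β x (change β K N f S)

/-- the local mean over the classes modulo `p ^ 2` different from `0` -/
noncomputable def local0 (p : ℕ) (g : ℤ → ℂ) : ℂ := (1 / 2 * (g 1 + g (-1)) + g 0 / p) / (1 + 1 / (p : ℂ))

lemma local_eq {p : ℕ} (hp : p.Prime) (h2 : p ≠ 2) (t : ℤ) (ht : t = 1 ∨ t = -1) (g : ℤ → ℂ) :
    1 / ((p ^ 2 : ℕ) : ℂ) * ∑ n ∈ range (p ^ 2), (if p ^ 2 ∣ n then 0 else g (jacobiSym (t * (n : ℤ)) p)) =
      (1 - 1 / (p : ℂ) ^ 2) * local0 p g := by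
  have hp0 : (p : ℂ) ≠ 0 := by exact_mod_cast hp.ne_zero
  have hp1 : (1 : ℂ) + 1 / p ≠ 0 := by
    have : ((p : ℂ) + 1) ≠ 0 := by exact_mod_cast (Nat.succ_ne_zero p)
    rw [show (1 : ℂ) + 1 / p = (p + 1) / p by field_simp]
    exact div_ne_zero this hp0
  have e1 : ∀ n ∈ range (p ^ 2), (if p ^ 2 ∣ n then 0 else g (jacobiSym (t * (n : ℤ)) p)) =
      g (jacobiSym (t * (n : ℤ)) p) - (if n = 0 then g 0 else 0) := by
    intro n hn
    by_cases h : n = 0
    · rw [h, if_pos (dvd_zero _), if_pos rfl]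
      have : Fact p.Prime := ⟨hp⟩
      have e : jacobiSym (t * ((0 : ℕ) : ℤ)) p = 0 := by
        rw [← jacobiSym.legendreSym.to_jacobiSym]
        unfold legendreSym
        simp
      rw [e, sub_self]
    · have h1 : ¬ p ^ 2 ∣ n := fun hd => by
        have := Nat.le_of_dvd (Nat.pos_of_ne_zero h) hd
        have := mem_range.1 hn
        omega
      rw [if_neg h1, if_neg h, sub_zero]
  rw [sum_congr rfl e1, sum_sub_distrib]
  have e2 : ∑ n ∈ range (p ^ 2), (if n = 0 then g 0 else 0) = g 0 := by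
    rw [sum_ite_eq' (range (p ^ 2)) 0 (fun _ => g 0), if_pos (mem_range.2 (pow_pos hp.pos 2))]
  rw [e2, pow_two p, sum_periods p p (fun n => g (jacobiSym (t * (n : ℤ)) p)) (fun n => by
    beta_reduce
    congr 1
    rw [jacobiSym.mod_left, jacobiSym.mod_left (t * (n : ℤ)) p]
    congr 1
    push_cast
    rw [mul_add, Int.add_mul_emod_self_right]), sum_symbol hp h2 t ht g]
  unfold local0
  push_cast
  field_simp
  ring

lemma local_norm {p : ℕ} (hp : p.Prime) {B : ℝ} (g : ℤ → ℂ) (h0 : ‖g 0‖ ≤ B) (h1 : ‖g 1‖ ≤ B) (h2 : ‖g (-1)‖ ≤ B) :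
    ‖local0 p g‖ ≤ B := by
  have hp0 : (0 : ℝ) < p := by exact_mod_cast hp.pos
  unfold local0
  have e : (1 : ℂ) + 1 / (p : ℂ) = ((1 + 1 / (p : ℝ) : ℝ) : ℂ) := by push_cast; ring
  have hpos : 0 < 1 + 1 / (p : ℝ) := by positivity
  rw [norm_div, e, Complex.norm_real, Real.norm_eq_abs, abs_of_pos hpos, div_le_iff₀ hpos]
  refine (norm_add_le _ _).trans ?_
  rw [norm_mul, norm_div, norm_div, norm_one, Complex.norm_natCast, Complex.norm_ofNat]
  have h3 : ‖g 1 + g (-1)‖ ≤ 2 * B := (norm_add_le _ _).trans (by linarith)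
  have h4 : ‖g 0‖ / p ≤ B / p := div_le_div_of_nonneg_right h0 hp0.le
  have h5 : B * (1 + 1 / (p : ℝ)) = B + B / p := by ring
  rw [h5]
  linarith

lemma prod_sq_ge (x : ℕ) (P : Finset ℕ) (hP : ∀ p ∈ P, 2 ≤ p ∧ p ≤ x) : (1 : ℝ) / 2 ≤ ∏ p ∈ P, (1 - 1 / (p : ℝ) ^ 2) := by
  have h1 : ∀ x : ℕ, 1 ≤ x → ∏ n ∈ Icc 2 x, (1 - 1 / (n : ℝ) ^ 2) = ((x : ℝ) + 1) / (2 * x) := by
    intro x hx
    induction x, hx using Nat.le_induction with
    | base => norm_num
    | succ x hx ih =>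
      have hx0 : (0 : ℝ) < x := by exact_mod_cast hx
      rw [prod_Icc_succ_top (by omega : 2 ≤ x + 1), ih]
      push_cast
      field_simp
      ring
  rcases P.eq_empty_or_nonempty with rfl | ⟨p₀, hp₀⟩
  · simp only [prod_empty]
    norm_num
  · have hx1 : 1 ≤ x := by
      have := hP p₀ hp₀
      omega
    have h2 : ∏ n ∈ Icc 2 x, (1 - 1 / (n : ℝ) ^ 2) ≤ ∏ p ∈ P, (1 - 1 / (p : ℝ) ^ 2) := by
      refine prod_le_prod_of_subset_of_le_one (fun p hp => mem_Icc.2 (hP p hp)) (fun n hn => ?_) (fun n hn _ => ?_)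
      · have h3 : (1 : ℝ) ≤ n := by
          have := (mem_Icc.1 hn).1
          exact_mod_cast (by omega : 1 ≤ n)
        have h4 : 1 / (n : ℝ) ^ 2 ≤ 1 := by
          rw [div_le_one (by positivity)]
          nlinarith
        linarith
      · have : 0 ≤ 1 / (n : ℝ) ^ 2 := by positivity
        linarith
    refine le_trans ?_ h2
    rw [h1 x hx1]
    have hx0 : (0 : ℝ) < x := by exact_mod_cast hx1
    rw [div_le_div_iff₀ (by norm_num) (by positivity)]
    nlinarith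

/-- the averages over the free choices -/
theorem free_avg (β : ℕ) (hβ : 2 ≤ β) (B : ℝ) (hB : 1 ≤ B) (A : ℝ) (hA : 0 ≤ A) : ∃ c : ℝ, 0 < c ∧
    ∀ (x K r N : ℕ) (f : ℕ → ℕ), 1 ≤ x → 2 * r ≤ K → (x : ℝ) ≤ c * Real.sqrt r → N < β ^ K →
      (∀ j, f j < β ∧ f j ≠ digit β j N) →
      (K.choose r : ℝ) / 4 ≤ (freeChoices β K r N f x).card ∧
      ∀ (t : ℤ), (t = 1 ∨ t = -1) → ∀ (g : ℕ → ℤ → ℂ),
        (∀ p ∈ primesBetween β x, ‖g p 0‖ ≤ B ∧ ‖g p 1‖ ≤ B ∧ ‖g p (-1)‖ ≤ B) →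
        ‖(∑ S ∈ freeChoices β K r N f x, ∏ p ∈ primesBetween β x, g p (jacobiSym (t * (change β K N f S : ℕ)) p)) /
            (freeChoices β K r N f x).card - ∏ p ∈ primesBetween β x, local0 p (g p)‖ ≤ (3 : ℝ) ^ (-(A * x)) := by
  classical
  obtain ⟨a, ha0, ha⟩ : ∃ a : ℝ, 0 ≤ a ∧ (3 : ℝ) ^ a = B := by
    refine ⟨Real.logb 3 B, Real.logb_nonneg (by norm_num) hB, Real.rpow_logb (by norm_num) (by norm_num) (by linarith)⟩
  obtain ⟨c, hc, H⟩ := moments_one β hβ (A + a + 3) (by positivity)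
  refine ⟨c, hc, fun x K r N f hx hrK hxr hN hf => ?_⟩
  obtain ⟨P, hP⟩ : ∃ P, P = primesBetween β x := ⟨_, rfl⟩
  have hmem : ∀ p ∈ P, p.Prime ∧ β * β < p ∧ p ≤ x := by
    intro p hp
    rw [hP] at hp
    unfold primesBetween at hp
    obtain ⟨h1, h2, h3⟩ := mem_filter.1 hp
    exact ⟨h2, by rwa [← pow_two], by have := mem_range.1 h1; omega⟩
  have hne2 : ∀ p ∈ P, p ≠ 2 := by
    intro p hp
    have := (hmem p hp).2.1
    have h4 : 4 ≤ β * β := Nat.mul_le_mul hβ hβ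
    omega
  obtain ⟨W, hW⟩ : ∃ W : ℝ, W = (K.choose r : ℝ) := ⟨_, rfl⟩
  have hW0 : 0 < W := by
    rw [hW]
    exact_mod_cast Nat.choose_pos (by omega : r ≤ K)
  obtain ⟨F, hF⟩ : ∃ F, F = freeChoices β K r N f x := ⟨_, rfl⟩
  obtain ⟨π, hπ⟩ : ∃ π : ℝ, π = ∏ p ∈ P, (1 - 1 / (p : ℝ) ^ 2) := ⟨_, rfl⟩
  have hπ1 : 1 / 2 ≤ π := by
    rw [hπ]
    exact prod_sq_ge x P fun p hp => ⟨(hmem p hp).1.two_le, (hmem p hp).2.2⟩
  obtain ⟨ε, hε⟩ : ∃ ε : ℝ, ε = (3 : ℝ) ^ (-((A + a + 3) * x)) := ⟨_, rfl⟩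
  have hε0 : 0 < ε := by rw [hε]; exact Real.rpow_pos_of_pos (by norm_num) _
  have hxr1 : (1 : ℝ) ≤ x := by exact_mod_cast hx
  -- the two sums
  have key : ∀ (t : ℤ), (t = 1 ∨ t = -1) → ∀ (g : ℕ → ℤ → ℂ) (B' : ℝ),
      (∀ p ∈ P, ‖g p 0‖ ≤ B' ∧ ‖g p 1‖ ≤ B' ∧ ‖g p (-1)‖ ≤ B') → 0 ≤ B' →
      ‖∑ S ∈ F, ∏ p ∈ P, g p (jacobiSym (t * (change β K N f S : ℕ)) p) -
        (W : ℂ) * (π * ∏ p ∈ P, local0 p (g p))‖ ≤ ε * W * ∏ p ∈ P, B' := by
    intro t ht g B' hg hB'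
    have h1 := H x K r N f hx hrK hxr hN hf P hmem (fun _ => B')
      (fun p n => if p ^ 2 ∣ n then 0 else g p (jacobiSym (t * (n : ℤ)) p)) (fun p hp n => by
        beta_reduce
        have e1 : (p ^ 2 ∣ n) ↔ (p ^ 2 ∣ n % p ^ 2) := (Nat.dvd_mod_iff (dvd_refl _)).symm
        have e2 : jacobiSym (t * (n : ℤ)) p = jacobiSym (t * ((n % p ^ 2 : ℕ) : ℤ)) p := by
          rw [jacobiSym.mod_left, jacobiSym.mod_left (t * ((n % p ^ 2 : ℕ) : ℤ)) p]
          congr 1
          push_cast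
          rw [Int.mul_emod, Int.mul_emod t ((n : ℤ) % (p : ℤ) ^ 2),
            Int.emod_emod_of_dvd (n : ℤ) (dvd_pow_self (p : ℤ) two_ne_zero)]
        rw [e2]
        by_cases h : p ^ 2 ∣ n
        · rw [if_pos h, if_pos (e1.1 h)]
        · rw [if_neg h, if_neg fun h' => h (e1.2 h')]) (fun p hp n => by
        beta_reduce
        obtain ⟨k0, k1, k2⟩ := hg p hp
        split_ifs with h
        · rw [norm_zero]
          exact hB'
        · rcases jacobiSym.trichotomy (t * (n : ℤ)) p with h' | h' | h'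
          · rw [h']; exact k0
          · rw [h']; exact k1
          · rw [h']; exact k2)
    have e1 : ∑ S ∈ powersetCard r (range K), ∏ p ∈ P, (if p ^ 2 ∣ change β K N f S then 0 else
        g p (jacobiSym (t * (change β K N f S : ℕ)) p)) =
        ∑ S ∈ F, ∏ p ∈ P, g p (jacobiSym (t * (change β K N f S : ℕ)) p) := by
      rw [hF]
      unfold freeChoices
      rw [sum_filter]
      refine sum_congr rfl fun S _ => ?_
      unfold Free
      rw [← hP]
      split_ifs with h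
      · exact prod_congr rfl fun p hp => if_neg (h p hp)
      · push Not at h
        obtain ⟨p, hp, hd⟩ := h
        exact prod_eq_zero hp (if_pos hd)
    have e2 : ∏ p ∈ P, (1 / ((p ^ 2 : ℕ) : ℂ) * ∑ n ∈ range (p ^ 2), (if p ^ 2 ∣ n then 0 else
        g p (jacobiSym (t * (n : ℤ)) p))) = π * ∏ p ∈ P, local0 p (g p) := by
      rw [prod_congr rfl fun p hp => local_eq (hmem p hp).1 (hne2 p hp) t ht (g p), prod_mul_distrib, hπ]
      push_cast
      rfl
    rw [e1, e2, ← hε, ← hW] at h1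
    rw [hW] at h1 ⊢
    push_cast at h1 ⊢
    exact h1
  have hcard := key 1 (Or.inl rfl) (fun _ _ => 1) 1 (fun p _ => by simp) zero_le_one
  have hl1 : ∀ p ∈ P, local0 p (fun _ => 1) = 1 := by
    intro p hp
    unfold local0
    have hp0 : (p : ℂ) ≠ 0 := by exact_mod_cast (hmem p hp).1.ne_zero
    have hp1 : (1 : ℂ) + 1 / p ≠ 0 := by
      have : ((p : ℂ) + 1) ≠ 0 := by exact_mod_cast (Nat.succ_ne_zero p)
      rw [show (1 : ℂ) + 1 / p = (p + 1) / p by field_simp]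
      exact div_ne_zero this hp0
    rw [div_eq_one_iff_eq hp1]
    norm_num
  rw [prod_congr rfl hl1] at hcard
  simp only [prod_const_one, sum_const, nsmul_eq_mul, mul_one] at hcard
  have hcard' : |(F.card : ℝ) - W * π| ≤ ε * W := by
    have e : ((F.card : ℂ) - (W : ℂ) * (π : ℂ)) = (((F.card : ℝ) - W * π : ℝ) : ℂ) := by push_cast; ring
    rw [e, Complex.norm_real, Real.norm_eq_abs] at hcard
    exact hcard
  have hε27 : 27 * ε ≤ 1 := by
    have h1 : ε ≤ (3 : ℝ) ^ (-(3 : ℝ)) := by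
      rw [hε]
      apply Real.rpow_le_rpow_of_exponent_le (by norm_num)
      nlinarith
    have h2 : (3 : ℝ) ^ (-(3 : ℝ)) = 1 / 27 := by
      rw [Real.rpow_neg (by norm_num), show (3 : ℝ) = ((3 : ℕ) : ℝ) by norm_num, Real.rpow_natCast]
      norm_num
    rw [h2] at h1
    linarith
  have hF4 : W / 4 ≤ F.card := by
    have h1 := (abs_le.1 hcard').1
    nlinarith
  have hF0 : (0 : ℝ) < F.card := by linarith
  rw [← hF, ← hP, ← hW]
  refine ⟨hF4, fun t ht g hg => ?_⟩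
  have hV := key t ht g B hg (by linarith)
  obtain ⟨R, hR⟩ : ∃ R, R = ∏ p ∈ P, local0 p (g p) := ⟨_, rfl⟩
  obtain ⟨V, hV'⟩ : ∃ V, V = ∑ S ∈ F, ∏ p ∈ P, g p (jacobiSym (t * (change β K N f S : ℕ)) p) := ⟨_, rfl⟩
  rw [← hR, ← hV'] at hV ⊢
  have hBx : ∏ p ∈ P, B ≤ (3 : ℝ) ^ (a * x) := by
    rw [prod_const, Real.rpow_mul (by norm_num), ha, Real.rpow_natCast]
    apply pow_le_pow_right₀ hB
    have h1 : P ⊆ Icc 1 x := fun p hp => mem_Icc.2 ⟨(hmem p hp).1.one_lt.le, (hmem p hp).2.2⟩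
    have h2 := card_le_card h1
    rwa [Nat.card_Icc, Nat.add_sub_cancel] at h2
  have hRB : ‖R‖ ≤ (3 : ℝ) ^ (a * x) := by
    refine le_trans ?_ hBx
    rw [hR, norm_prod]
    exact prod_le_prod (fun _ _ => norm_nonneg _) fun p hp =>
      local_norm (hmem p hp).1 (g p) (hg p hp).1 (hg p hp).2.1 (hg p hp).2.2
  obtain ⟨b, hb⟩ : ∃ b : ℝ, b = (3 : ℝ) ^ (a * x) := ⟨_, rfl⟩
  rw [← hb] at hBx hRB
  have hb0 : 0 ≤ b := (norm_nonneg _).trans hRB
  have h1 : ‖V - F.card * R‖ ≤ 2 * (ε * W * b) := by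
    have e : V - F.card * R = (V - (W : ℂ) * (π * R)) - ((((F.card : ℝ) - W * π : ℝ) : ℂ)) * R := by
      push_cast
      ring
    rw [e]
    refine (norm_sub_le _ _).trans ?_
    rw [norm_mul, Complex.norm_real, Real.norm_eq_abs]
    have h2 : |(F.card : ℝ) - W * π| * ‖R‖ ≤ ε * W * b := mul_le_mul hcard' hRB (norm_nonneg _) (by positivity)
    have h3 : ε * W * ∏ p ∈ P, B ≤ ε * W * b := mul_le_mul_of_nonneg_left hBx (by positivity)
    linarith
  have hFc : (F.card : ℂ) ≠ 0 := by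
    have : F.card ≠ 0 := by
      intro h
      rw [h] at hF0
      simp at hF0
    exact_mod_cast this
  have e : V / F.card - R = (V - F.card * R) / F.card := by field_simp
  rw [e, norm_div, Complex.norm_natCast, div_le_iff₀ hF0]
  refine h1.trans ?_
  have h4 : 8 * (ε * b) ≤ (3 : ℝ) ^ (-(A * x)) := by
    have h5 : ε * b = (3 : ℝ) ^ (-(A * x)) * (3 : ℝ) ^ (-(3 * (x : ℝ))) := by
      rw [hε, hb, ← Real.rpow_add (by norm_num), ← Real.rpow_add (by norm_num)]
      congr 1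
      ring
    have h6 : (3 : ℝ) ^ (-(3 * (x : ℝ))) ≤ 1 / 27 := by
      have h7 : (3 : ℝ) ^ (-(3 * (x : ℝ))) ≤ (3 : ℝ) ^ (-(3 : ℝ)) := by
        apply Real.rpow_le_rpow_of_exponent_le (by norm_num)
        linarith
      have h2 : (3 : ℝ) ^ (-(3 : ℝ)) = 1 / 27 := by
        rw [Real.rpow_neg (by norm_num), show (3 : ℝ) = ((3 : ℕ) : ℝ) by norm_num, Real.rpow_natCast]
        norm_num
      rwa [h2] at h7
    have h8 : (0 : ℝ) < (3 : ℝ) ^ (-(A * x)) := Real.rpow_pos_of_pos (by norm_num) _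
    rw [h5]
    nlinarith
  have h9 : 0 ≤ (3 : ℝ) ^ (-(A * x)) := (Real.rpow_pos_of_pos (by norm_num) _).le
  calc 2 * (ε * W * b) = 8 * (ε * b) * (W / 4) := by ring
    _ ≤ (3 : ℝ) ^ (-(A * x)) * (W / 4) := mul_le_mul_of_nonneg_right h4 (by linarith)
    _ ≤ (3 : ℝ) ^ (-(A * x)) * F.card := mul_le_mul_of_nonneg_left hF4 h9

end Pool.Agent.Q235.FE
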