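import Pool.Agent.Q235.FE.MomQ
import Pool.Agent.Q235.FE.Loc
import Pool.Agent.Q28.BP.Lsi

/-! The order of the real moments. -/

set_option autoImplicit false

namespace Pool.Agent.Q235.FE

open Finset
open Pool.Agent.Q235.FD (change digit)

lemma mem_between {β x p : ℕ} (hβ : 2 ≤ β) (hp : p ∈ primesBetween β x) : p.Prime ∧ 5 ≤ p ∧ p ≤ x ∧ p ≠ 2 := by
  unfold primesBetween at hp
  obtain ⟨h1, h2, h3⟩ := mem_filter.1 hp
  have h4 : 4 ≤ β ^ 2 := by nlinarith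
  have := mem_range.1 h1
  exact ⟨h2, by omega, by omega, by omega⟩

lemma sum_between {β : ℕ} (hβ : 2 ≤ β) : ∃ C : ℝ, 0 ≤ C ∧ ∀ x : ℕ, 3 ≤ x →
    |∑ p ∈ primesBetween β x, 1 / (p : ℝ) - Real.log (Real.log x)| ≤ C := by
  obtain ⟨C₀, hC₀, H⟩ := Pool.Agent.Q28.BP.sum_inv_loglog
  refine ⟨C₀ + ∑ p ∈ range (β ^ 2 + 1), 1 / (p : ℝ), by positivity, fun x hx => ?_⟩
  have h1 := H x hx
  have h2 : ∑ p ∈ (range (x + 1)).filter Nat.Prime, 1 / (p : ℝ) = ∑ p ∈ primesBetween β x, 1 / (p : ℝ) +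
      ∑ p ∈ (range (x + 1)).filter (fun p => p.Prime ∧ ¬ β ^ 2 < p), 1 / (p : ℝ) := by
    unfold primesBetween
    rw [← filter_filter, ← filter_filter, sum_filter_add_sum_filter_not]
  have h3 : ∑ p ∈ (range (x + 1)).filter (fun p => p.Prime ∧ ¬ β ^ 2 < p), 1 / (p : ℝ) ≤
      ∑ p ∈ range (β ^ 2 + 1), 1 / (p : ℝ) := by
    apply sum_le_sum_of_subset_of_nonneg
    · intro p hp
      have := (mem_filter.1 hp).2.2
      exact mem_range.2 (by omega)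
    · intro _ _ _
      positivity
  have h4 : 0 ≤ ∑ p ∈ (range (x + 1)).filter (fun p => p.Prime ∧ ¬ β ^ 2 < p), 1 / (p : ℝ) :=
    sum_nonneg fun _ _ => by positivity
  rw [h2] at h1
  rw [abs_le] at h1 ⊢
  constructor <;> linarith [h1.1, h1.2]

/-- `s = 1 / √p` -/
lemma inv_sqrt {p : ℕ} (h5 : 5 ≤ p) : 0 < 1 / Real.sqrt p ∧ 1 / Real.sqrt p ≤ 1 / 2 ∧ (1 / Real.sqrt p) ^ 2 = 1 / p := by
  have hp : (5 : ℝ) ≤ p := by exact_mod_cast h5
  have hs : 2 ≤ Real.sqrt p := by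
    rw [show (2 : ℝ) = Real.sqrt 4 by
      rw [show (4 : ℝ) = 2 ^ 2 by norm_num, Real.sqrt_sq (by norm_num)]]
    exact Real.sqrt_le_sqrt (by linarith)
  refine ⟨by positivity, ?_, ?_⟩
  · exact div_le_div_of_nonneg_left (by norm_num) (by norm_num) hs
  · rw [div_pow, one_pow, Real.sq_sqrt (by linarith)]

/-- the factors are at least `1 / 4` -/
lemma factor_ge {p : ℕ} (h5 : 5 ≤ p) {u v : ℝ} (hu : |u| ≤ 1 + v) (hv : v = 0 ∨ v = 1) :
    1 / 4 ≤ 1 - u * (1 / Real.sqrt p) + v * (1 / Real.sqrt p) ^ 2 := by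
  obtain ⟨s, hs⟩ : ∃ s, s = 1 / Real.sqrt p := ⟨_, rfl⟩
  obtain ⟨h1, h2, h3⟩ := inv_sqrt h5
  rw [← hs] at h1 h2 h3 ⊢
  have h4 : u * s ≤ (1 + v) * s := mul_le_mul_of_nonneg_right ((le_abs_self u).trans hu) h1.le
  rcases hv with rfl | rfl
  · linarith
  · nlinarith

/-- the order of a product of local factors -/
lemma prod_order {β : ℕ} (hβ : 2 ≤ β) (M θ : ℕ → ℝ) (C₁ : ℝ) (hC₁ : 0 ≤ C₁)
    (x : ℕ) (h : ∀ p ∈ primesBetween β x, 0 < M p ∧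
      |Real.log (M p) - θ p * (1 / Real.sqrt p) ^ 2| ≤ C₁ * (1 / Real.sqrt p) ^ 3) :
    |Real.log (∏ p ∈ primesBetween β x, M p) - ∑ p ∈ primesBetween β x, θ p / p| ≤
      C₁ * ∑' n : ℕ, (n : ℝ) ^ (-(3 / 2) : ℝ) := by
  rw [Real.log_prod (fun p hp => (h p hp).1.ne'), ← sum_sub_distrib]
  refine (abs_sum_le_sum_abs _ _).trans ?_
  have h1 : ∀ p ∈ primesBetween β x, |Real.log (M p) - θ p / p| ≤ C₁ * (p : ℝ) ^ (-(3 / 2) : ℝ) := by
    intro p hp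
    obtain ⟨h2, h3⟩ := h p hp
    obtain ⟨g1, g2, g3, g4⟩ := mem_between hβ hp
    have hp0 : (0 : ℝ) < p := by exact_mod_cast g1.pos
    rw [(inv_sqrt g2).2.2] at h3
    have e : (1 / Real.sqrt p) ^ 3 = (p : ℝ) ^ (-(3 / 2) : ℝ) := by
      rw [Real.sqrt_eq_rpow, one_div, ← Real.rpow_neg hp0.le, ← Real.rpow_natCast, ← Real.rpow_mul hp0.le]
      norm_num
    rw [e] at h3
    have e2 : θ p * (1 / (p : ℝ)) = θ p / p := by ring
    rwa [e2] at h3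
  refine (sum_le_sum h1).trans ?_
  rw [← mul_sum]
  apply mul_le_mul_of_nonneg_left _ hC₁
  apply Summable.sum_le_tsum _ (fun n _ => by positivity)
  rw [Real.summable_nat_rpow]
  norm_num

/-- the real moments of products of Euler factors over the free choices -/
theorem real_moments (β : ℕ) (hβ : 2 ≤ β) (κ : ℝ) : ∃ c C : ℝ, 0 < c ∧ 0 < C ∧
    ∀ (x K r N : ℕ) (f : ℕ → ℕ), 1 ≤ x → 2 * r ≤ K → (x : ℝ) ≤ c * Real.sqrt r → N < β ^ K →
      (∀ j, f j < β ∧ f j ≠ digit β j N) → ∀ t : ℤ, (t = 1 ∨ t = -1) → ∀ u v : ℕ → ℝ, (∀ p, |u p| ≤ 1 + v p) →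
      (∀ p, v p = 0 ∨ v p = 1) →
      0 < (freeChoices β K r N f x).card ∧
      C⁻¹ * Real.exp (∑ p ∈ primesBetween β x, (κ * (κ + 1) * (u p) ^ 2 / 2 - κ * v p) / p) ≤
        (∑ S ∈ freeChoices β K r N f x, ∏ p ∈ primesBetween β x,
          (1 - u p * ((jacobiSym (t * (change β K N f S : ℕ)) p : ℝ) / Real.sqrt p) +
            v p * ((jacobiSym (t * (change β K N f S : ℕ)) p : ℝ) / Real.sqrt p) ^ 2) ^ (-κ)) /
          (freeChoices β K r N f x).card ∧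
      (∑ S ∈ freeChoices β K r N f x, ∏ p ∈ primesBetween β x,
          (1 - u p * ((jacobiSym (t * (change β K N f S : ℕ)) p : ℝ) / Real.sqrt p) +
            v p * ((jacobiSym (t * (change β K N f S : ℕ)) p : ℝ) / Real.sqrt p) ^ 2) ^ (-κ)) /
          (freeChoices β K r N f x).card ≤
        C * Real.exp (∑ p ∈ primesBetween β x, (κ * (κ + 1) * (u p) ^ 2 / 2 - κ * v p) / p) := by
  obtain ⟨CE, hCE, HE⟩ := mean_exp κ
  have hk := abs_nonneg κ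
  obtain ⟨c, hc, H⟩ := free_avg β hβ ((4 : ℝ) ^ |κ|) (Real.one_le_rpow (by norm_num) hk) (2 * |κ| + 1) (by positivity)
  obtain ⟨Θ, hΘ⟩ : ∃ Θ, Θ = 2 * |κ| * (|κ| + 1) + |κ| := ⟨_, rfl⟩
  have hΘ0 : 0 ≤ Θ := by rw [hΘ]; positivity
  obtain ⟨m₀, hm₀⟩ : ∃ m₀ : ℝ, m₀ = (4 : ℝ) ^ (-|κ|) := ⟨_, rfl⟩
  have hm0 : 0 < m₀ := by rw [hm₀]; exact Real.rpow_pos_of_pos (by norm_num) _
  have hm1 : m₀ ≤ 1 := by
    rw [hm₀]
    exact Real.rpow_le_one_of_one_le_of_nonpos (by norm_num) (by linarith)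
  obtain ⟨C₁, hC₁⟩ : ∃ C₁, C₁ = (CE + Θ) + (Θ + (CE + Θ)) ^ 2 / m₀ := ⟨_, rfl⟩
  have hC₁0 : 0 ≤ C₁ := by rw [hC₁]; positivity
  obtain ⟨C₂, hC₂⟩ : ∃ C₂, C₂ = C₁ * ∑' n : ℕ, (n : ℝ) ^ (-(3 / 2) : ℝ) := ⟨_, rfl⟩
  refine ⟨c, 2 * Real.exp C₂, hc, by positivity, fun x K r N f hx hrK hxr hN hf t ht u v hu hv => ?_⟩
  obtain ⟨hF4, Hg⟩ := H x K r N f hx hrK hxr hN hf
  obtain ⟨P, hP⟩ : ∃ P, P = primesBetween β x := ⟨_, rfl⟩
  have hW0 : (0 : ℝ) < K.choose r := by exact_mod_cast Nat.choose_pos (by omega : r ≤ K)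
  have hF0 : (0 : ℝ) < (freeChoices β K r N f x).card := by linarith
  refine ⟨by exact_mod_cast hF0, ?_⟩
  obtain ⟨h, hh⟩ : ∃ h : ℕ → ℤ → ℝ, h = fun (p : ℕ) (e : ℤ) => (1 - u p * ((e : ℝ) / Real.sqrt p) + v p * ((e : ℝ) / Real.sqrt p) ^ 2) ^ (-κ) := ⟨_, rfl⟩
  obtain ⟨θ, hθ⟩ : ∃ θ : ℕ → ℝ, θ = fun p => κ * (κ + 1) * (u p) ^ 2 / 2 - κ * v p := ⟨_, rfl⟩
  obtain ⟨E, hE⟩ : ∃ E : ℕ → ℝ, E = fun p => 1 / 2 * (h p 1 + h p (-1)) := ⟨_, rfl⟩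
  obtain ⟨M, hM⟩ : ∃ M : ℕ → ℝ, M = fun p => (E p + 1 / p) / (1 + 1 / (p : ℝ)) := ⟨_, rfl⟩
  have hv01 : ∀ p, 0 ≤ v p ∧ v p ≤ 1 := by
    intro p
    rcases hv p with h | h <;> rw [h] <;> norm_num
  have hu2 : ∀ p, |u p| ≤ 2 := fun p => (hu p).trans (by linarith [(hv01 p).2])
  have hloc : ∀ p ∈ P, |E p - 1 - θ p * (1 / Real.sqrt p) ^ 2| ≤ CE * (1 / Real.sqrt p) ^ 3 ∧ m₀ ≤ E p ∧
      h p 1 ≤ (4 : ℝ) ^ |κ| ∧ h p (-1) ≤ (4 : ℝ) ^ |κ| ∧ 0 ≤ h p 1 ∧ 0 ≤ h p (-1) := by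
    intro p hp
    rw [hP] at hp
    obtain ⟨g1, g2, g3, g4⟩ := mem_between hβ hp
    obtain ⟨k1, k2, k3⟩ := inv_sqrt g2
    have hf1 := factor_ge g2 (hu p) (hv p)
    have hf2 := factor_ge g2 (u := -u p) (by rw [abs_neg]; exact hu p) (hv p)
    have e2 : 1 - -u p * (1 / Real.sqrt p) + v p * (1 / Real.sqrt p) ^ 2 = 1 + u p * (1 / Real.sqrt p) + v p * (1 / Real.sqrt p) ^ 2 := by
      ring
    rw [e2] at hf2
    obtain ⟨j1, j2, j3, j4⟩ := HE (u p) (v p) (1 / Real.sqrt p) (hu2 p) (hv01 p).1 (hv01 p).2 k1 k2 hf1 hf2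
    have e3 : h p 1 = (1 - u p * (1 / Real.sqrt p) + v p * (1 / Real.sqrt p) ^ 2) ^ (-κ) := by
      rw [hh]
      norm_num
    have e4 : h p (-1) = (1 + u p * (1 / Real.sqrt p) + v p * (1 / Real.sqrt p) ^ 2) ^ (-κ) := by
      rw [hh]
      beta_reduce
      congr 1
      push_cast
      ring
    rw [hE, hθ]
    beta_reduce
    rw [e3, e4, hm₀]
    exact ⟨j1, j2, j3, j4, (Real.rpow_pos_of_pos (by linarith) _).le, (Real.rpow_pos_of_pos (by linarith) _).le⟩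
  have hθΘ : ∀ p, |θ p| ≤ Θ := by
    intro p
    rw [hθ, hΘ]
    beta_reduce
    have hu4 : u p ^ 2 ≤ 4 := by nlinarith [sq_abs (u p), abs_nonneg (u p), hu2 p]
    refine (abs_sub _ _).trans ?_
    rw [abs_div, abs_mul, abs_mul, abs_mul, abs_of_nonneg (sq_nonneg (u p)), abs_of_nonneg (hv01 p).1]
    have h8 : |κ + 1| ≤ |κ| + 1 := (abs_add_le _ _).trans (by norm_num)
    have h9 : |κ| * |κ + 1| * u p ^ 2 ≤ |κ| * (|κ| + 1) * 4 := by
      apply mul_le_mul _ hu4 (sq_nonneg _) (by positivity)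
      exact mul_le_mul_of_nonneg_left h8 hk
    have h10 : |κ| * v p ≤ |κ| := by nlinarith [(hv01 p).1, (hv01 p).2]
    rw [abs_of_pos (show (0 : ℝ) < 2 by norm_num)]
    linarith
  have hMp : ∀ p ∈ P, m₀ ≤ M p ∧ |Real.log (M p) - θ p * (1 / Real.sqrt p) ^ 2| ≤ C₁ * (1 / Real.sqrt p) ^ 3 := by
    intro p hp
    obtain ⟨j1, j2, -⟩ := hloc p hp
    have hp' := hp
    rw [hP] at hp'
    obtain ⟨g1, g2, g3, g4⟩ := mem_between hβ hp'
    obtain ⟨k1, k2, k3⟩ := inv_sqrt g2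
    obtain ⟨s, hs⟩ : ∃ s, s = 1 / Real.sqrt p := ⟨_, rfl⟩
    rw [← hs] at k1 k2 k3 j1 ⊢
    have hMe : M p = (E p + s ^ 2) / (1 + s ^ 2) := by
      rw [hM, k3]
    have hs2 : 0 < 1 + s ^ 2 := by positivity
    have h1 : m₀ ≤ M p := by
      rw [hMe, le_div_iff₀ hs2]
      nlinarith [sq_nonneg s]
    refine ⟨h1, ?_⟩
    have h2 : |M p - 1 - θ p * s ^ 2| ≤ (CE + Θ) * s ^ 3 := by
      have e : M p - 1 - θ p * s ^ 2 = ((E p - 1 - θ p * s ^ 2) - θ p * s ^ 4) / (1 + s ^ 2) := by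
        rw [hMe]
        field_simp
        ring
      rw [e, abs_div, abs_of_pos hs2, div_le_iff₀ hs2]
      have h3 : |θ p * s ^ 4| ≤ Θ * s ^ 3 := by
        rw [abs_mul, abs_of_nonneg (by positivity : 0 ≤ s ^ 4)]
        have h4 : s ^ 4 ≤ s ^ 3 := by
          have : s ^ 4 = s * s ^ 3 := by ring
          rw [this]
          have := pow_pos k1 3
          nlinarith
        exact mul_le_mul (hθΘ p) h4 (by positivity) hΘ0
      have h5 : |(E p - 1 - θ p * s ^ 2) - θ p * s ^ 4| ≤ (CE + Θ) * s ^ 3 := by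
        refine (abs_sub _ _).trans ?_
        rw [add_mul]
        linarith
      have h6 : 0 ≤ (CE + Θ) * s ^ 3 * s ^ 2 := by positivity
      nlinarith
    have h7 := log_near hm0 h1 k1 (by linarith) (by positivity : 0 ≤ CE + Θ) h2
    refine h7.trans ?_
    apply mul_le_mul_of_nonneg_right _ (by positivity)
    rw [hC₁]
    have h8 : (|θ p| + (CE + Θ)) ^ 2 ≤ (Θ + (CE + Θ)) ^ 2 :=
      pow_le_pow_left₀ (by positivity) (by linarith [hθΘ p]) 2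
    have := div_le_div_of_nonneg_right h8 hm0.le
    linarith
  have hord := prod_order hβ M θ C₁ hC₁0 x (fun p hp => by
    rw [← hP] at hp
    exact ⟨by linarith [(hMp p hp).1], (hMp p hp).2⟩)
  rw [← hP, ← hC₂] at hord
  obtain ⟨Pr, hPr⟩ : ∃ Pr, Pr = ∏ p ∈ P, M p := ⟨_, rfl⟩
  have hPr0 : 0 < Pr := by rw [hPr]; exact prod_pos fun p hp => by linarith [(hMp p hp).1]
  rw [← hPr] at hord
  have hcardP : P.card ≤ x := by
    have h1 : P ⊆ Icc 1 x := fun p hp => by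
      rw [hP] at hp
      obtain ⟨g1, g2, g3, g4⟩ := mem_between hβ hp
      exact mem_Icc.2 ⟨g1.one_lt.le, g3⟩
    have h2 := card_le_card h1
    rwa [Nat.card_Icc, Nat.add_sub_cancel] at h2
  have hPrx : (3 : ℝ) ^ (-((2 * |κ| + 1) * x)) ≤ 1 / 2 * Pr := by
    have h1 : m₀ ^ x ≤ Pr := by
      calc m₀ ^ x ≤ m₀ ^ P.card := pow_le_pow_of_le_one hm0.le hm1 hcardP
        _ = ∏ p ∈ P, m₀ := (prod_const _).symm
        _ ≤ Pr := by rw [hPr]; exact prod_le_prod (fun _ _ => hm0.le) fun p hp => (hMp p hp).1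
    have h2 : (3 : ℝ) ^ (-((2 * |κ| + 1) * x)) = ((3 : ℝ) ^ (-(2 * |κ|))) ^ x * (3 : ℝ) ^ (-(x : ℝ)) := by
      rw [← Real.rpow_natCast ((3 : ℝ) ^ (-(2 * |κ|))) x, ← Real.rpow_mul (by norm_num), ← Real.rpow_add (by norm_num)]
      congr 1
      ring
    have h3 : (3 : ℝ) ^ (-(2 * |κ|)) ≤ m₀ := by
      rw [hm₀, show -(2 * |κ|) = 2 * (-|κ|) by ring, Real.rpow_mul (by norm_num)]
      apply Real.rpow_le_rpow_of_nonpos (by norm_num) _ (by linarith)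
      rw [show (2 : ℝ) = ((2 : ℕ) : ℝ) by norm_num, Real.rpow_natCast]
      norm_num
    have h4 : (3 : ℝ) ^ (-(x : ℝ)) ≤ 1 / 2 := by
      have hx1 : (1 : ℝ) ≤ x := by exact_mod_cast hx
      calc (3 : ℝ) ^ (-(x : ℝ)) ≤ (3 : ℝ) ^ (-(1 : ℝ)) :=
            Real.rpow_le_rpow_of_exponent_le (by norm_num) (by linarith)
        _ = 1 / 3 := by rw [Real.rpow_neg_one]; norm_num
        _ ≤ 1 / 2 := by norm_num
    rw [h2]
    have h5 : ((3 : ℝ) ^ (-(2 * |κ|))) ^ x ≤ m₀ ^ x := pow_le_pow_left₀ (by positivity) h3 x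
    have h6 : 0 < (3 : ℝ) ^ (-(x : ℝ)) := Real.rpow_pos_of_pos (by norm_num) _
    calc ((3 : ℝ) ^ (-(2 * |κ|))) ^ x * (3 : ℝ) ^ (-(x : ℝ)) ≤ Pr * (1 / 2) :=
          mul_le_mul (h5.trans h1) h4 h6.le hPr0.le
      _ = 1 / 2 * Pr := by ring
  have h0 : ∀ p, h p 0 = 1 := by
    intro p
    rw [hh]
    norm_num
  have hg := Hg t ht (fun p e => ((h p e : ℝ) : ℂ)) (fun p hp => by
    rw [← hP] at hp
    obtain ⟨j1, j2, j3, j4, j5, j6⟩ := hloc p hp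
    refine ⟨?_, ?_, ?_⟩
    · rw [h0 p]
      norm_num
      exact Real.one_le_rpow (by norm_num) hk
    · rw [Complex.norm_real, Real.norm_eq_abs, abs_of_nonneg j5]
      exact j3
    · rw [Complex.norm_real, Real.norm_eq_abs, abs_of_nonneg j6]
      exact j4)
  obtain ⟨V, hV⟩ : ∃ V : ℝ, V = (∑ S ∈ freeChoices β K r N f x, ∏ p ∈ primesBetween β x,
          (1 - u p * ((jacobiSym (t * (change β K N f S : ℕ)) p : ℝ) / Real.sqrt p) +
            v p * ((jacobiSym (t * (change β K N f S : ℕ)) p : ℝ) / Real.sqrt p) ^ 2) ^ (-κ)) /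
          (freeChoices β K r N f x).card := ⟨_, rfl⟩
  have hVPr : |V - Pr| ≤ (3 : ℝ) ^ (-((2 * |κ| + 1) * x)) := by
    refine le_trans (le_of_eq ?_) hg
    rw [← Real.norm_eq_abs, ← Complex.norm_real]
    congr 1
    rw [hV, hPr, ← hP]
    push_cast
    congr 1
    · congr 1
      refine sum_congr rfl fun S _ => prod_congr rfl fun p _ => ?_
      rw [hh]
    · refine prod_congr rfl fun p _ => ?_
      unfold local0
      rw [hM, hE]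
      beta_reduce
      rw [h0 p]
      push_cast
      ring
  rw [← hV]
  obtain ⟨X, hX⟩ : ∃ X, X = ∑ p ∈ primesBetween β x, (κ * (κ + 1) * (u p) ^ 2 / 2 - κ * v p) / p := ⟨_, rfl⟩
  have hX' : ∑ p ∈ P, θ p / p = X := by rw [hX, hθ, hP]
  rw [← hX]
  rw [hX'] at hord
  have ho := abs_le.1 hord
  have hv' := abs_le.1 hVPr
  have hexp : Pr = Real.exp (Real.log Pr) := (Real.exp_log hPr0).symm
  have u1 : Pr ≤ Real.exp C₂ * Real.exp X := by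
    rw [hexp, ← Real.exp_add]
    exact Real.exp_le_exp.2 (by linarith [ho.2])
  have u2 : Real.exp (-C₂) * Real.exp X ≤ Pr := by
    rw [hexp, ← Real.exp_add]
    exact Real.exp_le_exp.2 (by linarith [ho.1])
  constructor
  · have e : (2 * Real.exp C₂)⁻¹ * Real.exp X = 1 / 2 * (Real.exp (-C₂) * Real.exp X) := by
      rw [mul_inv, Real.exp_neg]
      ring
    rw [e]
    linarith [hv'.1]
  · have : 2 * Real.exp C₂ * Real.exp X = 2 * (Real.exp C₂ * Real.exp X) := by ring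
    rw [this]
    linarith [hv'.2]

end Pool.Agent.Q235.FE
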