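import Pool.Agent.Q235.FE.Central
import Pool.Agent.Q235.FD.Gen

/-!
# Sums over primes of small local functions at integers with few changed digits, for all lengths at once
-/

set_option autoImplicit false

namespace Pool.Agent.Q235.FE

open Finset Filter Topology
open Pool.Agent.TH894.NE (box Per mean card_box)
open Pool.Agent.Q235.FD (Setting exceptions change digit avg avg_equiv)

/-- The property `E θ x` holds for almost all tuples `m` obtained by changing a few digits of arbitrary integers, for all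
`x` in a range `X₀ ≤ x ≤ exp (c √(r l))`: there is `c > 0` such that for every `η > 0` there is `X₀` such that for all `θ`,
all integers `N l` with `K l` digits in base `b`, all `r l ≤ K l / 2` and all prescriptions `f` of new digits the proportion
of the choices of `r l` positions for all `l` such that the tuple obtained does not have this property is at most `η`. -/
def ForMost (L : Type) [Fintype L] (b : ℕ) {Θ : Type} (E : Θ → ℕ → (L → ℕ) → Prop) : Prop :=
  ∃ c : ℝ, 0 < c ∧ ∀ η : ℝ, 0 < η → ∃ X₀ : ℕ, ∀ (θ : Θ) (K r N : L → ℕ) (f : L → ℕ → ℕ), Setting b K r N f →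
    (exceptions b K r N f (fun m => ∀ x : ℕ, X₀ ≤ x → (∀ l, Real.log x ≤ c * Real.sqrt (r l)) → E θ x m) : ℝ) ≤
      η * ∏ l, ((K l).choose (r l) : ℝ)

lemma exceptions_mono {L : Type} [Fintype L] (b : ℕ) (K r N : L → ℕ) (f : L → ℕ → ℕ) {E E' : (L → ℕ) → Prop}
    (h : ∀ m, E m → E' m) : exceptions b K r N f E' ≤ exceptions b K r N f E := by
  classical
  unfold exceptions
  refine card_le_card fun S hS => ?_
  rw [mem_filter] at hS ⊢
  exact ⟨hS.1, fun h' => hS.2 (h _ h')⟩

lemma exceptions_and {L : Type} [Fintype L] (b : ℕ) (K r N : L → ℕ) (f : L → ℕ → ℕ) (E E' : (L → ℕ) → Prop) :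
    exceptions b K r N f (fun m => E m ∧ E' m) ≤ exceptions b K r N f E + exceptions b K r N f E' := by
  classical
  unfold exceptions
  refine le_trans ?_ (card_union_le _ _)
  refine card_le_card fun S hS => ?_
  obtain ⟨h1, h2⟩ := (@Finset.mem_filter _ _ (_) _ _).1 hS
  by_cases h : E (fun l => change b (K l) (N l) (f l) (S l))
  · exact mem_union_right _ ((@Finset.mem_filter _ _ (_) _ _).2 ⟨h1, fun h' => h2 ⟨h, h'⟩⟩)
  · exact mem_union_left _ ((@Finset.mem_filter _ _ (_) _ _).2 ⟨h1, h⟩)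

/-- functions of mean zero -/
theorem central (L : Type) [Fintype L] [Nonempty L] (b : ℕ) (hb : 2 ≤ b) : ∃ c : ℝ, 0 < c ∧ ∀ C : ℝ, 1 ≤ C → ∀ η : ℝ, 0 < η →
    ∃ X₀ : ℕ, 3 ≤ X₀ ∧ ∀ F : ℕ → (L → ℕ) → ℝ, (∀ p : ℕ, p.Prime → ∀ n, F p n = F p (fun l => n l % p)) →
      (∀ p : ℕ, p.Prime → ∀ n, |F p n| ≤ C / Real.sqrt p) → (∀ p : ℕ, p.Prime → avg p (F p) = 0) →
      ∀ (K r N : L → ℕ) (f : L → ℕ → ℕ), Setting b K r N f →
        (exceptions b K r N f (fun m => ∀ x : ℕ, X₀ ≤ x → (∀ l, Real.log x ≤ c * Real.sqrt (r l)) →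
          |∑ p ∈ (range (x + 1)).filter Nat.Prime, F p m| ≤ 2 * Real.log (Real.log x) ^ (5 / 6 : ℝ)) : ℝ) ≤
            η * ∏ l, ((K l).choose (r l) : ℝ) := by
  classical
  obtain ⟨d, e⟩ : ∃ d, Nonempty (L ≃ Fin d) := ⟨Fintype.card L, ⟨Fintype.equivFin L⟩⟩
  obtain ⟨e⟩ := e
  have hd : 1 ≤ d := by
    obtain ⟨l⟩ := (inferInstance : Nonempty L)
    have := (e l).isLt
    omega
  obtain ⟨c, hc, H⟩ := central_fin b d hb hd
  refine ⟨c, hc, fun C hC η hη => ?_⟩
  obtain ⟨X₀, hX₀, H⟩ := H C hC η hη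
  refine ⟨X₀, hX₀, fun F hper hbd hmean K r N f hs => ?_⟩
  obtain ⟨Ex, hEx, hEx1, hEx2⟩ := H (fun p n => F p (fun l => n (e l))) (fun p hp n => hper p hp _) (fun p hp n => hbd p hp _)
    (fun p hp => by
      have h1 := avg_equiv e p (F p)
      rw [hmean p hp] at h1
      unfold mean at h1
      have hp0 : (p : ℝ) ≠ 0 := by exact_mod_cast hp.pos.ne'
      rcases mul_eq_zero.1 h1 with h2 | h2
      · exact absurd h2 (by positivity)
      · exact h2) (fun i => K (e.symm i)) (fun i => r (e.symm i)) (fun i => N (e.symm i)) (fun i => f (e.symm i))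
    (fun i => hs.1 _) (fun i => hs.2.1 _) (fun i j => hs.2.2 _ j)
  have hprod : ∏ l, ((K l).choose (r l) : ℝ) = ∏ i : Fin d, ((K (e.symm i)).choose (r (e.symm i)) : ℝ) :=
    (Equiv.prod_comp e.symm (fun l => ((K l).choose (r l) : ℝ))).symm
  rw [hprod]
  refine le_trans ?_ hEx1
  have hinj : Function.Injective (fun (S : L → Finset ℕ) (i : Fin d) => S (e.symm i)) := by
    intro S S' h
    funext l
    have := congrFun h (e l)
    simpa using this
  unfold exceptions
  rw [← card_image_of_injective _ hinj]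
  have hsub : (((Fintype.piFinset (fun l => powersetCard (r l) (range (K l)))).filter
    (fun S => ¬ (fun m => ∀ x : ℕ, X₀ ≤ x → (∀ l, Real.log x ≤ c * Real.sqrt (r l)) →
          |∑ p ∈ (range (x + 1)).filter Nat.Prime, F p m| ≤ 2 * Real.log (Real.log x) ^ (5 / 6 : ℝ))
            (fun l => change b (K l) (N l) (f l) (S l)))).image (fun (S : L → Finset ℕ) (i : Fin d) => S (e.symm i))) ⊆ Ex := by
    intro S hS
    rw [mem_image] at hS
    obtain ⟨S', hS', rfl⟩ := hS
    rw [mem_filter, Fintype.mem_piFinset] at hS'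
    by_contra hne
    apply hS'.2
    have h1 := hEx2 (fun i => S' (e.symm i)) (by
      rw [Fintype.mem_piFinset]
      exact fun i => hS'.1 (e.symm i)) hne
    intro x hx hxr
    have h2 := h1 x hx (fun i => hxr _)
    have e1 : ∀ i : L, e.symm (e i) = i := fun i => e.symm_apply_apply i
    beta_reduce at h2
    simp only [e1] at h2
    exact h2
  exact_mod_cast card_le_card hsub

lemma avg_abs {L : Type} [Fintype L] {p : ℕ} (hp : 0 < p) (F : (L → ℕ) → ℝ) {M : ℝ} (hF : ∀ n, |F n| ≤ M) : |avg p F| ≤ M := by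
  classical
  unfold avg
  have hp0 : (0 : ℝ) < (p : ℝ) ^ Fintype.card L := by positivity
  rw [abs_div, abs_of_pos hp0, div_le_iff₀ hp0]
  refine (abs_sum_le_sum_abs _ _).trans ((sum_le_sum fun n _ => hF n).trans (le_of_eq ?_))
  rw [sum_const, Fintype.card_piFinset, prod_const, card_univ, card_range, nsmul_eq_mul]
  push_cast
  ring

lemma avg_sub_const {L : Type} [Fintype L] {p : ℕ} (hp : 0 < p) (F : (L → ℕ) → ℝ) (c : ℝ) :
    avg p (fun n => F n - c) = avg p F - c := by
  classical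
  unfold avg
  have hp0 : (0 : ℝ) < (p : ℝ) ^ Fintype.card L := by positivity
  rw [sum_sub_distrib, sub_div, sum_const, Fintype.card_piFinset, prod_const, card_univ, card_range, nsmul_eq_mul]
  congr 1
  push_cast
  field_simp

/-- functions of arbitrary mean -/
theorem means (L : Type) [Fintype L] [Nonempty L] (b : ℕ) (hb : 2 ≤ b) : ∃ c : ℝ, 0 < c ∧ ∀ C : ℝ, 1 ≤ C → ∀ η : ℝ, 0 < η →
    ∃ X₀ : ℕ, 3 ≤ X₀ ∧ ∀ G : ℕ → (L → ℕ) → ℝ, (∀ p : ℕ, p.Prime → ∀ n, G p n = G p (fun l => n l % p)) →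
      (∀ p : ℕ, p.Prime → ∀ n, |G p n| ≤ C / Real.sqrt p) →
      ∀ (K r N : L → ℕ) (f : L → ℕ → ℕ), Setting b K r N f →
        (exceptions b K r N f (fun m => ∀ x : ℕ, X₀ ≤ x → (∀ l, Real.log x ≤ c * Real.sqrt (r l)) →
          |∑ p ∈ (range (x + 1)).filter Nat.Prime, G p m - ∑ p ∈ (range (x + 1)).filter Nat.Prime, avg p (G p)| ≤
            2 * Real.log (Real.log x) ^ (5 / 6 : ℝ)) : ℝ) ≤
            η * ∏ l, ((K l).choose (r l) : ℝ) := by
  obtain ⟨c, hc, H⟩ := central L b hb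
  refine ⟨c, hc, fun C hC η hη => ?_⟩
  obtain ⟨X₀, hX₀, H⟩ := H (2 * C) (by linarith) η hη
  refine ⟨X₀, hX₀, fun G hper hbd K r N f hs => ?_⟩
  have h1 := H (fun p n => G p n - avg p (G p)) (fun p hp n => by rw [hper p hp n]) (fun p hp n => by
    have h2 := avg_abs hp.pos (G p) (hbd p hp)
    have h3 := hbd p hp n
    refine (abs_sub _ _).trans ?_
    have : 2 * C / Real.sqrt p = C / Real.sqrt p + C / Real.sqrt p := by ring
    linarith) (fun p hp => by rw [avg_sub_const hp.pos, sub_self]) K r N f hs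
  refine le_trans ?_ h1
  have h2 := exceptions_mono b K r N f (E := fun m => ∀ x : ℕ, X₀ ≤ x → (∀ l, Real.log x ≤ c * Real.sqrt (r l)) →
          |∑ p ∈ (range (x + 1)).filter Nat.Prime, (G p m - avg p (G p))| ≤ 2 * Real.log (Real.log x) ^ (5 / 6 : ℝ))
    (E' := fun m => ∀ x : ℕ, X₀ ≤ x → (∀ l, Real.log x ≤ c * Real.sqrt (r l)) →
          |∑ p ∈ (range (x + 1)).filter Nat.Prime, G p m - ∑ p ∈ (range (x + 1)).filter Nat.Prime, avg p (G p)| ≤
            2 * Real.log (Real.log x) ^ (5 / 6 : ℝ)) (fun m hm x hx hxr => by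
      have := hm x hx hxr
      rwa [sum_sub_distrib] at this)
  exact_mod_cast h2

end Pool.Agent.Q235.FE
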