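import Pool.Agent.Q235.FE.Fam

/-!
# One integer with few changed digits; quadratic twists
-/

set_option autoImplicit false

namespace Pool.Agent.Q235.FE

open Finset Filter Topology
open Pool.Agent.Q235.FD (Setting exceptions change digit avg avg_equiv)
open Pool.Agent.Q28.BP (lg lg_abs lg_congr nuf lg_nuf nuf_congr nu twA twB asym nu_bad rho nu_all nu_self)
open Pool.Agent.W263.BSD (pointCount GoodPrime rsSum)

open Classical in
/-- The number of the choices of `r` of `K` positions for which the number obtained from `N` by changing the digits in base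
`β` at the chosen positions, according to `f`, does not have the property `P`. -/
noncomputable def bad (β K r N : ℕ) (f : ℕ → ℕ) (P : ℕ → Prop) : ℕ :=
  ((powersetCard r (range K)).filter (fun S => ¬ P (change β K N f S))).card

lemma bad_le (β K r N : ℕ) (f : ℕ → ℕ) (P : ℕ → Prop) :
    bad β K r N f P ≤ exceptions β (fun _ : Unit => K) (fun _ => r) (fun _ => N) (fun _ => f) (fun m => P (m ())) := by
  classical
  unfold bad exceptions
  have hinj : Function.Injective (fun (S : Finset ℕ) (_ : Unit) => S) := fun S S' h => congrFun h ()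
  rw [← card_image_of_injective _ hinj]
  refine card_le_card fun S hS => ?_
  obtain ⟨S', hS', rfl⟩ := mem_image.1 hS
  obtain ⟨h1, h2⟩ := (@Finset.mem_filter _ _ (_) _ _).1 hS'
  refine (@Finset.mem_filter _ _ (_) _ _).2 ⟨(@Fintype.mem_piFinset _ (_) _ _ _ _).2 fun _ => h1, h2⟩

lemma bad_mono (β K r N : ℕ) (f : ℕ → ℕ) {P P' : ℕ → Prop} (h : ∀ m, P m → P' m) : bad β K r N f P' ≤ bad β K r N f P := by
  classical
  unfold bad
  refine card_le_card fun S hS => ?_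
  obtain ⟨h1, h2⟩ := (@Finset.mem_filter _ _ (_) _ _).1 hS
  exact (@Finset.mem_filter _ _ (_) _ _).2 ⟨h1, fun h' => h2 (h _ h')⟩

lemma bad_and (β K r N : ℕ) (f : ℕ → ℕ) (P P' : ℕ → Prop) :
    bad β K r N f (fun m => P m ∧ P' m) ≤ bad β K r N f P + bad β K r N f P' := by
  classical
  unfold bad
  refine le_trans ?_ (card_union_le _ _)
  refine card_le_card fun S hS => ?_
  obtain ⟨h1, h2⟩ := (@Finset.mem_filter _ _ (_) _ _).1 hS
  by_cases h : P (change β K N f S)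
  · exact mem_union_right _ ((@Finset.mem_filter _ _ (_) _ _).2 ⟨h1, fun h' => h2 ⟨h, h'⟩⟩)
  · exact mem_union_left _ ((@Finset.mem_filter _ _ (_) _ _).2 ⟨h1, h⟩)

/-- one-parameter families of curves with known growth of the sums of the means -/
theorem exponent_one (β : ℕ) (hβ : 2 ≤ β) : ∃ c : ℝ, 0 < c ∧ ∀ (κ ε η : ℝ), 0 < ε → 0 < η →
    ∀ (Θ : Type) (A B : Θ → Polynomial ℤ),
    (∀ ε' : ℝ, 0 < ε' → ∃ X₂ : ℕ, ∀ θ, ∀ x : ℕ, X₂ ≤ x → |∑ p ∈ (range (x + 1)).filter Nat.Prime, nu (A θ) (B θ) p -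
        κ * Real.log (Real.log x)| ≤ ε' * Real.log (Real.log x)) →
    ∃ X₀ : ℕ, 16 ≤ X₀ ∧ ∀ (θ : Θ) (K r N : ℕ) (f : ℕ → ℕ), 2 * r ≤ K → N < β ^ K →
      (∀ j, f j < β ∧ f j ≠ digit β j N) →
        (bad β K r N f (fun m => ∀ x : ℕ, X₀ ≤ x → Real.log x ≤ c * Real.sqrt r →
          |∑ p ∈ (range (x + 1)).filter Nat.Prime, lg ((A θ).eval (m : ℤ)) ((B θ).eval (m : ℤ)) p - κ * Real.log (Real.log x)| ≤
            ε * Real.log (Real.log x)) : ℝ) ≤ η * (K.choose r : ℝ) := by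
  obtain ⟨c, hc, H⟩ := exponent Unit β hβ
  refine ⟨c, hc, fun κ ε η hε hη Θ A B hmean => ?_⟩
  obtain ⟨X₀, hX₀, H⟩ := H κ ε η hε hη Θ (fun θ m => (A θ).eval ((m ()) : ℤ)) (fun θ m => (B θ).eval ((m ()) : ℤ))
    (fun θ p n => Pool.Agent.Q28.BP.eval_congr (A θ) (by simp)) (fun θ p n => Pool.Agent.Q28.BP.eval_congr (B θ) (by simp))
    (fun ε' hε' => by
      obtain ⟨X₂, h⟩ := hmean ε' hε'
      refine ⟨X₂, fun θ x hx => ?_⟩
      have e : ∀ p, avg p (fun n : Unit → ℕ => nuf ((A θ).eval ((n ()) : ℤ)) ((B θ).eval ((n ()) : ℤ)) p) = nu (A θ) (B θ) p := by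
        intro p
        rw [avg_unit]
        rfl
      rw [sum_congr rfl fun p _ => e p]
      exact h θ x hx)
  refine ⟨X₀, hX₀, fun θ K r N f hrK hN hf => ?_⟩
  have h1 := H θ (fun _ => K) (fun _ => r) (fun _ => N) (fun _ => f) ⟨fun _ => hrK, fun _ => hN, fun _ j => hf j⟩
  have h2 := bad_le β K r N f (fun m => ∀ x : ℕ, X₀ ≤ x → Real.log x ≤ c * Real.sqrt r →
          |∑ p ∈ (range (x + 1)).filter Nat.Prime, lg ((A θ).eval (m : ℤ)) ((B θ).eval (m : ℤ)) p - κ * Real.log (Real.log x)| ≤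
            ε * Real.log (Real.log x))
  have h3 : (bad β K r N f (fun m => ∀ x : ℕ, X₀ ≤ x → Real.log x ≤ c * Real.sqrt r →
          |∑ p ∈ (range (x + 1)).filter Nat.Prime, lg ((A θ).eval (m : ℤ)) ((B θ).eval (m : ℤ)) p - κ * Real.log (Real.log x)| ≤
            ε * Real.log (Real.log x)) : ℝ) ≤ (exceptions β (fun _ : Unit => K) (fun _ => r) (fun _ => N) (fun _ => f)
      (fun m => (fun m => ∀ x : ℕ, X₀ ≤ x → Real.log x ≤ c * Real.sqrt r →
          |∑ p ∈ (range (x + 1)).filter Nat.Prime, lg ((A θ).eval (m : ℤ)) ((B θ).eval (m : ℤ)) p - κ * Real.log (Real.log x)| ≤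
            ε * Real.log (Real.log x)) (m ())) : ℝ) := by exact_mod_cast h2
  refine h3.trans ?_
  have h4 := exceptions_mono β (fun _ : Unit => K) (fun _ => r) (fun _ => N) (fun _ => f)
    (E := fun m => ∀ x : ℕ, X₀ ≤ x → (∀ _ : Unit, Real.log x ≤ c * Real.sqrt r) →
          |∑ p ∈ (range (x + 1)).filter Nat.Prime, lg ((A θ).eval ((m ()) : ℤ)) ((B θ).eval ((m ()) : ℤ)) p -
            κ * Real.log (Real.log x)| ≤ ε * Real.log (Real.log x))
    (E' := fun m => (fun m => ∀ x : ℕ, X₀ ≤ x → Real.log x ≤ c * Real.sqrt r →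
          |∑ p ∈ (range (x + 1)).filter Nat.Prime, lg ((A θ).eval (m : ℤ)) ((B θ).eval (m : ℤ)) p - κ * Real.log (Real.log x)| ≤
            ε * Real.log (Real.log x)) (m ())) (fun m hm x hx hxr => hm x hx (fun _ => hxr))
  have h5 : ∏ _l : Unit, (K.choose r : ℝ) = K.choose r := by simp
  rw [h5] at h1
  exact (Nat.cast_le.2 h4).trans h1

/-- the twists by `D(m)` -/
theorem twist_one (β : ℕ) (hβ : 2 ≤ β) : ∃ c : ℝ, 0 < c ∧ ∀ {a b : ℤ}, 4 * a ^ 3 + 27 * b ^ 2 ≠ 0 → Tendsto (rsSum a b) atTop (𝓝 0) →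
    ∀ (D : Polynomial ℤ) (κ s Z : ℝ), 0 ≤ κ → 0 ≤ Z →
    (∀ p, GoodPrime a b p → |nu (twA a D) (twB b D) p - (κ / p + s * rho a b p)| ≤ Z / (p : ℝ) ^ 2) →
    ∀ (ε η : ℝ), 0 < ε → 0 < η → ∃ X₀ : ℕ, 16 ≤ X₀ ∧ ∀ (K r N : ℕ) (f : ℕ → ℕ), 2 * r ≤ K → N < β ^ K →
      (∀ j, f j < β ∧ f j ≠ digit β j N) →
        (bad β K r N f (fun m => ∀ x : ℕ, X₀ ≤ x → Real.log x ≤ c * Real.sqrt r →
          |∑ p ∈ (range (x + 1)).filter Nat.Prime, lg (a * D.eval (m : ℤ) ^ 2) (b * D.eval (m : ℤ) ^ 3) p -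
            κ * Real.log (Real.log x)| ≤ ε * Real.log (Real.log x)) : ℝ) ≤ η * (K.choose r : ℝ) := by
  obtain ⟨c, hc, H⟩ := exponent_one β hβ
  refine ⟨c, hc, fun {a b} hΔ hrs D κ s Z hκ hZ hgood ε η hε hη => ?_⟩
  obtain ⟨X₀, hX₀, H⟩ := H κ ε η hε hη Unit (fun _ => twA a D) (fun _ => twB b D) (fun ε' hε' => by
    obtain ⟨X₂, h⟩ := eventually_atTop.1 (asym hΔ hrs (nu (twA a D) (twB b D)) κ s Z hκ hZ hgood
      (fun p hp hg => nu_bad hp hg D) hε')
    exact ⟨X₂, fun _ x hx => h x hx⟩)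
  refine ⟨X₀, hX₀, fun K r N f hrK hN hf => ?_⟩
  have h1 := H () K r N f hrK hN hf
  have e1 : ∀ m : ℕ, (twA a D).eval (m : ℤ) = a * D.eval (m : ℤ) ^ 2 := fun m => by simp [twA]
  have e2 : ∀ m : ℕ, (twB b D).eval (m : ℤ) = b * D.eval (m : ℤ) ^ 3 := fun m => by simp [twB]
  simp only [e1, e2] at h1
  exact h1

end Pool.Agent.Q235.FE
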