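import Pool.Agent.Q235.FE.Fib
import Pool.Agent.Q28.BP.RatFam

/-!
# Curves with rational coefficients, numerators and denominators with few changed digits
-/

set_option autoImplicit false

namespace Pool.Agent.Q235.FE

open Finset Filter Topology
open Pool.Agent.Q235.FD (Setting exceptions change digit avg avg_equiv)
open Pool.Agent.Q28.BP (lr gr gr_eq lr_abs gr_mean sum_gr_mean frc frc_cast mn wt sum32 sum_inv_loglog rpow32 tendsto_loglog lg_congr)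

lemma lr_congr {m m' u u' : ℤ} {n n' v v' p : ℕ} (hm : (m : ZMod p) = m') (hn : (n : ZMod p) = n')
    (hu : (u : ZMod p) = u') (hv : (v : ZMod p) = v') : lr m n u v p = lr m' n' u' v' p := by
  unfold lr
  have h1 : p ∣ n ↔ p ∣ n' := by
    rw [← ZMod.natCast_eq_zero_iff, ← ZMod.natCast_eq_zero_iff, hn]
  have h2 : p ∣ v ↔ p ∣ v' := by
    rw [← ZMod.natCast_eq_zero_iff, ← ZMod.natCast_eq_zero_iff, hv]
  have h3 : frc m n p = frc m' n' p := by
    unfold frc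
    rw [hm, hn]
  have h4 : frc u v p = frc u' v' p := by
    unfold frc
    rw [hu, hv]
  simp only [h1, h2, h3, h4]

/-- the mean over the numerator `u`, with a sign -/
lemma rat_mean_sign (m : ℤ) (n v : ℕ) (t : ℤ) (ht : t = 1 ∨ t = -1) {p : ℕ} (hp : p.Prime) :
    (∑ j ∈ range p, lr m n (t * (j : ℤ)) v p) / p = mn (gr m n v) p := by
  rcases ht with rfl | rfl
  · unfold mn
    congr 1
    refine sum_congr rfl fun j _ => ?_
    have := gr_eq m n (j : ℤ) v hp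
    rw [Int.cast_natCast] at this
    rw [this, one_mul]
  · rw [← Pool.Agent.Q28.BP.mn_neg (gr m n v) hp]
    unfold mn
    congr 1
    refine sum_congr rfl fun j _ => ?_
    have := gr_eq m n (-(j : ℤ)) v hp
    rw [Int.cast_neg, Int.cast_natCast] at this
    rw [neg_one_mul]
    exact this.symm

/-- the local function of four integers: `y² = x³ + (s n₀ / n₁) x + t n₂ / n₃` -/
noncomputable def l4 (s t : ℤ) (p : ℕ) (n : Fin 4 → ℕ) : ℝ := lr (s * (n 0 : ℤ)) (n 1) (t * (n 2 : ℤ)) (n 3) p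

lemma l4_per (s t : ℤ) (p : ℕ) (n : Fin 4 → ℕ) : l4 s t p n = l4 s t p (fun l => n l % p) := by
  unfold l4
  exact lr_congr (compat_mul (0 : Fin 4) s p n) (by simp) (compat_mul (2 : Fin 4) t p n) (by simp)

lemma l4_mean (s t : ℤ) (ht : t = 1 ∨ t = -1) {p : ℕ} (hp : p.Prime) (hs : ¬ (p : ℤ) ∣ s) :
    |avg p (l4 s t p) - 1 / (2 * p)| ≤ 1100003 * (p : ℝ) ^ (-(3 / 2) : ℝ) := by
  classical
  have hp0 : (0 : ℝ) < p := by exact_mod_cast hp.pos
  have hp1 : (1 : ℝ) ≤ p := by exact_mod_cast hp.one_lt.le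
  have hpi : Prime (p : ℤ) := Nat.prime_iff_prime_int.1 hp
  have e1 : avg p (l4 s t p) = avg p (fun n : Fin 4 → ℕ => mn (gr (s * (n 0 : ℤ)) (n 1) (n 3)) p) := by
    rw [avg_fiber (2 : Fin 4) hp.pos]
    congr 1
    funext n
    rw [← rat_mean_sign _ _ _ t ht hp]
    congr 1
  have e2 : avg p (l4 s t p) - 1 / (2 * p) =
      avg p (fun n : Fin 4 → ℕ => mn (gr (s * (n 0 : ℤ)) (n 1) (n 3)) p - 1 / (2 * p)) := by
    rw [avg_sub_const hp.pos, e1]
  rw [e2]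
  refine (abs_avg_le _).trans ?_
  have h1 : ∀ n : Fin 4 → ℕ, (∀ l, n l < p) → |mn (gr (s * (n 0 : ℤ)) (n 1) (n 3)) p - 1 / (2 * p)| ≤
      1100000 * (p : ℝ) ^ (-(3 / 2) : ℝ) + ((if n 0 = 0 then 1 / (p : ℝ) else 0) + ((if n 1 = 0 then 1 / (p : ℝ) else 0) +
        (if n 3 = 0 then 1 / (p : ℝ) else 0))) := by
    intro n hn
    refine (gr_mean _ _ _ hp).trans ?_
    have hz : ∀ k : ℕ, k < p → ((p : ℤ) ∣ (k : ℤ) ↔ k = 0) := by
      intro k hk
      rw [Int.natCast_dvd_natCast]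
      constructor
      · intro h
        exact Nat.eq_zero_of_dvd_of_lt h hk
      · rintro rfl
        exact dvd_zero p
    have hz0 : ((p : ℤ) ∣ s * (n 0 : ℤ)) ↔ n 0 = 0 := by
      rw [hpi.dvd_mul, hz _ (hn 0)]
      tauto
    simp only [hz0, hz _ (hn 1), hz _ (hn 3)]
    linarith
  refine (avg_le h1).trans ?_
  rw [avg_add, avg_add, avg_add, avg_const hp.pos, avg_coord (0 : Fin 4) hp.pos, avg_coord (1 : Fin 4) hp.pos,
    avg_coord (3 : Fin 4) hp.pos]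
  have h2 : 1 / (p : ℝ) / p ≤ (p : ℝ) ^ (-(3 / 2) : ℝ) := by
    rw [rpow32 hp.pos, div_div]
    apply one_div_le_one_div_of_le (by positivity)
    have hs1 : 1 ≤ Real.sqrt p := by rwa [Real.one_le_sqrt]
    have hss : Real.sqrt p * Real.sqrt p = p := Real.mul_self_sqrt hp0.le
    have hle : Real.sqrt p ≤ p := by nlinarith
    exact mul_le_mul_of_nonneg_left hle hp0.le
  linarith

lemma sum_l4_mean : ∃ Z : ℝ, 0 ≤ Z ∧ ∀ s t : ℤ, (s = 1 ∨ s = -1) → (t = 1 ∨ t = -1) → ∀ x : ℕ, 3 ≤ x →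
    |∑ p ∈ (range (x + 1)).filter Nat.Prime, avg p (l4 s t p) - 1 / 2 * Real.log (Real.log x)| ≤ Z := by
  obtain ⟨C, hC0, hC⟩ := sum_inv_loglog
  obtain ⟨Z, hZ⟩ : ∃ Z : ℝ, Z = 1100003 * ∑' n : ℕ, (n : ℝ) ^ (-(3 / 2) : ℝ) := ⟨_, rfl⟩
  have hZ0 : 0 ≤ Z := by
    rw [hZ]
    exact mul_nonneg (by norm_num) (tsum_nonneg fun n => by positivity)
  refine ⟨Z + C / 2, by positivity, fun s t hs ht x hx => ?_⟩
  have h1 := hC x hx
  have h2 := sum32 1100003 (by norm_num) (fun p => avg p (l4 s t p) - 1 / (2 * p))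
    (fun p hp => by
      have hpi : Prime (p : ℤ) := Nat.prime_iff_prime_int.1 hp
      have hns : ¬ (p : ℤ) ∣ s := by
        intro h
        apply hpi.not_isUnit
        apply isUnit_of_dvd_unit h
        rcases hs with rfl | rfl
        · exact isUnit_one
        · exact isUnit_one.neg
      exact l4_mean s t ht hp hns) x
  rw [← hZ] at h2
  have e1 : ∑ p ∈ (range (x + 1)).filter Nat.Prime, (avg p (l4 s t p) - 1 / (2 * p)) =
      ∑ p ∈ (range (x + 1)).filter Nat.Prime, avg p (l4 s t p) -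
        1 / 2 * ∑ p ∈ (range (x + 1)).filter Nat.Prime, 1 / (p : ℝ) := by
    rw [sum_sub_distrib, mul_sum]
    congr 1
    exact sum_congr rfl fun p _ => by ring
  rw [e1] at h2
  rw [abs_le] at h1 h2 ⊢
  constructor <;> linarith [h1.1, h1.2, h2.1, h2.2]

/-- all four integers -/
theorem rat_four (β : ℕ) (hβ : 2 ≤ β) : ∃ c : ℝ, 0 < c ∧ ∀ η : ℝ, 0 < η → ∃ X₀ : ℕ, 16 ≤ X₀ ∧
    ∀ s t : ℤ, (s = 1 ∨ s = -1) → (t = 1 ∨ t = -1) → ∀ (K r N : Fin 4 → ℕ) (f : Fin 4 → ℕ → ℕ), Setting β K r N f →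
      (exceptions β K r N f (fun m => ∀ x : ℕ, X₀ ≤ x → (∀ l, Real.log x ≤ c * Real.sqrt (r l)) →
        |∑ p ∈ (range (x + 1)).filter Nat.Prime, lr (s * (m 0 : ℤ)) (m 1) (t * (m 2 : ℤ)) (m 3) p -
          1 / 2 * Real.log (Real.log x)| ≤ 4 * Real.log (Real.log x) ^ (5 / 6 : ℝ)) : ℝ) ≤ η * ∏ l, ((K l).choose (r l) : ℝ) := by
  obtain ⟨c, hc, H⟩ := means (Fin 4) β hβ
  obtain ⟨Z, hZ0, hZ⟩ := sum_l4_mean
  obtain ⟨X₁, h16, hX₁⟩ := big_const Z
  refine ⟨c, hc, fun η hη => ?_⟩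
  obtain ⟨X₀, hX₀, H⟩ := H 20 (by norm_num) η hη
  refine ⟨max X₀ X₁, h16.trans (le_max_right _ _), fun s t hs ht K r N f hset => ?_⟩
  refine le_trans (Nat.cast_le.2 (exceptions_mono β K r N f (fun m hm x hx hxr => ?_)))
    (H (fun p n => l4 s t p n) (fun p _ n => l4_per s t p n) (fun p hp n => lr_abs _ _ _ _ hp) K r N f hset)
  have h1 := hm x ((le_max_left _ _).trans hx) hxr
  have h2 := hZ s t hs ht x (hX₀.trans ((le_max_left _ _).trans hx))
  have h3 := hX₁ x ((le_max_right _ _).trans hx)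
  have h4 : 0 ≤ Real.log (Real.log x) ^ (5 / 6 : ℝ) := hZ0.trans h3
  unfold l4 at h1 h2
  rw [abs_le] at h1 h2 ⊢
  constructor <;> linarith [h1.1, h1.2, h2.1, h2.2]

/-- only the numerator of the second coefficient, uniformly -/
theorem rat_one (β : ℕ) (hβ : 2 ≤ β) : ∃ c : ℝ, 0 < c ∧ ∀ η : ℝ, 0 < η → ∃ X₀ : ℕ, 16 ≤ X₀ ∧
    ∀ (u : ℤ) (n v : ℕ) (t : ℤ), (t = 1 ∨ t = -1) → ∀ (K r N : ℕ) (f : ℕ → ℕ), 2 * r ≤ K → N < β ^ K →
      (∀ j, f j < β ∧ f j ≠ digit β j N) →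
      (bad β K r N f (fun m => ∀ x : ℕ, X₀ ≤ x → Real.log x ≤ c * Real.sqrt r →
        |∑ p ∈ (range (x + 1)).filter Nat.Prime, lr u n (t * (m : ℤ)) v p - 1 / 2 * Real.log (Real.log x)| ≤
          4 * Real.log (Real.log x) ^ (5 / 6 : ℝ) + (wt u x + wt n x + wt v x)) : ℝ) ≤ η * (K.choose r : ℝ) := by
  obtain ⟨c, hc, H⟩ := means Unit β hβ
  obtain ⟨Z, hZ0, hZ⟩ := sum_gr_mean
  obtain ⟨X₁, h16, hX₁⟩ := big_const Z
  refine ⟨c, hc, fun η hη => ?_⟩
  obtain ⟨X₀, hX₀, H⟩ := H 20 (by norm_num) η hη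
  refine ⟨max X₀ X₁, h16.trans (le_max_right _ _), fun u n v t ht K r N f hrK hN hf => ?_⟩
  have h0 := H (fun p k => lr u n (t * ((k ()) : ℤ)) v p) (fun p _ k => lr_congr rfl rfl (compat_mul () t p k) rfl)
    (fun p hp k => lr_abs _ _ _ _ hp) (fun _ => K) (fun _ => r) (fun _ => N) (fun _ => f)
    ⟨fun _ => hrK, fun _ => hN, fun _ j => hf j⟩
  have h5 : ∏ _l : Unit, (K.choose r : ℝ) = K.choose r := by simp
  rw [h5] at h0
  refine le_trans (Nat.cast_le.2 ((bad_le β K r N f _).trans (exceptions_mono β _ _ _ _ (fun m hm x hx hxr => ?_)))) h0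
  have h1 := hm x ((le_max_left _ _).trans hx) (fun _ => hxr)
  have h2 := hZ u n v x (hX₀.trans ((le_max_left _ _).trans hx))
  have h3 := hX₁ x ((le_max_right _ _).trans hx)
  have h4 : 0 ≤ Real.log (Real.log x) ^ (5 / 6 : ℝ) := hZ0.trans h3
  have e : ∀ p ∈ (range (x + 1)).filter Nat.Prime,
      avg p (fun k : Unit → ℕ => lr u n (t * ((k ()) : ℤ)) v p) = mn (gr u n v) p := by
    intro p hp
    rw [avg_unit]
    exact rat_mean_sign u n v t ht (mem_filter.1 hp).2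
  rw [sum_congr rfl e] at h1
  rw [abs_le] at h1 h2 ⊢
  constructor <;> linarith [h1.1, h1.2, h2.1, h2.2]

end Pool.Agent.Q235.FE
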