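import Pool.Agent.Q235.FE.Exp
import Pool.Agent.TH894.NE2

/-! Exponential sums over few changes of digits: arbitrary savings in the range `log x ≤ c √r`, and equidistribution of tuples. -/

set_option autoImplicit false

namespace Pool.Agent.Q235.FE

open Finset
open Pool.Agent.TH894.ND
open Pool.Agent.TH894.NE
open Pool.Agent.TH894.SM (change change_eq)

theorem expsum (b : ℕ) (hb : 2 ≤ b) (A : ℝ) (hA : 0 ≤ A) : ∃ c : ℝ, 0 < c ∧
    ∀ (r K x N Q k : ℕ) (f : ℕ → ℕ), 2 * r ≤ K → 3 ≤ x → Real.log x ≤ c * Real.sqrt r → N < b ^ K →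
      (∀ j, f j < b ∧ f j ≠ N / b ^ j % b) → 1 ≤ Q → Q ≤ x ^ 4 → Nat.Coprime Q (b * b).factorial → ¬ Q ∣ k →
      ‖∑ S ∈ powersetCard r (range K), ee ((k : ℝ) * (change b K N f S : ℕ) / Q)‖ ≤
        (x : ℝ) ^ (-A) * (K.choose r : ℝ) := by
  classical
  obtain ⟨d, hd⟩ : ∃ d : ℝ, d = 1 / (((b * b).factorial : ℝ) * ((2 * b ^ 2 : ℕ) : ℝ)) := ⟨_, rfl⟩
  have hL1 : (1 : ℝ) ≤ ((b * b).factorial : ℝ) := by exact_mod_cast Nat.factorial_pos _
  have hZ1 : (8 : ℝ) ≤ ((2 * b ^ 2 : ℕ) : ℝ) := by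
    have : 8 ≤ 2 * b ^ 2 := by nlinarith
    exact_mod_cast this
  have hprod1 : (8 : ℝ) ≤ ((b * b).factorial : ℝ) * ((2 * b ^ 2 : ℕ) : ℝ) := by nlinarith
  have hd0 : 0 < d := by rw [hd]; positivity
  have hd1 : d ≤ 1 / 2 := by
    rw [hd]
    apply div_le_div_of_nonneg_left (by norm_num) (by norm_num)
    linarith
  obtain ⟨η, hη⟩ : ∃ η : ℝ, η = 2 * d ^ 2 := ⟨_, rfl⟩
  have hη0 : 0 < η := by rw [hη]; positivity
  have hη1 : η ≤ 1 := by rw [hη]; nlinarith
  have hA1 : 0 < 320 * (A + 1) := by linarith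
  refine ⟨η / (320 * (A + 1)), by positivity, fun r K x N Q k f hrK hx hlog hN hf hQ1 hQx hcop hk => ?_⟩
  obtain ⟨c, hc⟩ : ∃ c, c = η / (320 * (A + 1)) := ⟨_, rfl⟩
  rw [← hc] at hlog
  have hc0 : 0 < c := by rw [hc]; positivity
  have hcA : c * (320 * (A + 1)) = η := by rw [hc]; field_simp
  have hc1 : 320 * c ≤ η := by nlinarith
  have hc2 : c ≤ 1 := by linarith
  obtain ⟨ℓ, hℓ⟩ : ∃ ℓ, ℓ = Real.log x := ⟨_, rfl⟩
  rw [← hℓ] at hlog
  have hx0 : (0 : ℝ) < x := by exact_mod_cast (by omega : 0 < x)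
  have hℓ1 : 1 ≤ ℓ := by
    rw [hℓ, Real.le_log_iff_exp_le hx0]
    have h1 : (3 : ℝ) ≤ x := by exact_mod_cast hx
    have h2 := Real.exp_one_lt_d9
    linarith
  obtain ⟨s, hs⟩ : ∃ s, s = Real.sqrt r := ⟨_, rfl⟩
  rw [← hs] at hlog
  have hs0 : 0 ≤ s := by rw [hs]; exact Real.sqrt_nonneg _
  have hs2 : s ^ 2 = r := by rw [hs]; exact Real.sq_sqrt (Nat.cast_nonneg _)
  have hs1 : 1 ≤ s := by nlinarith
  have hr1 : 1 ≤ r := by
    rcases Nat.eq_zero_or_pos r with h | h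
    · rw [h, Nat.cast_zero] at hs2
      nlinarith
    · exact h
  have hrr : (1 : ℝ) ≤ r := by exact_mod_cast hr1
  obtain ⟨n, hn⟩ : ∃ n, n = ⌈4 * ℓ⌉₊ := ⟨_, rfl⟩
  have hn1 : 4 * ℓ ≤ n := by rw [hn]; exact Nat.le_ceil _
  have hn2 : (n : ℝ) ≤ 5 * ℓ := by
    have := Nat.ceil_lt_add_one (show 0 ≤ 4 * ℓ by linarith)
    rw [← hn] at this
    linarith
  have hnpos : 1 ≤ n := by
    have : (0 : ℝ) < n := by linarith
    exact_mod_cast this
  have hnr : (0 : ℝ) < n := by linarith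
  have hnK : 4 * n ≤ K := by
    have h1 : (4 * n : ℝ) ≤ 20 * (c * s) := by linarith
    have h2 : 20 * (c * s) ≤ s := by nlinarith
    have h3 : s ≤ r := by nlinarith
    have h4 : (r : ℝ) ≤ K := by exact_mod_cast (by omega : r ≤ K)
    have h5 : ((4 * n : ℕ) : ℝ) ≤ (K : ℝ) := by push_cast; linarith
    exact_mod_cast h5
  have hQn : Q ≤ (b ^ 2) ^ n := by
    have h1 : (x : ℝ) ^ 4 ≤ ((b : ℝ) ^ 2) ^ n := by
      have hb2 : (2 : ℝ) ≤ b := by exact_mod_cast hb
      rw [← Real.log_le_log_iff (by positivity) (by positivity), Real.log_pow, Real.log_pow, Real.log_pow, ← hℓ]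
      have hlb : Real.log 2 ≤ Real.log b := Real.log_le_log (by norm_num) hb2
      have hl2 := Real.log_two_gt_d9
      push_cast
      nlinarith
    have h2 : (Q : ℝ) ≤ (x : ℝ) ^ 4 := by exact_mod_cast hQx
    exact_mod_cast h2.trans h1
  rw [sum_change b r K N hN f Q k]
  have hmain := exp_all b K r Q k n hb hr1 hrK hQ1 hcop hk hnpos hQn hnK
    (fun i => (f i : ℤ) - ((N / b ^ i % b : ℕ) : ℤ)) ?_
  · refine hmain.trans ?_
    rw [← hd, ← hη]
    have hxA : (x : ℝ) ^ (-A) = Real.exp (-(A * ℓ)) := by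
      rw [Real.rpow_def_of_pos hx0, ← hℓ]
      congr 1
      ring
    rw [hxA]
    have h1 : (4 * (r : ℝ) + 2) ≤ Real.exp (4 * s) := by
      have h2 := Real.quadratic_le_exp_of_nonneg (show 0 ≤ 4 * s by linarith)
      nlinarith
    have h3 : 4 * s + A * ℓ ≤ η * r / (8 * n) := by
      have h4 : 1 / (40 * ℓ) ≤ 1 / (8 * (n : ℝ)) := by
        apply div_le_div_of_nonneg_left (by norm_num) (by positivity)
        linarith
      have h5 : η * r / (40 * ℓ) ≤ η * r / (8 * n) := by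
        have h6 : 0 ≤ η * r := by positivity
        have := mul_le_mul_of_nonneg_left h4 h6
        calc η * r / (40 * ℓ) = η * r * (1 / (40 * ℓ)) := by ring
          _ ≤ η * r * (1 / (8 * n)) := this
          _ = _ := by ring
      refine le_trans ?_ h5
      rw [le_div_iff₀ (by positivity), ← hs2]
      have h7 : 160 * s * ℓ ≤ η * s ^ 2 / 2 := by
        have : ℓ * s ≤ c * s * s := mul_le_mul_of_nonneg_right hlog hs0
        nlinarith
      have h8 : A * ℓ * (40 * ℓ) ≤ η * s ^ 2 / 2 := by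
        have e1 : ℓ * ℓ ≤ (c * s) * (c * s) := mul_le_mul hlog hlog (by linarith) (by positivity)
        have e2 : A * 40 * (ℓ * ℓ) ≤ A * 40 * ((c * s) * (c * s)) := mul_le_mul_of_nonneg_left e1 (by positivity)
        have e3 : A * 40 * c * c ≤ η / 2 := by
          have : A * 40 * c ≤ η / 2 := by nlinarith
          have h0 : 0 ≤ A * 40 * c := by positivity
          nlinarith
        have e4 : A * 40 * c * c * s ^ 2 ≤ η / 2 * s ^ 2 := mul_le_mul_of_nonneg_right e3 (by positivity)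
        nlinarith
      nlinarith
    calc (4 * (r : ℝ) + 2) * (K.choose r : ℝ) * Real.exp (-(η * r / (8 * n)))
        ≤ Real.exp (4 * s) * (K.choose r : ℝ) * Real.exp (-(4 * s + A * ℓ)) := by
          apply mul_le_mul (mul_le_mul_of_nonneg_right h1 (Nat.cast_nonneg _)) _ (Real.exp_pos _).le (by positivity)
          apply Real.exp_le_exp.2
          linarith
      _ = Real.exp (-(A * ℓ)) * (K.choose r : ℝ) := by
          rw [show Real.exp (4 * s) * (K.choose r : ℝ) * Real.exp (-(4 * s + A * ℓ)) =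
            (Real.exp (4 * s) * Real.exp (-(4 * s + A * ℓ))) * (K.choose r : ℝ) by ring, ← Real.exp_add]
          congr 2
          ring
  · intro j
    obtain ⟨h1, h2⟩ := hf j
    have h3 : N / b ^ j % b < b := Nat.mod_lt _ (by omega)
    show (f j : ℤ) - ((N / b ^ j % b : ℕ) : ℤ) ≠ 0 ∧ ((f j : ℤ) - ((N / b ^ j % b : ℕ) : ℤ)).natAbs < b
    obtain ⟨u, hu⟩ : ∃ u, u = N / b ^ j % b := ⟨_, rfl⟩
    rw [← hu] at h2 h3 ⊢
    constructor <;> omega

/-- equidistribution: functions of the residues with mean zero -/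
lemma equi {d : ℕ} {ι : Type} (s : Fin d → Finset ι) (m : Fin d → ι → ℕ) (Q : ℕ) (hQ : 1 ≤ Q) (H : (Fin d → ℕ) → ℝ)
    (hH : Per Q H) (M : ℝ) (hM : ∀ n, |H n| ≤ M) (h0 : ∑ n ∈ box d Q, H n = 0) (ε : ℝ) (hε : 0 ≤ ε)
    (hgood : ∀ i, ∀ k, ¬ Q ∣ k → ‖∑ t ∈ s i, ee ((k : ℝ) * m i t / Q)‖ ≤ ε * (s i).card) :
    |∑ S ∈ Fintype.piFinset s, H (fun i => m i (S i))| ≤ M * (Q : ℝ) ^ d * ε * ∏ i, ((s i).card : ℝ) := by
  classical
  have hQr : (0 : ℝ) < Q := by exact_mod_cast (by omega : 0 < Q)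
  have hM0 : 0 ≤ M := (abs_nonneg _).trans (hM 0)
  have hcf : ∀ k, ‖cfd Q H k‖ ≤ M := by
    intro k
    unfold cfd
    rw [norm_mul, norm_div, norm_one, norm_pow, Complex.norm_natCast]
    have h1 : ‖∑ n ∈ box d Q, (H n : ℂ) * ch' Q k n‖ ≤ (Q : ℝ) ^ d * M := by
      refine (norm_sum_le _ _).trans ?_
      have h2 : ∀ n ∈ box d Q, ‖(H n : ℂ) * ch' Q k n‖ ≤ M := by
        intro n _
        rw [norm_mul, ch'_norm, mul_one, Complex.norm_real, Real.norm_eq_abs]
        exact hM n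
      refine (sum_le_sum h2).trans (le_of_eq ?_)
      rw [sum_const, card_box, nsmul_eq_mul]
      push_cast
      ring
    calc 1 / (Q : ℝ) ^ d * ‖∑ n ∈ box d Q, (H n : ℂ) * ch' Q k n‖ ≤ 1 / (Q : ℝ) ^ d * ((Q : ℝ) ^ d * M) :=
          mul_le_mul_of_nonneg_left h1 (by positivity)
      _ = M := by field_simp
  have h1 : ((∑ S ∈ Fintype.piFinset s, H (fun i => m i (S i)) : ℝ) : ℂ) =
      ∑ k ∈ box d Q, cfd Q H k * ∏ i, ∑ t ∈ s i, ee ((k i : ℝ) * m i t / Q) := by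
    rw [Complex.ofReal_sum, sum_congr rfl fun S _ => expandd Q hQ H hH (fun i => m i (S i)), sum_comm]
    refine sum_congr rfl fun k _ => ?_
    rw [← mul_sum]
    congr 1
    rw [Finset.prod_univ_sum]
    rfl
  have h2 : |∑ S ∈ Fintype.piFinset s, H (fun i => m i (S i))| = ‖((∑ S ∈ Fintype.piFinset s, H (fun i => m i (S i)) : ℝ) : ℂ)‖ := by
    rw [Complex.norm_real, Real.norm_eq_abs]
  rw [h2, h1]
  refine (norm_sum_le _ _).trans ?_
  have htriv : ∀ (i : Fin d) (k : ℕ), ‖∑ t ∈ s i, ee ((k : ℝ) * m i t / Q)‖ ≤ (s i).card := by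
    intro i k
    refine (norm_sum_le _ _).trans ?_
    rw [sum_congr rfl fun t _ => ee_norm _, sum_const, nsmul_eq_mul, mul_one]
  have h3 : ∀ k ∈ box d Q, ‖cfd Q H k * ∏ i, ∑ t ∈ s i, ee ((k i : ℝ) * m i t / Q)‖ ≤
      M * (ε * ∏ i, ((s i).card : ℝ)) := by
    intro k hk
    rw [mem_box] at hk
    by_cases hk0 : k = 0
    · have h4 : cfd Q H k = 0 := by
        unfold cfd
        have h5 : ∑ n ∈ box d Q, (H n : ℂ) * ch' Q k n = ((∑ n ∈ box d Q, H n : ℝ) : ℂ) := by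
          rw [Complex.ofReal_sum]
          refine sum_congr rfl fun n _ => ?_
          have h6 : ch' Q k n = 1 := by
            unfold ch'
            refine prod_eq_one fun i _ => ?_
            rw [hk0]
            have h7 : -((((0 : Fin d → ℕ) i : ℕ) : ℝ) * n i / Q) = ((0 : ℤ) : ℝ) := by simp
            rw [h7, ee_int]
          rw [h6, mul_one]
        rw [h5, h0]
        simp
      rw [h4, zero_mul, norm_zero]
      have : 0 ≤ ∏ i, ((s i).card : ℝ) := prod_nonneg fun i _ => Nat.cast_nonneg _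
      positivity
    · obtain ⟨i₀, hi₀⟩ : ∃ i, k i ≠ 0 := by
        by_contra hcon
        push Not at hcon
        exact hk0 (funext hcon)
      have hnd : ¬ Q ∣ k i₀ := fun h => by
        have := Nat.le_of_dvd (Nat.pos_of_ne_zero hi₀) h
        have := hk i₀
        omega
      rw [norm_mul]
      apply mul_le_mul (hcf k) _ (norm_nonneg _) hM0
      rw [norm_prod]
      have e1 : ∏ i, ‖∑ t ∈ s i, ee ((k i : ℝ) * m i t / Q)‖ ≤ ∏ i, ((if i = i₀ then ε else 1) * ((s i).card : ℝ)) := by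
        apply prod_le_prod (fun _ _ => norm_nonneg _)
        intro i _
        split_ifs with h
        · subst h
          exact hgood i (k i) hnd
        · rw [one_mul]
          exact htriv i (k i)
      refine e1.trans (le_of_eq ?_)
      rw [prod_mul_distrib, prod_ite_eq' univ i₀ (fun _ => ε), if_pos (mem_univ _)]
  refine (sum_le_sum h3).trans (le_of_eq ?_)
  rw [sum_const, card_box, nsmul_eq_mul]
  push_cast
  ring

end Pool.Agent.Q235.FE
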