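import Pool.Agent.Q235.FE.Two
import Pool.Agent.Q28.BP.TwQ

/-!
# Euler products of matrices at the centre, twisted by the quadratic characters of integers with few changed digits
-/

set_option autoImplicit false

namespace Pool.Agent.Q235.FE

open Finset Filter Topology
open Pool.Agent.Q235.FD (Setting exceptions change digit avg avg_equiv)
open Pool.Agent.Q28.BP (lq gq gq_eq lq_abs ta sum_gq_mean EigLe mn mn_neg tendsto_loglog)

/-- **Twists by the characters of integers with few changed digits.** -/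
theorem matrix_twists (β : ℕ) (hβ : 2 ≤ β) : ∃ c : ℝ, 0 < c ∧ ∀ (n : ℕ) (η : ℝ), 0 < η → ∃ X₀ : ℕ, 16 ≤ X₀ ∧
    ∀ (S : Finset ℕ) (M : ℕ → Matrix (Fin n) (Fin n) ℂ), (∀ p : ℕ, p.Prime → p ∉ S → EigLe (M p)) → (∀ p < 4, p ∈ S) →
    ∀ (K r N : ℕ) (f : ℕ → ℕ), 2 * r ≤ K → N < β ^ K → (∀ j, f j < β ∧ f j ≠ digit β j N) →
      (bad β K r N f (fun m => ∀ x : ℕ, X₀ ≤ x → Real.log x ≤ c * Real.sqrt r → ∀ t : ℤ, (t = 1 ∨ t = -1) →
        |∑ p ∈ (range (x + 1)).filter Nat.Prime, lq S M (t * (m : ℤ)) p +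
          1 / 2 * ∑ p ∈ (range (x + 1)).filter Nat.Prime, ta S M p / p| ≤
          3 * Real.log (Real.log x) ^ (5 / 6 : ℝ)) : ℝ) ≤ η * (K.choose r : ℝ) := by
  obtain ⟨c, hc, H⟩ := means Unit β hβ
  refine ⟨c, hc, fun n η hη => ?_⟩
  have hn : (0 : ℝ) ≤ n := Nat.cast_nonneg n
  obtain ⟨X₀, hX₀, H⟩ := H (3 * n + 1) (by linarith) (η / 2) (by positivity)
  obtain ⟨X₁, h16, hX₁⟩ := big_const (2 * n * ∑' k : ℕ, (k : ℝ) ^ (-(3 / 2) : ℝ))
  refine ⟨max X₀ X₁, h16.trans (le_max_right _ _), fun S M hM hS K r N f hrK hN hf => ?_⟩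
  have key : ∀ t : ℤ, (t = 1 ∨ t = -1) → (bad β K r N f (fun m => ∀ x : ℕ, max X₀ X₁ ≤ x → Real.log x ≤ c * Real.sqrt r →
        |∑ p ∈ (range (x + 1)).filter Nat.Prime, lq S M (t * (m : ℤ)) p +
          1 / 2 * ∑ p ∈ (range (x + 1)).filter Nat.Prime, ta S M p / p| ≤
          3 * Real.log (Real.log x) ^ (5 / 6 : ℝ)) : ℝ) ≤ η / 2 * (K.choose r : ℝ) := by
    intro t ht
    have h0 := H (fun p k => if p.Prime then lq S M (t * ((k ()) : ℤ)) p else 0) (fun p hp k => by
        beta_reduce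
        rw [if_pos hp, if_pos hp, ← gq_eq S M _ hp, ← gq_eq S M _ hp, compat_mul () t p k]) (fun p hp k => by
        beta_reduce
        rw [if_pos hp]
        exact lq_abs S M hM hS _ hp) (fun _ => K) (fun _ => r) (fun _ => N) (fun _ => f)
      ⟨fun _ => hrK, fun _ => hN, fun _ j => hf j⟩
    have h5 : ∏ _l : Unit, (K.choose r : ℝ) = K.choose r := by simp
    rw [h5] at h0
    refine le_trans (Nat.cast_le.2 ((bad_le β K r N f _).trans (exceptions_mono β _ _ _ _ (fun m hm x hx hxr => ?_)))) h0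
    have h1 := hm x ((le_max_left _ _).trans hx) (fun _ => hxr)
    have h2 := sum_gq_mean S M hM hS x
    have h3 := hX₁ x ((le_max_right _ _).trans hx)
    have e : ∀ p ∈ (range (x + 1)).filter Nat.Prime,
        avg p (fun k : Unit → ℕ => if p.Prime then lq S M (t * ((k ()) : ℤ)) p else 0) = mn (gq S M) p := by
      intro p hp
      have hp' := (mem_filter.1 hp).2
      rw [avg_unit]
      simp only [if_pos hp']
      rcases ht with rfl | rfl
      · unfold mn
        congr 1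
        refine sum_congr rfl fun j _ => ?_
        have := gq_eq S M (j : ℤ) hp'
        rw [Int.cast_natCast] at this
        rw [this, one_mul]
      · rw [← mn_neg (gq S M) hp']
        unfold mn
        congr 1
        refine sum_congr rfl fun j _ => ?_
        have := gq_eq S M (-(j : ℤ)) hp'
        rw [Int.cast_neg, Int.cast_natCast] at this
        rw [neg_one_mul]
        exact this.symm
    have e' : ∀ p ∈ (range (x + 1)).filter Nat.Prime, (if p.Prime then lq S M (t * ((m ()) : ℤ)) p else 0) =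
        lq S M (t * ((m ()) : ℤ)) p := fun p hp => if_pos (mem_filter.1 hp).2
    rw [sum_congr rfl e, sum_congr rfl e'] at h1
    rw [abs_le] at h1 h2 ⊢
    constructor <;> linarith [h1.1, h1.2, h2.1, h2.2]
  have k1 := key 1 (Or.inl rfl)
  have k2 := key (-1) (Or.inr rfl)
  have k3 := bad_and β K r N f (fun m => ∀ x : ℕ, max X₀ X₁ ≤ x → Real.log x ≤ c * Real.sqrt r →
        |∑ p ∈ (range (x + 1)).filter Nat.Prime, lq S M (1 * (m : ℤ)) p +
          1 / 2 * ∑ p ∈ (range (x + 1)).filter Nat.Prime, ta S M p / p| ≤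
          3 * Real.log (Real.log x) ^ (5 / 6 : ℝ)) (fun m => ∀ x : ℕ, max X₀ X₁ ≤ x → Real.log x ≤ c * Real.sqrt r →
        |∑ p ∈ (range (x + 1)).filter Nat.Prime, lq S M (-1 * (m : ℤ)) p +
          1 / 2 * ∑ p ∈ (range (x + 1)).filter Nat.Prime, ta S M p / p| ≤
          3 * Real.log (Real.log x) ^ (5 / 6 : ℝ))
  have k4 := bad_mono β K r N f (P := fun m => (∀ x : ℕ, max X₀ X₁ ≤ x → Real.log x ≤ c * Real.sqrt r →
        |∑ p ∈ (range (x + 1)).filter Nat.Prime, lq S M (1 * (m : ℤ)) p +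
          1 / 2 * ∑ p ∈ (range (x + 1)).filter Nat.Prime, ta S M p / p| ≤
          3 * Real.log (Real.log x) ^ (5 / 6 : ℝ)) ∧ (∀ x : ℕ, max X₀ X₁ ≤ x → Real.log x ≤ c * Real.sqrt r →
        |∑ p ∈ (range (x + 1)).filter Nat.Prime, lq S M (-1 * (m : ℤ)) p +
          1 / 2 * ∑ p ∈ (range (x + 1)).filter Nat.Prime, ta S M p / p| ≤
          3 * Real.log (Real.log x) ^ (5 / 6 : ℝ)))
      (P' := fun m => ∀ x : ℕ, max X₀ X₁ ≤ x → Real.log x ≤ c * Real.sqrt r → ∀ t : ℤ, (t = 1 ∨ t = -1) →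
        |∑ p ∈ (range (x + 1)).filter Nat.Prime, lq S M (t * (m : ℤ)) p +
          1 / 2 * ∑ p ∈ (range (x + 1)).filter Nat.Prime, ta S M p / p| ≤
          3 * Real.log (Real.log x) ^ (5 / 6 : ℝ)) (fun m hm x hx hxr t ht => by
      rcases ht with rfl | rfl
      · exact hm.1 x hx hxr
      · exact hm.2 x hx hxr)
  refine (Nat.cast_le.2 (k4.trans k3)).trans ?_
  push_cast
  linarith

end Pool.Agent.Q235.FE
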