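import Pool.Agent.Q235.FE.One
import Pool.Agent.Q28.BP.Curves

/-!
# Curves `y² = x³ + A x + B` whose coefficients are integers with few changed digits
-/

set_option autoImplicit false

namespace Pool.Agent.Q235.FE

open Finset Filter Topology
open Pool.Agent.Q235.FD (Setting exceptions change digit avg avg_equiv)
open Pool.Agent.Q28.BP (lg lg_abs lg_congr nuf lg_nuf nuf_congr nu nu_curve' sum_nu_curve wt sum32 sum_inv_loglog rpow32 tendsto_loglog)
open Pool.Agent.W263.BSD (pointCount GoodPrime rsSum)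

/-- the average in the case of two variables -/
lemma avg_two {p : ℕ} (F : (Fin 2 → ℕ) → ℝ) :
    avg p F = (∑ i ∈ range p, ∑ j ∈ range p, F ![i, j]) / (p : ℝ) ^ 2 := by
  classical
  unfold avg
  rw [Fintype.card_fin, ← sum_product']
  congr 1
  refine sum_nbij' (fun n => (n 0, n 1)) (fun q => ![q.1, q.2]) ?_ ?_ ?_ ?_ ?_
  · intro n hn
    have h := (@Fintype.mem_piFinset _ (_) _ _ _ _).1 hn
    exact mem_product.2 ⟨h 0, h 1⟩
  · intro q hq
    obtain ⟨h1, h2⟩ := mem_product.1 hq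
    refine (@Fintype.mem_piFinset _ (_) _ _ _ _).2 fun i => ?_
    fin_cases i
    · exact h1
    · exact h2
  · intro n _
    funext i
    fin_cases i <;> rfl
  · intro q _
    rfl
  · intro n _
    congr 1
    funext i
    fin_cases i <;> rfl

lemma compat_mul {L : Type} (l : L) (s : ℤ) : Compat (fun n : L → ℕ => s * (n l : ℤ)) := by
  intro p n
  push_cast
  simp

/-- the mean over both coefficients -/
lemma mean_two (s t : ℤ) (ht : t = 1 ∨ t = -1) {p : ℕ} (hp : p.Prime) (hs : ¬ (p : ℤ) ∣ s) :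
    |avg p (fun n : Fin 2 → ℕ => nuf (s * (n 0 : ℤ)) (t * (n 1 : ℤ)) p) - 1 / (2 * p)| ≤ 1000001 / (p : ℝ) ^ 2 := by
  have hp0 : (0 : ℝ) < p := by exact_mod_cast hp.pos
  have hpi : Prime (p : ℤ) := Nat.prime_iff_prime_int.1 hp
  obtain ⟨D, hD, hDe⟩ : ∃ D : Polynomial ℤ, (D = Polynomial.X ∨ D = -Polynomial.X) ∧ ∀ j : ℤ, D.eval j = t * j := by
    rcases ht with rfl | rfl
    · exact ⟨Polynomial.X, Or.inl rfl, fun j => by simp⟩
    · exact ⟨-Polynomial.X, Or.inr rfl, fun j => by simp⟩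
  rw [avg_two]
  have e1 : (∑ i ∈ range p, ∑ j ∈ range p, nuf (s * ((![i, j] 0 : ℕ) : ℤ)) (t * ((![i, j] 1 : ℕ) : ℤ)) p) / (p : ℝ) ^ 2 =
      (∑ i ∈ range p, nu (Polynomial.C (s * (i : ℤ))) D p) / p := by
    unfold nu
    rw [← sum_div, div_div, sq]
    congr 1
    refine sum_congr rfl fun i _ => sum_congr rfl fun j _ => ?_
    rw [Polynomial.eval_C, hDe]
    rfl
  rw [e1]
  have h1 : ∀ i ∈ range p, |nu (Polynomial.C (s * (i : ℤ))) D p - 1 / (2 * p)| ≤ 1000000 / (p : ℝ) ^ 2 +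
      (if i = 0 then 1 / (p : ℝ) else 0) := by
    intro i hi
    have h2 := nu_curve' (s * (i : ℤ)) hp D hD
    refine h2.trans (add_le_add le_rfl ?_)
    by_cases h0 : i = 0
    · rw [if_pos h0]
      split_ifs
      · exact le_rfl
      · positivity
    · rw [if_neg h0, if_neg]
      intro h3
      rcases hpi.dvd_or_dvd h3 with h4 | h4
      · exact hs h4
      · have h5 : p ∣ i := by exact_mod_cast h4
        have := Nat.le_of_dvd (Nat.pos_of_ne_zero h0) h5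
        have := mem_range.1 hi
        omega
  have e2 : (∑ i ∈ range p, nu (Polynomial.C (s * (i : ℤ))) D p) / p - 1 / (2 * p) =
      (∑ i ∈ range p, (nu (Polynomial.C (s * (i : ℤ))) D p - 1 / (2 * p))) / p := by
    rw [sum_sub_distrib, sum_const, card_range, nsmul_eq_mul]
    field_simp
  rw [e2, abs_div, abs_of_pos hp0, div_le_iff₀ hp0]
  refine (abs_sum_le_sum_abs _ _).trans ((sum_le_sum h1).trans ?_)
  rw [sum_add_distrib, sum_const, card_range, nsmul_eq_mul, sum_ite_eq' (range p) 0, if_pos (mem_range.2 hp.pos)]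
  apply le_of_eq
  field_simp
  norm_num

/-- the sum of the means over both coefficients -/
lemma sum_mean_two : ∃ Z : ℝ, 0 ≤ Z ∧ ∀ s t : ℤ, (s = 1 ∨ s = -1) → (t = 1 ∨ t = -1) → ∀ x : ℕ, 3 ≤ x →
    |∑ p ∈ (range (x + 1)).filter Nat.Prime, avg p (fun n : Fin 2 → ℕ => nuf (s * (n 0 : ℤ)) (t * (n 1 : ℤ)) p) -
      1 / 2 * Real.log (Real.log x)| ≤ Z := by
  obtain ⟨C, hC0, hC⟩ := sum_inv_loglog
  obtain ⟨Z, hZ⟩ : ∃ Z : ℝ, Z = 1000001 * ∑' n : ℕ, (n : ℝ) ^ (-(3 / 2) : ℝ) := ⟨_, rfl⟩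
  have hZ0 : 0 ≤ Z := by
    rw [hZ]
    exact mul_nonneg (by norm_num) (tsum_nonneg fun n => by positivity)
  refine ⟨Z + C / 2, by positivity, fun s t hs ht x hx => ?_⟩
  have h1 := hC x hx
  have h2 := sum32 1000001 (by norm_num) (fun p => avg p (fun n : Fin 2 → ℕ => nuf (s * (n 0 : ℤ)) (t * (n 1 : ℤ)) p) - 1 / (2 * p))
    (fun p hp => by
      have hpi : Prime (p : ℤ) := Nat.prime_iff_prime_int.1 hp
      have hns : ¬ (p : ℤ) ∣ s := by
        intro h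
        apply hpi.not_isUnit
        apply isUnit_of_dvd_unit h
        rcases hs with rfl | rfl
        · exact isUnit_one
        · exact isUnit_one.neg
      refine (mean_two s t ht hp hns).trans ?_
      have hp0 : (0 : ℝ) < p := by exact_mod_cast hp.pos
      have hp1 : (1 : ℝ) ≤ p := by exact_mod_cast hp.one_lt.le
      rw [rpow32 hp.pos, mul_one_div]
      refine div_le_div_of_nonneg_left (by norm_num) (by positivity) ?_
      have hs1 : 1 ≤ Real.sqrt p := by rwa [Real.one_le_sqrt]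
      have hss : Real.sqrt p * Real.sqrt p = p := Real.mul_self_sqrt hp0.le
      nlinarith [mul_nonneg (sub_nonneg.2 hs1) hp0.le]) x
  rw [← hZ] at h2
  have e1 : ∑ p ∈ (range (x + 1)).filter Nat.Prime, (avg p (fun n : Fin 2 → ℕ => nuf (s * (n 0 : ℤ)) (t * (n 1 : ℤ)) p) - 1 / (2 * p)) =
      ∑ p ∈ (range (x + 1)).filter Nat.Prime, avg p (fun n : Fin 2 → ℕ => nuf (s * (n 0 : ℤ)) (t * (n 1 : ℤ)) p) -
        1 / 2 * ∑ p ∈ (range (x + 1)).filter Nat.Prime, 1 / (p : ℝ) := by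
    rw [sum_sub_distrib, mul_sum]
    congr 1
    exact sum_congr rfl fun p _ => by ring
  rw [e1] at h2
  rw [abs_le] at h1 h2 ⊢
  constructor <;> linarith [h1.1, h1.2, h2.1, h2.2]

lemma big_const (Z : ℝ) : ∃ X₁ : ℕ, 16 ≤ X₁ ∧ ∀ x : ℕ, X₁ ≤ x → Z ≤ Real.log (Real.log x) ^ (5 / 6 : ℝ) := by
  have hL : Tendsto (fun x : ℕ => Real.log (Real.log (x : ℝ)) ^ (5 / 6 : ℝ)) atTop atTop :=
    (tendsto_rpow_atTop (by norm_num)).comp tendsto_loglog
  obtain ⟨X₁, hX₁⟩ := eventually_atTop.1 (hL.eventually_ge_atTop Z)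
  exact ⟨max 16 X₁, le_max_left _ _, fun x hx => hX₁ x ((le_max_right _ _).trans hx)⟩

/-- both coefficients -/
theorem curves_two (β : ℕ) (hβ : 2 ≤ β) : ∃ c : ℝ, 0 < c ∧ ∀ η : ℝ, 0 < η → ∃ X₀ : ℕ, 16 ≤ X₀ ∧
    ∀ s t : ℤ, (s = 1 ∨ s = -1) → (t = 1 ∨ t = -1) → ∀ (K r N : Fin 2 → ℕ) (f : Fin 2 → ℕ → ℕ), Setting β K r N f →
      (exceptions β K r N f (fun m => ∀ x : ℕ, X₀ ≤ x → (∀ l, Real.log x ≤ c * Real.sqrt (r l)) →
        |∑ p ∈ (range (x + 1)).filter Nat.Prime, lg (s * (m 0 : ℤ)) (t * (m 1 : ℤ)) p - 1 / 2 * Real.log (Real.log x)| ≤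
          4 * Real.log (Real.log x) ^ (5 / 6 : ℝ)) : ℝ) ≤ η * ∏ l, ((K l).choose (r l) : ℝ) := by
  obtain ⟨c, hc, H⟩ := curves_all (Fin 2) β hβ
  obtain ⟨Z, hZ0, hZ⟩ := sum_mean_two
  obtain ⟨X₁, h16, hX₁⟩ := big_const Z
  refine ⟨c, hc, fun η hη => ?_⟩
  obtain ⟨X₀, hX₀, H⟩ := H η hη
  refine ⟨max X₀ X₁, h16.trans (le_max_right _ _), fun s t hs ht K r N f hset => ?_⟩
  refine le_trans (Nat.cast_le.2 (exceptions_mono β K r N f (fun m hm x hx hxr => ?_)))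
    (H (fun n => s * (n 0 : ℤ)) (fun n => t * (n 1 : ℤ)) (compat_mul 0 s) (compat_mul 1 t) K r N f hset)
  have h1 := hm x ((le_max_left _ _).trans hx) hxr
  have h2 := hZ s t hs ht x (hX₀.trans ((le_max_left _ _).trans hx))
  have h3 := hX₁ x ((le_max_right _ _).trans hx)
  rw [abs_le] at h1 h2 ⊢
  constructor <;> linarith [h1.1, h1.2, h2.1, h2.2]

/-- a fixed first coefficient, uniformly -/
theorem curves_fixed (β : ℕ) (hβ : 2 ≤ β) : ∃ c : ℝ, 0 < c ∧ ∀ η : ℝ, 0 < η → ∃ X₀ : ℕ, 16 ≤ X₀ ∧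
    ∀ A t : ℤ, (t = 1 ∨ t = -1) → ∀ (K r N : ℕ) (f : ℕ → ℕ), 2 * r ≤ K → N < β ^ K → (∀ j, f j < β ∧ f j ≠ digit β j N) →
      (bad β K r N f (fun m => ∀ x : ℕ, X₀ ≤ x → Real.log x ≤ c * Real.sqrt r →
        |∑ p ∈ (range (x + 1)).filter Nat.Prime, lg A (t * (m : ℤ)) p - 1 / 2 * Real.log (Real.log x)| ≤
          4 * Real.log (Real.log x) ^ (5 / 6 : ℝ) + wt A x) : ℝ) ≤ η * (K.choose r : ℝ) := by
  obtain ⟨c, hc, H⟩ := curves_all Unit β hβ
  obtain ⟨Z, hZ0, hZ⟩ := sum_nu_curve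
  obtain ⟨X₁, h16, hX₁⟩ := big_const Z
  refine ⟨c, hc, fun η hη => ?_⟩
  obtain ⟨X₀, hX₀, H⟩ := H η hη
  refine ⟨max X₀ X₁, h16.trans (le_max_right _ _), fun A t ht K r N f hrK hN hf => ?_⟩
  obtain ⟨D, hD, hDe⟩ : ∃ D : Polynomial ℤ, (D = Polynomial.X ∨ D = -Polynomial.X) ∧ ∀ j : ℤ, D.eval j = t * j := by
    rcases ht with rfl | rfl
    · exact ⟨Polynomial.X, Or.inl rfl, fun j => by simp⟩
    · exact ⟨-Polynomial.X, Or.inr rfl, fun j => by simp⟩
  have h0 := H (fun _ => A) (fun n => t * ((n ()) : ℤ)) (fun p n => rfl) (compat_mul () t) (fun _ => K) (fun _ => r) (fun _ => N) (fun _ => f)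
    ⟨fun _ => hrK, fun _ => hN, fun _ j => hf j⟩
  have h5 : ∏ _l : Unit, (K.choose r : ℝ) = K.choose r := by simp
  rw [h5] at h0
  refine le_trans (Nat.cast_le.2 ((bad_le β K r N f _).trans (exceptions_mono β _ _ _ _ (fun m hm x hx hxr => ?_)))) h0
  have h1 := hm x ((le_max_left _ _).trans hx) (fun _ => hxr)
  have h2 := hZ A D hD x (hX₀.trans ((le_max_left _ _).trans hx))
  have h3 := hX₁ x ((le_max_right _ _).trans hx)
  have e : ∀ p, avg p (fun n : Unit → ℕ => nuf A (t * ((n ()) : ℤ)) p) = nu (Polynomial.C A) D p := by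
    intro p
    rw [avg_unit]
    unfold nu
    congr 1
    refine sum_congr rfl fun j _ => ?_
    rw [Polynomial.eval_C, hDe]
  rw [sum_congr rfl fun p _ => e p] at h1
  rw [abs_le] at h1 h2 ⊢
  constructor <;> linarith [h1.1, h1.2, h2.1, h2.2]

end Pool.Agent.Q235.FE
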